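import Pool.Agent.MP_54d89f_nt.Dx.St
import Pool.Agent.MP_54d89f_nt.Dw.Gau

/-! The Jacobi sum of a quartic and the quadratic character in terms of Gamma values. -/

namespace Pool.Agent.MP_54d89f_nt.Dx

open Finset Pool.Agent.MP_030fd4_nt Pool.Agent.MP_54d89f_nt.Dw

variable {p : Nat} [Fact p.Prime]

theorem gau4 (hr : RobSt p) (ht : ThSt p) : Gau4 p := by
  intro μ x τ hμ hx hτ
  have hp : p.Prime := Fact.out
  have hp2 := hp.two_le
  have hμ0 : μ ≠ 0 := by omega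
  obtain ⟨w, hw⟩ := IsAlgClosed.exists_pow_nat_eq (-(p : ℂ_[p])) (n := p - 1) (by omega)
  have hw0 : w ≠ 0 := by
    rintro rfl
    rw [zero_pow (by omega), eq_comm, neg_eq_zero] at hw
    exact hp.ne_zero (by exact_mod_cast hw)
  obtain ⟨Θ, h1, h2, h3⟩ := ht w hw
  have hker : ∀ z : ℤ_[p], PadicInt.toZMod z = 0 ↔ (p : ℤ_[p]) ∣ z := by
    intro z
    rw [← RingHom.mem_ker, PadicInt.ker_toZMod, PadicInt.maximalIdeal_eq_span_p,
      Ideal.mem_span_singleton]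
  have hT : ∀ y, τ y ^ p = τ y := fun y => by rw [← map_pow, ZMod.pow_card]
  let ψ : AddChar (ZMod p) ℂ_[p] :=
    { toFun := fun y => Θ (τ y)
      map_zero_eq_one' := by simpa using h2
      map_add_eq_mul' := fun y y' => (h3 _ _ _ (hT y) (hT y') (hT (y + y'))
        ((hker _).1 (by simp [hτ]))).symm }
  have hψ : ∀ y, HasSum (fun n : ℕ => algebraMap ℚ_[p] ℂ_[p] (lam p n) * w ^ n *
      chi_Gau τ y ^ n) (ψ y) := fun y => h1 (τ y)
  have hpc : (p : ℤ_[p]) - 1 = 4 * (μ : ℤ_[p]) := by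
    have : ((p : ℕ) : ℤ_[p]) = ((4 * μ + 1 : ℕ) : ℤ_[p]) := congrArg _ hμ
    rw [this]
    push_cast
    ring
  have g1 := gs_Gau hr τ hτ hw ψ hψ (a := μ) (b := 3 * μ) (by omega) (by omega) x
    (by rw [hpc]; linear_combination (μ : ℤ_[p]) * hx)
  have g2 := gs_Gau hr τ hτ hw ψ hψ (a := 2 * μ) (b := 2 * μ) (by omega) (by omega) (2 * x)
    (by rw [hpc]; push_cast; linear_combination (2 * (μ : ℤ_[p])) * hx)
  have g3 := gs_Gau hr τ hτ hw ψ hψ (a := 3 * μ) (b := μ) (by omega) hμ0 (3 * x)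
    (by rw [hpc]; push_cast; linear_combination (3 * (μ : ℤ_[p])) * hx)
  have e : chi_Gau τ ^ (3 * μ) * chi_Gau τ ^ (2 * μ) = chi_Gau τ ^ μ := by
    have h4 : chi_Gau τ ^ (4 * μ) = 1 := (chi_one_Gau τ hτ _).2 ⟨1, by omega⟩
    rw [← pow_add, show 3 * μ + 2 * μ = μ + 4 * μ by ring, pow_add, h4, mul_one]
  have hne : chi_Gau τ ^ (3 * μ) * chi_Gau τ ^ (2 * μ) ≠ 1 := by
    rw [e]
    intro h
    have := Nat.le_of_dvd (Nat.pos_of_ne_zero hμ0) ((chi_one_Gau τ hτ _).1 h)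
    omega
  have hJ := jacobiSum_mul_nontrivial hne ψ
  have eJ : jacobiSum (chi_Gau τ ^ (3 * μ)) (chi_Gau τ ^ (2 * μ)) =
      algebraMap ℚ_[p] ℂ_[p] (Jac4 τ μ) := by
    rw [jacobiSum, Jac4, map_sum]
    refine sum_congr rfl fun y _ => ?_
    rw [MulChar.pow_apply' _ (by omega), MulChar.pow_apply' _ (by omega), map_mul, map_pow,
      map_pow, chi_apply_Gau, chi_apply_Gau]
  rw [e, eJ, g1, g2, g3] at hJ
  apply (algebraMap ℚ_[p] ℂ_[p]).injective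
  rw [map_mul, map_neg, map_mul]
  apply mul_left_cancel₀ (pow_ne_zero (3 * μ) hw0)
  have e3 : w ^ (3 * μ) = w ^ μ * w ^ (2 * μ) := by rw [← pow_add]; congr 1; ring
  rw [e3] at hJ ⊢
  linear_combination -hJ

end Pool.Agent.MP_54d89f_nt.Dx
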