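import Pool.Agent.MP_54d89f_nt.Dx.Out4
import Pool.Agent.MP_54d89f_nt.Dx.Bnd4
import Pool.Agent.MP_54d89f_nt.Dx.Rob4
import Pool.Agent.MP_54d89f_nt.Dx.Th4
import Pool.Agent.MP_54d89f_nt.Dx.Gau4
import Pool.Agent.MP_54d89f_nt.Dx.JacI4
import Pool.Agent.MP_54d89f_nt.Dx.Root4
import Pool.Agent.MP_54d89f_nt.Dw.Teich
import Pool.Agent.MP_54d89f_nt.Dw.Lam
import Pool.Agent.MP_54d89f_nt.Dw.Gau
import Pool.Agent.MP_54d89f_nt.Dw.JacI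
import Pool.Agent.MP_54d89f_nt.Dw.Root

/-! The constants as units and roots, and the common last step. -/

namespace Pool.Agent.MP_54d89f_nt.Dx

open Finset Pool.Agent.MP_030fd4_nt Pool.Agent.MP_54d89f_nt.Dw

variable {p : ℕ} [Fact p.Prime]

theorem gam_unit (hp : 5 ≤ p) (y : ℤ_[p]) : IsUnit (gammaP p y) := by
  obtain ⟨u, h1, -, h3⟩ := exists_unit hp y
  rw [h3] at h1
  exact (isUnit_pow_iff (by omega)).1 (isUnit_of_mul_isUnit_right (isUnit_of_mul_isUnit_left h1))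

theorem root3 (hp : 5 ≤ p) (h : p % 3 = 1) {x : ℤ_[p]} (hx : 6 * x = 1) (a b : ℤ)
    (hab : (p : ℤ) = a ^ 2 + 3 * b ^ 2) :
    GG x ^ 2 - (4 * (a : ℚ_[p]) ^ 2 - 2 * p) * GG x + (p : ℚ_[p]) ^ 2 = 0 := by
  have hg := gam hp
  have hl := lamst hp hg
  have hb := bnd4 hp hg hl
  exact root teich hg (gau (rob4 hp hl hb) (th4 hp hb)) jacI (p / 6) x a b
    (by have := p_mod hp; omega) hx hab.symm

theorem rootI (hp : 5 ≤ p) (h : p % 4 = 1) {w : ℤ_[p]} (hw : 4 * w = 1) (a b : ℤ)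
    (hab : (p : ℤ) = a ^ 2 + 4 * b ^ 2) :
    G1 w ^ 2 - (4 * (a : ℚ_[p]) ^ 2 - 2 * p) * G1 w + (p : ℚ_[p]) ^ 2 = 0 := by
  have hg := gam hp
  have hl := lamst hp hg
  have hb := bnd4 hp hg hl
  exact root4 hp teich hg (gau4 (rob4 hp hl hb) (th4 hp hb)) jacI4 (p / 4) w a b
    (by omega) hw hab.symm

/-- The conclusion of the theorem. -/
def Concl (a S Q : ℕ → ℚ_[p]) (u : ℤ_[p]) (D : ℕ) (ε κ : ℤ) : Prop :=
  IsUnit u ∧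
    (p % D = 1 →
      (∀ x y : ℤ, (p : ℤ) = x ^ 2 + D * y ^ 2 →
        u ^ 2 - (ε : ℤ_[p]) * (4 * (x : ℤ_[p]) ^ 2 - 2 * (p : ℤ_[p])) * u + (p : ℤ_[p]) ^ 2 = 0) ∧
      ∀ n j : ℕ, 2 * j < p → ∃ R R' : ℤ_[p],
        S (p * n - j) - (u : ℚ_[p]) * S n =
          (p : ℚ_[p]) ^ 3 * (n : ℚ_[p]) ^ 3 * a n * (R : ℚ_[p]) ∧
        (u : ℚ_[p]) * Q (p * n - j) - (p : ℚ_[p]) ^ 2 * Q n =
          (p : ℚ_[p]) ^ 3 * (n : ℚ_[p]) ^ 3 * a n * (R' : ℚ_[p])) ∧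
    (p % D ≠ 1 →
      ∀ n j : ℕ, 2 * j < p → ∃ R R' : ℤ_[p],
        (κ : ℚ_[p]) * S (p * n - j) + (p : ℚ_[p]) ^ 2 * (u : ℚ_[p]) * Q n =
          (p : ℚ_[p]) ^ 3 * (n : ℚ_[p]) ^ 3 * a n * (R : ℚ_[p]) ∧
        (u : ℚ_[p]) * Q (p * n - j) + (κ : ℚ_[p]) * S n =
          (p : ℚ_[p]) ^ 3 * (n : ℚ_[p]) ^ 3 * a n * (R' : ℚ_[p]))

theorem last (hp : 5 ≤ p) {D : ℕ} {m ε κ α β γ : ℤ} {a S Q : ℕ → ℚ_[p]} (hm : ‖(m : ℚ_[p])‖ = 1)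
    (ha : ∀ k : ℕ, a k = (((2 * k).choose k : ℕ) : ℚ_[p]) ^ 3 / (m : ℚ_[p]) ^ k)
    (hS : ∀ N : ℕ, S N = ∑ k ∈ range N, a k)
    (hQ : ∀ N : ℕ, Q N = ∑ k ∈ range N,
      ((α : ℚ_[p]) * (k : ℚ_[p]) ^ 2 + (β : ℚ_[p]) * (k : ℚ_[p]) + (γ : ℚ_[p])) * a k)
    {u : ℤ_[p]} (hu : IsUnit u) {G : ℚ_[p]} (hG : (u : ℚ_[p]) = ε * G) (hε : ε ^ 2 = 1)
    (hr : p % D = 1 → ∀ x y : ℤ, (p : ℤ) = x ^ 2 + D * y ^ 2 →
      G ^ 2 - (4 * (x : ℚ_[p]) ^ 2 - 2 * p) * G + (p : ℚ_[p]) ^ 2 = 0)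
    (h : Out a S Q (ε * G) κ (p % D = 1)) : Concl a S Q u D ε κ := by
  rw [← hG] at h
  have h16 : ‖(16 : ℚ_[p])‖ = 1 := nu hp 8 0 0 (by norm_num)
  obtain ⟨h1, h2⟩ := finish hp (a := a) (fun k => by
      rw [ha, f_at_zero, norm_div, norm_div, norm_pow (m : ℚ_[p]), norm_pow (16 : ℚ_[p]), hm, h16])
    (fun k => by
      have := Padic.norm_int_le_one (p := p) (α * (k : ℤ) ^ 2 + β * k + γ)
      simpa using this) hS hQ h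
  refine ⟨hu, fun hs => ⟨fun x y hxy => ?_, h1 hs⟩, h2⟩
  have e : (ε : ℚ_[p]) ^ 2 = 1 := by exact_mod_cast hε
  have c4 : ((4 : ℤ_[p]) : ℚ_[p]) = 4 := by exact_mod_cast PadicInt.coe_natCast (p := p) 4
  have c2 : ((2 : ℤ_[p]) : ℚ_[p]) = 2 := by exact_mod_cast PadicInt.coe_natCast (p := p) 2
  apply Subtype.ext
  have : (u : ℚ_[p]) ^ 2 - ε * (4 * (x : ℚ_[p]) ^ 2 - 2 * p) * u + (p : ℚ_[p]) ^ 2 = 0 := by
    rw [hG]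
    linear_combination hr hs x y hxy + (G ^ 2 - (4 * (x : ℚ_[p]) ^ 2 - 2 * p) * G) * e
  simpa [c4, c2] using this

theorem out_congr {F : Fm} {v : Fin 6 → ℤ} {m α β γ : ℤ} {a S Q : ℕ → ℚ_[p]}
    (hm : (F.z : ℚ_[p]) * m = 64) (h0 : v 0 = α) (h3 : v 3 = β) (h5 : v 5 = γ)
    (ha : ∀ k : ℕ, a k = (((2 * k).choose k : ℕ) : ℚ_[p]) ^ 3 / (m : ℚ_[p]) ^ k)
    (hS : ∀ N : ℕ, S N = ∑ k ∈ range N, a k)
    (hQ : ∀ N : ℕ, Q N = ∑ k ∈ range N,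
      ((α : ℚ_[p]) * (k : ℚ_[p]) ^ 2 + (β : ℚ_[p]) * (k : ℚ_[p]) + (γ : ℚ_[p])) * a k) :
    a = fg F 0 ∧ S = Mg F w0 0 ∧ Q = Mg F v 0 := by
  have ea : ∀ k, a k = fg F (0 : ℚ_[p]) k := fun k => by rw [ha, fg_at_zero F hm]
  refine ⟨funext ea, funext fun N => by simp [hS, ea, Mg], funext fun N => ?_⟩
  rw [hQ, Mg]
  refine sum_congr rfl fun k _ => ?_
  rw [ea, wt, h0, h3, h5]; ring

theorem family (hp : 5 ≤ p) {D : ℕ} {m e κ α β γ : ℤ}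
    (hm : (m = 16 ∧ D = 3 ∧ e = 1 ∧ κ = 18 ∧ α = 9 ∧ β = 9 ∧ γ = 2) ∨
      (m = 256 ∧ D = 3 ∧ e = -1 ∧ κ = 72 ∧ α = 36 ∧ β = 0 ∧ γ = -1) ∨
      (m = -8 ∧ D = 4 ∧ e = 1 ∧ κ = -16 ∧ α = 18 ∧ β = 14 ∧ γ = 3) ∨
      (m = -512 ∧ D = 4 ∧ e = 2 ∧ κ = -32 ∧ α = 36 ∧ β = 8 ∧ γ = 1))
    {a S Q : ℕ → ℚ_[p]}
    (ha : ∀ k : ℕ, a k = (((2 * k).choose k : ℕ) : ℚ_[p]) ^ 3 / (m : ℚ_[p]) ^ k)
    (hS : ∀ N : ℕ, S N = ∑ k ∈ range N, a k)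
    (hQ : ∀ N : ℕ, Q N = ∑ k ∈ range N,
      ((α : ℚ_[p]) * (k : ℚ_[p]) ^ 2 + (β : ℚ_[p]) * (k : ℚ_[p]) + (γ : ℚ_[p])) * a k)
    {z u : ℤ_[p]} (hz : 12 * z = 1)
    (hu : u = (jacobiSym e p : ℤ_[p]) * (-1) ^ ((p + 1) / 2) *
      if D = 3 then gammaP p (2 * z) ^ 2 * gammaP p (4 * z) ^ 2 else gammaP p (3 * z) ^ 4) :
    Concl a S Q u D (jacobiSym e p) κ := by
  obtain ⟨m2, m3⟩ := p_mod hp
  have hε : jacobiSym e p ^ 2 = 1 := by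
    refine jacobiSym.sq_one ?_
    rcases hm with h | h | h | h <;> rw [h.2.2.1]
    · simp
    · simp
    · simp
    · rw [show (2 : ℤ) = ((2 : ℕ) : ℤ) from rfl, Int.gcd_natCast_natCast]
      exact (Nat.coprime_two_left).2 (Nat.odd_iff.2 m2)
  have hU : IsUnit u := by
    have h1 : IsUnit (jacobiSym e p : ℤ_[p]) := (isUnit_pow_iff (n := 2) (by omega)).1 (by
      rw [← Int.cast_pow, hε]; simp)
    rw [hu]
    refine (h1.mul (isUnit_one.neg.pow _)).mul ?_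
    split_ifs
    · exact ((gam_unit hp _).pow 2).mul ((gam_unit hp _).pow 2)
    · exact (gam_unit hp _).pow 4
  have h6 : 6 * (2 * z) = 1 := by linear_combination hz
  have h4 : 4 * (3 * z) = 1 := by linear_combination hz
  have g3 : D = 3 → (u : ℚ_[p]) = (jacobiSym e p : ℚ_[p]) * GG (2 * z) := fun h => by
    rw [hu, if_pos h, GG, show 2 * (2 * z) = 4 * z by ring]; simp; ring
  have g4 : D = 4 → (u : ℚ_[p]) = (jacobiSym e p : ℚ_[p]) * G1 (3 * z) := fun h => by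
    rw [hu, if_neg (by omega), G1]; simp; ring
  rcases hm with ⟨rfl, rfl, rfl, rfl, rfl, rfl, rfl⟩ | ⟨rfl, rfl, rfl, rfl, rfl, rfl, rfl⟩ |
    ⟨rfl, rfl, rfl, rfl, rfl, rfl, rfl⟩ | ⟨rfl, rfl, rfl, rfl, rfl, rfl, rfl⟩
  · refine last hp (nu hp 8 0 0 (by norm_num)) ha hS hQ hU (g3 rfl) hε
      (fun h x y hxy => root3 hp h h6 x y hxy) ?_
    have ea : ∀ k, a k = f (0 : ℚ_[p]) k := fun k => by rw [ha, f_at_zero]; norm_num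
    have e1 : S = M 0 0 := funext fun N => by simp [hS, ea, M]
    have e2 : Q = M 2 0 := funext fun N => by
      rw [hQ, M]
      refine sum_congr rfl fun k _ => ?_
      rw [ea, e_two]; push_cast; ring
    rw [e1, e2, funext ea]
    simpa using out1 hp h6
  · refine last hp (nu hp 16 0 0 (by norm_num)) ha hS hQ hU (g3 rfl) hε
      (fun h x y hxy => root3 hp h h6 x y hxy) ?_
    obtain ⟨e0, e1, e2⟩ := out_congr (F := FB4) (v := wB4) (by simp [FB4]; norm_num) rfl rfl rfl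
      ha hS hQ
    rw [e0, e1, e2, jacobiSym.at_neg_one (Nat.odd_iff.2 m2), ZMod.χ₄_eq_neg_one_pow m2]
    simpa using out4 hp h6
  · refine last hp (nu hp 6 0 0 (by norm_num)) ha hS hQ hU (g4 rfl) hε
      (fun h x y hxy => rootI hp h h4 x y hxy) ?_
    obtain ⟨e0, e1, e2⟩ := out_congr (F := FA8) (v := wA8) (by simp [FA8]; norm_num) rfl rfl rfl
      ha hS hQ
    rw [e0, e1, e2]
    simpa using outA hp hz
  · refine last hp (nu hp 18 0 0 (by norm_num)) ha hS hQ hU (g4 rfl) hε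
      (fun h x y hxy => rootI hp h h4 x y hxy) ?_
    obtain ⟨e0, e1, e2⟩ := out_congr (F := FB8) (v := wB8) (by simp [FB8]; norm_num) rfl rfl rfl
      ha hS hQ
    rw [e0, e1, e2]
    simpa using outB hp hz

end Pool.Agent.MP_54d89f_nt.Dx
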