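import Pool.Agent.MP_54d89f_nt.Dx.St

namespace Pool.Agent.MP_54d89f_nt.Dx

open Finset Pool.Agent.MP_030fd4_nt Pool.Agent.MP_54d89f_nt.Dw

variable {p : ℕ} [Fact p.Prime]

/-- The function p m + c p t. -/
noncomputable def fZ_BlkGx (c : ℤ) : Fn p := fX + cst (c : ℤ_[p]) * fY

theorem fZ_apply_BlkGx (c : ℤ) (m : ℕ) (t : ℤ_[p]) :
    fZ_BlkGx c m t = (p : ℚ_[p]) * m + c * (p * t) := by
  simp [fZ_BlkGx, fX, fY]

theorem G2_Z_BlkGx (E : Eps p) (c : ℤ) : (G2 E).N (fZ_BlkGx c) (E.e ^ 1) :=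
  (G2 E).add (G2_X E) ((G2 E).mul1 (G2_cst E _) ((G2 E).mono (G2_Y E) (E.le (by omega))))

theorem G2_Z1_BlkGx (E : Eps p) (c : ℤ) : (G2 E).N (fZ_BlkGx c) 1 :=
  (G2 E).mono (G2_Z_BlkGx E c) (E.le_one _)

theorem G2_ZX_BlkGx (E : Eps p) (c : ℤ) : (G2 E).N (fZ_BlkGx c - fX) (E.e ^ 2) := by
  rw [fZ_BlkGx, add_sub_cancel_left]
  exact (G2 E).mul1 (G2_cst E _) (G2_Y E)

theorem cont_Z_BlkGx (c : ℤ) (m : ℕ) : Continuous (fZ_BlkGx (p := p) c m) := by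
  have hY := cont_coe (p := p)
  rw [show fZ_BlkGx c m = _ from funext fun t => fZ_apply_BlkGx c m t]
  fun_prop

theorem norm_unit_BlkGx (c : ℤ) (m : ℕ) (t : ℤ_[p]) {i : ℕ} (hi : i + 1 < p) :
    ‖fZ_BlkGx c m t + (1 + i)‖ = 1 := by
  obtain ⟨E⟩ := Eps.nonempty (p := p)
  have h1 : ‖fZ_BlkGx c m t‖ < 1 :=
    (G2_pt E (G2_Z_BlkGx E c) m t).trans_lt (by simpa using E.lt)
  have h2 : ‖(1 + i : ℚ_[p])‖ = 1 := by
    simpa using norm_lin_unit (p := p) 0 hi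
  rw [IsUltrametricDist.norm_add_eq_max_of_norm_ne_norm (by rw [h2]; exact h1.ne), h2]
  exact max_eq_right h1.le

theorem norm_B_BlkGx (c : ℤ) (m : ℕ) (t : ℤ_[p]) : ‖fQ 1 (p - 1) (fZ_BlkGx c) m t‖ = 1 := by
  rw [fQ_apply, norm_prod]
  refine prod_eq_one fun i hi => ?_
  have h1 := mem_range.1 (mem_of_mem_erase hi)
  have h2 := ne_of_mem_erase hi
  simpa using norm_unit_BlkGx (p := p) c m t (i := i) (by omega)

theorem norm_BI_BlkGx (c : ℤ) (m : ℕ) (t : ℤ_[p]) :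
    ‖(fQ 1 (p - 1) (fZ_BlkGx c) * fI : Fn p) m t‖ = 1 := by
  simp only [Pi.mul_apply, fI, norm_mul, norm_inv, norm_B_BlkGx, norm_fQ4, inv_one, mul_one]

/-- The inverse ratio of a lower block. -/
noncomputable def fJ_BlkGx (c : ℤ) : Fn p :=
  fun m t => ((fQ 1 (p - 1) (fZ_BlkGx c) * fI : Fn p) m t)⁻¹

theorem G2_J_BlkGx (E : Eps p) (hp : 5 ≤ p) (c : ℤ) :
    (G2 E).N (fJ_BlkGx c - 1) (E.e ^ 5) := by
  have h1 : (G2 E).N (fQ 1 (p - 1) (fZ_BlkGx c) * fI - 1) (E.e ^ 5) :=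
    G2_ratio E hp (by omega) ⟨1, by rw [Nat.cast_sub (by omega)]; simp⟩ (G2_Z_BlkGx E c)
      (G2_ZX_BlkGx E c)
  have h2 : (G2 E).N (fQ 1 (p - 1) (fZ_BlkGx c) * fI) 1 := by
    have := (G2 E).add ((G2 E).mono h1 (E.le_one _)) (G2 E).one
    rwa [sub_add_cancel] at this
  have h3 : (G2 E).N (fJ_BlkGx c) 1 := G2_inv E h2 (norm_BI_BlkGx c)
  have e0 : (fQ 1 (p - 1) (fZ_BlkGx c) * fI) * fJ_BlkGx c = (1 : Fn p) := by
    funext m t
    refine mul_inv_cancel₀ fun h => ?_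
    have := norm_BI_BlkGx c m t
    rw [h] at this
    simp at this
  have e1 : fJ_BlkGx c - 1 =
      -((fQ 1 (p - 1) (fZ_BlkGx c) * fI - 1) * fJ_BlkGx c : Fn p) := by
    linear_combination e0
  rw [e1]
  exact (G2 E).neg ((G2 E).mul1' h1 h3)

theorem fermat_BlkGx {z : ℤ_[p]} (hz : ‖z‖ = 1) : (p : ℤ_[p]) ∣ z ^ (p - 1) - 1 := by
  have hu : IsUnit z := PadicInt.isUnit_iff.2 hz
  have h0 : PadicInt.toZMod z ≠ 0 := (hu.map PadicInt.toZMod).ne_zero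
  have h1 : PadicInt.toZMod (z ^ (p - 1) - 1) = 0 := by
    rw [map_sub, map_pow, map_one, ZMod.pow_card_sub_one_eq_one h0, sub_self]
  rw [← RingHom.mem_ker, PadicInt.ker_toZMod, PadicInt.maximalIdeal_eq_span_p,
    Ideal.mem_span_singleton] at h1
  exact h1

/-- The ratio of unit parts of one block. -/
noncomputable def fq_BlkGx (F : Fm) (z hf : ℤ_[p]) : Fn p :=
  cst (z ^ (p - 1)) * (fQ hf (p / 2) (fZ_BlkGx F.a1) * fI) *
    (fQ hf (p / 2) (fZ_BlkGx F.a2) * fI) * (fQ hf (p / 2) (fZ_BlkGx F.a3) * fI) *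
    fJ_BlkGx F.b1 * fJ_BlkGx F.b2

theorem G2_q_BlkGx (E : Eps p) (hp : 5 ≤ p) (F : Fm) {z hf : ℤ_[p]} (hz : ‖z‖ = 1)
    (h2 : 2 * hf = 1) : (G2 E).N (fq_BlkGx F z hf - 1) (E.e ^ 5) := by
  have hA : ∀ c : ℤ, (G2 E).N (fQ hf (p / 2) (fZ_BlkGx c) * fI - 1) (E.e ^ 5) := fun c =>
    G2_ratio E hp (by omega) ⟨hf, half_add hp h2⟩ (G2_Z_BlkGx E c) (G2_ZX_BlkGx E c)
  have h4 : (G2 E).N (cst (z ^ (p - 1) : ℤ_[p]) - 1) (E.e ^ 5) := by
    obtain ⟨k, hk⟩ := fermat_BlkGx hz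
    rw [← map_one (cst (p := p)), ← map_sub, hk, map_mul]
    exact (G2 E).mono ((G2 E).mul1' (G2_p E) (G2_cst E _)) (E.le (by omega))
  have l := E.le_one 5
  exact (G2 E).one_add_mul l ((G2 E).one_add_mul l ((G2 E).one_add_mul l
    ((G2 E).one_add_mul l ((G2 E).one_add_mul l h4 (hA _)) (hA _)) (hA _)) (G2_J_BlkGx E hp _))
    (G2_J_BlkGx E hp _)

/-- The product of the ratios. -/
noncomputable def fU_BlkGx (F : Fm) (z hf : ℤ_[p]) : Fn p :=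
  fun m => ∏ l ∈ range m, fq_BlkGx F z hf l

theorem G2_U_BlkGx (E : Eps p) (hp : 5 ≤ p) (F : Fm) {z hf : ℤ_[p]} (hz : ‖z‖ = 1)
    (h2 : 2 * hf = 1) : (G2 E).N (fU_BlkGx F z hf) 1 := by
  have hq := G2_q_BlkGx E hp F hz h2
  have hq1 : (G2 E).N (fq_BlkGx F z hf) 1 := by
    have := (G2 E).add ((G2 E).mono hq (E.le_one _)) (G2 E).one
    rwa [sub_add_cancel] at this
  refine Gauge.lift_prodFun (fun m => ?_) hq fun m => prod_range_succ _ _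
  exact (Pool.Agent.MP_030fd4_nt.G1 E).prod _ _ fun l _ => Gauge.lift_pt hq1 l

/-- The inverse of a lower linear factor. -/
noncomputable def fv_BlkGx (c : ℤ) (i : ℕ) : Fn p :=
  fun m t => ((fZ_BlkGx c + cst (1 + (i : ℤ_[p])) : Fn p) m t)⁻¹

theorem fv_apply_BlkGx (c : ℤ) (i m : ℕ) (t : ℤ_[p]) :
    fv_BlkGx c i m t = (fZ_BlkGx c m t + (1 + i))⁻¹ := by
  simp [fv_BlkGx]

theorem G2_v_BlkGx (E : Eps p) (c : ℤ) {i : ℕ} (hi : i + 1 < p) :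
    (G2 E).N (fv_BlkGx c i) 1 :=
  G2_inv E ((G2 E).add (G2_Z1_BlkGx E c) (G2_cst E (1 + (i : ℤ_[p])))) fun m t => by
    simpa using norm_unit_BlkGx c m t hi

theorem cont_v_BlkGx (c : ℤ) {i : ℕ} (hi : i + 1 < p) (m : ℕ) :
    Continuous (fv_BlkGx (p := p) c i m) := by
  rw [show fv_BlkGx c i m = _ from funext fun t => fv_apply_BlkGx c i m t]
  refine ((cont_Z_BlkGx c m).add continuous_const).inv₀ fun t h => ?_
  have := norm_unit_BlkGx c m t hi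
  rw [show fZ_BlkGx c m t + (1 + i) = 0 from h] at this
  simp at this

/-- One factor of the term inside a block. -/
noncomputable def fw_BlkGx (F : Fm) (z hf : ℤ_[p]) (i : ℕ) : Fn p :=
  cst z * (fZ_BlkGx F.a1 + cst (hf + (i : ℤ_[p]))) * (fZ_BlkGx F.a2 + cst (hf + (i : ℤ_[p]))) *
    (fZ_BlkGx F.a3 + cst (hf + (i : ℤ_[p]))) * fv_BlkGx 0 i * fv_BlkGx F.b1 i * fv_BlkGx F.b2 i

theorem fw_apply_BlkGx (F : Fm) (z hf : ℤ_[p]) (i m : ℕ) (t : ℤ_[p]) :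
    fw_BlkGx F z hf i m t =
    z * (fZ_BlkGx F.a1 m t + (hf + i)) * (fZ_BlkGx F.a2 m t + (hf + i)) *
      (fZ_BlkGx F.a3 m t + (hf + i)) * (fZ_BlkGx 0 m t + (1 + i))⁻¹ *
      (fZ_BlkGx F.b1 m t + (1 + i))⁻¹ * (fZ_BlkGx F.b2 m t + (1 + i))⁻¹ := by
  simp only [fw_BlkGx, Pi.mul_apply, Pi.add_apply, cst_apply, fv_apply_BlkGx, PadicInt.coe_add,
    PadicInt.coe_natCast]

theorem G2_w_BlkGx (E : Eps p) (F : Fm) (z hf : ℤ_[p]) {i : ℕ} (hi : i + 1 < p) :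
    (G2 E).N (fw_BlkGx F z hf i) 1 := by
  have hA : ∀ c : ℤ, (G2 E).N (fZ_BlkGx c + cst (hf + (i : ℤ_[p]))) 1 := fun c =>
    (G2 E).add (G2_Z1_BlkGx E c) (G2_cst E _)
  exact (G2 E).mul1 ((G2 E).mul1 ((G2 E).mul1 ((G2 E).mul1 ((G2 E).mul1 ((G2 E).mul1
    (G2_cst E _) (hA _)) (hA _)) (hA _)) (G2_v_BlkGx E 0 hi)) (G2_v_BlkGx E _ hi))
    (G2_v_BlkGx E _ hi)

theorem cont_w_BlkGx (F : Fm) (z hf : ℤ_[p]) {i : ℕ} (hi : i + 1 < p) (m : ℕ) :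
    Continuous (fw_BlkGx F z hf i m) := by
  have hA : ∀ c : ℤ, Continuous ((fZ_BlkGx c + cst (hf + (i : ℤ_[p])) : Fn p) m) := fun c =>
    (cont_Z_BlkGx c m).add continuous_const
  have h4 : Continuous ((cst z : Fn p) m) := continuous_const
  exact (((((h4.mul (hA _)).mul (hA _)).mul (hA _)).mul (cont_v_BlkGx 0 hi m)).mul
    (cont_v_BlkGx _ hi m)).mul (cont_v_BlkGx _ hi m)

/-- The initial part of a block. -/
noncomputable def fV_BlkGx (F : Fm) (z hf : ℤ_[p]) (j : ℕ) : Fn p :=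
  ∏ i ∈ range j, fw_BlkGx F z hf i

theorem fV_apply_BlkGx (F : Fm) (z hf : ℤ_[p]) (j m : ℕ) (t : ℤ_[p]) :
    fV_BlkGx F z hf j m t = ∏ i ∈ range j, fw_BlkGx F z hf i m t := by
  simp [fV_BlkGx, Finset.prod_apply]

theorem G2_V_BlkGx (E : Eps p) (F : Fm) (z hf : ℤ_[p]) {j : ℕ} (hj : j < p) :
    (G2 E).N (fV_BlkGx F z hf j) 1 :=
  (G2 E).prod _ _ fun i hi => G2_w_BlkGx E F z hf (by have := mem_range.1 hi; omega)

theorem cont_V_BlkGx (F : Fm) (z hf : ℤ_[p]) {j : ℕ} (hj : j < p) (m : ℕ) :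
    Continuous (fV_BlkGx F z hf j m) := by
  rw [show fV_BlkGx F z hf j m = _ from funext fun t => fV_apply_BlkGx F z hf j m t]
  exact continuous_finsetProd _ fun i hi =>
    cont_w_BlkGx F z hf (by have := mem_range.1 hi; omega) m

theorem cont_U_BlkGx (F : Fm) (z hf : ℤ_[p]) (m : ℕ) : Continuous (fU_BlkGx F z hf m) := by
  have e : fU_BlkGx F z hf m = fun t => ∏ l ∈ range m, fq_BlkGx F z hf l t := by
    funext t; simp [fU_BlkGx, Finset.prod_apply]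
  rw [e]
  refine continuous_finsetProd _ fun l _ => ?_
  have hI : Continuous (fI (p := p) l) := by
    have : fI (p := p) l = fun _ => fI (p := p) l 0 := by
      funext t; simp [fI, fQ_apply, fX]
    rw [this]; exact continuous_const
  have hQ : ∀ (y : ℤ_[p]) (i0 : ℕ) (c : ℤ),
      Continuous ((fQ y i0 (fZ_BlkGx c) * fI : Fn p) l) := by
    intro y i0 c
    refine Continuous.mul ?_ hI
    rw [show fQ y i0 (fZ_BlkGx c) l = _ from funext fun t => fQ_apply y i0 (fZ_BlkGx c) l t]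
    exact continuous_finsetProd _ fun i _ => (cont_Z_BlkGx c l).add continuous_const
  have hJ : ∀ c : ℤ, Continuous (fJ_BlkGx (p := p) c l) := fun c => by
    refine (hQ 1 (p - 1) c).inv₀ fun t h => ?_
    have := norm_BI_BlkGx c l t
    rw [h] at this
    simp at this
  have h4 : Continuous ((cst (z ^ (p - 1)) : Fn p) l) := continuous_const
  exact ((((h4.mul (hQ _ _ _)).mul (hQ _ _ _)).mul (hQ _ _ _)).mul (hJ _)).mul (hJ _)

theorem inblock_BlkGx {F : Fm} {z hf : ℤ_[p]} (hz : (z : ℚ_[p]) = (F.z : ℚ_[p]))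
    (h2 : 2 * hf = 1) (m : ℕ) (t : ℤ_[p]) (j : ℕ) :
    fg F ((p : ℚ_[p]) * t) (p * m + j) =
      fg F ((p : ℚ_[p]) * t) (p * m) * fV_BlkGx F z hf j m t := by
  induction j with
  | zero => simp [fV_BlkGx]
  | succ j ih =>
    rw [← add_assoc, fg_succ, ih]
    simp only [fV_apply_BlkGx, prod_range_succ, fw_apply_BlkGx, fZ_apply_BlkGx, coe_half h2, upg,
      dng, hz]
    push_cast
    rw [div_eq_mul_inv ((F.z : ℚ_[p]) * _ * _ * _), mul_inv, mul_inv,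
      show (p : ℚ_[p]) * m + j + 1 + F.b1 * (p * t) = p * m + F.b1 * (p * t) + (1 + j) by ring,
      show (p : ℚ_[p]) * m + j + 1 + F.b2 * (p * t) = p * m + F.b2 * (p * t) + (1 + j) by ring,
      show (p : ℚ_[p]) * m + j + 1 = p * m + 0 * (p * t) + (1 + j) by ring]
    ring

theorem full_BlkGx (hp : 5 ≤ p) {F : Fm} {z hf : ℤ_[p]} (hz : (z : ℚ_[p]) = (F.z : ℚ_[p]))
    (h2 : 2 * hf = 1) (m : ℕ) (t : ℤ_[p]) :
    fV_BlkGx F z hf p m t =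
      upg F (t : ℚ_[p]) m / dng F (t : ℚ_[p]) ((m : ℚ_[p]) + 1) * fq_BlkGx F z hf m t := by
  have hh : (hf : ℚ_[p]) + ((p / 2 : ℕ) : ℚ_[p]) = p * (1 / 2) := by
    have := congrArg (fun z : ℤ_[p] => (z : ℚ_[p])) (half_add hp h2)
    simp only [PadicInt.coe_add, PadicInt.coe_mul, PadicInt.coe_natCast] at this
    rw [this, coe_half h2]
  have c4 : ((p - 1 : ℕ) : ℚ_[p]) = p - 1 := by rw [Nat.cast_sub (by omega)]; simp
  have eA : ∀ c : ℤ, ∏ i ∈ range p, (fZ_BlkGx c m t + ((hf : ℚ_[p]) + i)) =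
      p * (1 / 2 + c * t + m) * fQ hf (p / 2) (fZ_BlkGx c) m t := fun c => by
    rw [prod_split hf (i0 := p / 2) (by omega), hh, fZ_apply_BlkGx]; ring
  have eB : ∀ c : ℤ, ∏ i ∈ range p, (fZ_BlkGx c m t + (1 + (i : ℚ_[p]))) =
      p * (m + 1 + c * t) * fQ 1 (p - 1) (fZ_BlkGx c) m t := fun c => by
    have := prod_split (1 : ℤ_[p]) (i0 := p - 1) (by omega) (fZ_BlkGx c) m t
    rw [PadicInt.coe_one] at this
    rw [this, c4, fZ_apply_BlkGx]; ring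
  have z0 : fZ_BlkGx (p := p) 0 = fX := by simp [fZ_BlkGx]
  have hB : ∀ c : ℤ, fQ 1 (p - 1) (fZ_BlkGx c) m t ≠ 0 := fun c h => by
    simpa [h] using norm_B_BlkGx c m t
  have hq : fQ 1 (p - 1) fX m t ≠ 0 := fun h => by simpa [h] using norm_fQ4 m t
  have hp0 : (p : ℚ_[p]) ≠ 0 := by exact_mod_cast (by omega : p ≠ 0)
  have e4 : (F.z : ℚ_[p]) ^ p = F.z * (F.z : ℚ_[p]) ^ (p - 1) := by
    rw [← pow_succ', Nat.sub_add_cancel (by omega)]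
  simp only [fV_apply_BlkGx, fw_apply_BlkGx, prod_mul_distrib, prod_inv_distrib, prod_const,
    card_range, eA, eB]
  simp only [fq_BlkGx, fJ_BlkGx, fI, Pi.mul_apply, cst_apply, PadicInt.coe_pow, hz, z0, upg, dng,
    div_eq_mul_inv ((F.z : ℚ_[p]) * _ * _ * _ : ℚ_[p]), mul_inv, e4]
  have b2 := hB F.b1
  have b4 := hB F.b2
  rw [Int.cast_zero, zero_mul, add_zero]
  generalize ((m : ℚ_[p]) + 1 + F.b1 * t)⁻¹ = u2
  generalize ((m : ℚ_[p]) + 1 + F.b2 * t)⁻¹ = u4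
  generalize ((m : ℚ_[p]) + 1)⁻¹ = u0
  generalize fQ 1 (p - 1) (fZ_BlkGx F.b1) m t = y1 at b2 ⊢
  generalize fQ 1 (p - 1) (fZ_BlkGx F.b2) m t = y2 at b4 ⊢
  generalize fQ 1 (p - 1) fX m t = y0 at hq ⊢
  generalize fQ hf (p / 2) (fZ_BlkGx F.a1) m t = x1
  generalize fQ hf (p / 2) (fZ_BlkGx F.a2) m t = x2
  generalize fQ hf (p / 2) (fZ_BlkGx F.a3) m t = x3
  generalize (1 / 2 + F.a1 * t + m : ℚ_[p]) = l1
  generalize (1 / 2 + F.a2 * t + m : ℚ_[p]) = l2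
  generalize (1 / 2 + F.a3 * t + m : ℚ_[p]) = l3
  generalize (F.z : ℚ_[p]) ^ (p - 1) = w
  generalize (F.z : ℚ_[p]) = z'
  generalize (p : ℚ_[p]) = pp at hp0 ⊢
  field_simp

theorem block_BlkGx (hp : 5 ≤ p) {F : Fm} {z hf : ℤ_[p]} (hz : (z : ℚ_[p]) = (F.z : ℚ_[p]))
    (h2 : 2 * hf = 1) (t : ℤ_[p]) (m : ℕ) :
    fg F ((p : ℚ_[p]) * t) (p * m) = fg F (t : ℚ_[p]) m * fU_BlkGx F z hf m t := by
  induction m with
  | zero => simp [fg_zero, fU_BlkGx]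
  | succ m ih =>
    rw [mul_add, mul_one, inblock_BlkGx hz h2, ih, full_BlkGx hp hz h2, fg_succ]
    simp only [fU_BlkGx, prod_range_succ, Pi.mul_apply]
    ring

/-- The weight inside a block. -/
noncomputable def fE_BlkGx (v : Fin 6 → ℤ) (j : ℕ) : Fn p :=
  fun m t => wt v ((p : ℚ_[p]) * t) ((p * m + j : ℕ) : ℚ_[p])

theorem G2_E_BlkGx (E : Eps p) (v : Fin 6 → ℤ) (j : ℕ) : (G2 E).N (fE_BlkGx v j) 1 := by
  have hk : (G2 E).N (fX + cst (j : ℤ_[p])) 1 :=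
    (G2 E).add ((G2 E).mono (G2_X E) (E.le_one _)) (G2_cst E _)
  have hy : (G2 E).N (fY (p := p)) 1 := (G2 E).mono (G2_Y E) (E.le_one _)
  have h0 : fE_BlkGx (p := p) v j =
      cst (v 0 : ℤ_[p]) * ((fX + cst (j : ℤ_[p])) * (fX + cst (j : ℤ_[p]))) +
        cst (v 1 : ℤ_[p]) * ((fX + cst (j : ℤ_[p])) * fY) + cst (v 2 : ℤ_[p]) * (fY * fY) +
        cst (v 3 : ℤ_[p]) * (fX + cst (j : ℤ_[p])) + cst (v 4 : ℤ_[p]) * fY +
        cst (v 5 : ℤ_[p]) := by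
    funext m t
    simp only [fE_BlkGx, wt, Pi.add_apply, Pi.mul_apply, cst_apply, PadicInt.coe_natCast,
      PadicInt.coe_intCast, fX, fY]
    push_cast; ring
  rw [h0]
  exact (G2 E).add ((G2 E).add ((G2 E).add ((G2 E).add ((G2 E).add
    ((G2 E).mul1 (G2_cst E _) ((G2 E).mul1 hk hk)) ((G2 E).mul1 (G2_cst E _) ((G2 E).mul1 hk hy)))
    ((G2 E).mul1 (G2_cst E _) ((G2 E).mul1 hy hy))) ((G2 E).mul1 (G2_cst E _) hk))
    ((G2 E).mul1 (G2_cst E _) hy)) (G2_cst E _)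

theorem cont_E_BlkGx (v : Fin 6 → ℤ) (j m : ℕ) : Continuous (fE_BlkGx (p := p) v j m) := by
  have hY := cont_coe (p := p)
  unfold fE_BlkGx wt
  fun_prop

theorem blkG (hp : 5 ≤ p) : BlkG p := by
  intro F v hF
  obtain ⟨hf, h2⟩ := exists_half hp
  let z : ℤ_[p] := ⟨(F.z : ℚ_[p]), hF.le⟩
  have hz : (z : ℚ_[p]) = (F.z : ℚ_[p]) := rfl
  have hz1 : ‖z‖ = 1 := hF
  refine ⟨fU_BlkGx F z hf * ∑ j ∈ range p, fV_BlkGx F z hf j * fE_BlkGx v j, fun E => ?_,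
    fun m => ?_, fun t N => ?_⟩
  · exact (G2 E).mul1 (G2_U_BlkGx E hp F hz1 h2) ((G2 E).sum _ _ zero_le_one fun j hj =>
      (G2 E).mul1 (G2_V_BlkGx E F z hf (mem_range.1 hj)) (G2_E_BlkGx E v j))
  · have e : (fU_BlkGx F z hf * ∑ j ∈ range p, fV_BlkGx F z hf j * fE_BlkGx v j : Fn p) m =
        fun t => fU_BlkGx F z hf m t *
          ∑ j ∈ range p, fV_BlkGx F z hf j m t * fE_BlkGx v j m t := by
      funext t; simp [Finset.sum_apply]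
    rw [e]
    exact (cont_U_BlkGx F z hf m).mul (continuous_finsetSum _ fun j hj =>
      (cont_V_BlkGx F z hf (mem_range.1 hj) m).mul (cont_E_BlkGx v j m))
  · rw [Mg, sum_blocks]
    refine sum_congr rfl fun m _ => ?_
    simp only [Pi.mul_apply, Finset.sum_apply, mul_sum]
    refine sum_congr rfl fun j _ => ?_
    rw [inblock_BlkGx hz h2, block_BlkGx hp hz h2, fE_BlkGx]
    ring

end Pool.Agent.MP_54d89f_nt.Dx
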