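import Pool.Agent.MP_54d89f_nt.Dx.C8b

/-! The rows at t = 0 for z = 1/4. -/

namespace Pool.Agent.MP_54d89f_nt.Dx

open Finset Pool.Agent.MP_030fd4_nt Pool.Agent.MP_54d89f_nt.Dw

variable {p : ℕ} [Fact p.Prime]

def vb4 (c : ℕ) : Fin 6 → ℤ := if c = 1 then w0 else wB4

noncomputable def val4 (p : ℕ) [Fact p.Prime] (c m : ℕ) : ℚ_[p] :=
  if c = 1 then (-1) ^ m * a0 ℚ_[p] m else 4 * (-1) ^ m * a2 ℚ_[p] m

theorem shp4 : Shp FB4 2 := by simp [Shp, FB4]

theorem valI4 (hF : FamB4 ℚ_[p]) (c m N : ℕ) (hc : c = 1 ∨ c = 5) (hN : 3 * m + c / 2 < N) :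
    Mg FB4 w0 (-(c : ℚ_[p]) / 6 - m) N = (if c = 1 then val4 p c m else 0) ∧
    Mg FB4 wB1 (-(c : ℚ_[p]) / 6 - m) N = 0 ∧
    Mg FB4 wB4 (-(c : ℚ_[p]) / 6 - m) N = (if c = 1 then 0 else val4 p c m) := by
  rcases hc with rfl | rfl
  · simpa [val4] using hF.1 m N (by omega)
  · simpa [val4] using hF.2.1 m N (by omega)

theorem val4_rec (c m : ℕ) (hc : c = 1 ∨ c = 5) : val4 p c m ≠ 0 ∧
    (-(c : ℚ_[p]) / 6 - m) ^ 2 * val4 p c (m + 1) =
      3 / 64 * (6 * (-(c : ℚ_[p]) / 6 - m) - c) ^ 2 * val4 p c m := by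
  obtain ⟨h1, h2, h3, h4⟩ := recst ℚ_[p] m
  have s : ((-1 : ℚ_[p])) ^ m ≠ 0 := pow_ne_zero _ (by norm_num)
  rcases hc with rfl | rfl
  · simp only [val4, if_true, nn_zero, pow_succ (-1 : ℚ_[p]) m] at h3 ⊢
    exact ⟨mul_ne_zero s h1, by push_cast; linear_combination (-1 / 64) * (-1) ^ m * h3⟩
  · simp only [val4, show ¬ 5 = 1 by omega, if_false, nn_two, pow_succ (-1 : ℚ_[p]) m] at h4 ⊢
    exact ⟨mul_ne_zero (mul_ne_zero (by norm_num) s) h2,
      by push_cast; linear_combination (-1 / 16) * (-1) ^ m * h4⟩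

theorem tq_two (n : ℕ) : tq p 2 n = -1 / 2 - (n : ℚ_[p]) := by rw [tq]; push_cast; ring

theorem recIII4 (hF : FamB4 ℚ_[p]) (c n : ℕ) (hc : c = 1 ∨ c = 5) (hn : 1 ≤ n) :
    tq p 2 n ^ 2 * PP p FB4 2 (vb4 c) (n + 1) =
      3 / 64 * (6 * tq p 2 n - c) ^ 2 * PP p FB4 2 (vb4 c) n := by
  obtain ⟨h0, -, h2, -⟩ := hF.2.2 n hn
  simp only [PP, tq_two]
  rcases hc with rfl | rfl
  · simpa only [vb4, if_true, Nat.cast_one] using h0
  · simpa only [vb4, show ¬ 5 = 1 by omega, if_false, Nat.cast_ofNat] using h2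

theorem main4 (hp : 5 ≤ p) (hs : StrG p) (hb : BlkG p) (hm : MidG p) (hd : DenseG p)
    (hl : LinG p) (hA : Adm p FB4 wB1 wB4) (hF : FamB4 ℚ_[p])
    {c d μ : ℕ} (hc : c = 1 ∨ c = 5) (hd1 : d = 1 ∨ d = 5)
    (hμ : p * d = c + 6 * μ) {x : ℤ_[p]} (hx : 6 * x = 1) :
    ∃ s : ℤ_[p] → ℚ_[p], Continuous s ∧
      (∀ m : ℕ, s (-d * x - m) * val4 p d m = val4 p c (p * m + μ)) ∧
      Cg (fg FB4 (0 : ℚ_[p])) (Mg FB4 (vb4 c) 0) (Mg FB4 (vb4 d) 0) (s 0) := by
  obtain ⟨m2, m3⟩ := p_mod hp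
  obtain ⟨σ, hσ, h0, key⟩ := rowG hs hb hA (vb4 c)
  have ex : (x : ℚ_[p]) = 1 / 6 := by
    simpa using coe_of_mul (n := 6) (by omega) (by simpa using hx)
  have c3 : ((3 : ℤ_[p]) : ℚ_[p]) = 3 := by exact_mod_cast PadicInt.coe_natCast (p := p) 3
  have p1 : ¬ p ∣ 1 := not_dvd_of_lt (by omega) (by omega)
  have fam : ∀ d' c' μ' : ℕ, (d' = 1 ∨ d' = 5) → (c' = 1 ∨ c' = 5) →
      p * d' = c' + 6 * μ' → ∀ m : ℕ,
      (if d' = 1 then σ 0 else σ 2) (-d' * x - m) * val4 p d' m =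
        if c = c' then val4 p c' (p * m + μ') else 0 := by
    intro d' c' μ' h1 h2 h3 m
    have h3q : (p : ℚ_[p]) * d' = c' + 6 * μ' := by exact_mod_cast h3
    have hG := good_I (p := p) shp4 d' m (3 * m + d' / 2 + 1) (by omega)
    have k := key (-d' * x - m) (-(d' : ℚ_[p]) / 6 - m) (3 * m + d' / 2)
      (by simp [ex]; ring) hG (by
        have : 1 / 2 + (FB4.a3 : ℚ_[p]) * (-(d' : ℚ_[p]) / 6 - m) +
            ((3 * m + d' / 2 : ℕ) : ℚ_[p]) = 0 := by
          rw [shp4.2.1]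
          rcases h1 with rfl | rfl <;> push_cast <;> ring
        rw [upg, this, mul_zero])
    have e1 : (p : ℚ_[p]) * (-(d' : ℚ_[p]) / 6 - m) =
        -(c' : ℚ_[p]) / 6 - ((p * m + μ' : ℕ) : ℚ_[p]) := by
      push_cast; linear_combination (-1 / 6) * h3q
    have e2 : p * (3 * m + d' / 2 + 1) = 3 * (p * m) + p * (d' / 2 + 1) := by ring
    obtain ⟨i0, -, i2⟩ := valI4 hF c' (p * m + μ') (p * (3 * m + d' / 2 + 1)) h2
      (by rw [e2]; rcases h1 with rfl | rfl <;> omega)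
    have e3 : Mg FB4 (vb4 c) (-(c' : ℚ_[p]) / 6 - ((p * m + μ' : ℕ) : ℚ_[p]))
        (p * (3 * m + d' / 2 + 1)) = if c = c' then val4 p c' (p * m + μ') else 0 := by
      rcases hc with rfl | rfl
      · rw [show vb4 1 = w0 from rfl, i0]; rcases h2 with rfl | rfl <;> simp
      · rw [show vb4 5 = wB4 from rfl, i2]; rcases h2 with rfl | rfl <;> simp
    obtain ⟨j0, j1, j2⟩ := valI4 hF d' m (3 * m + d' / 2 + 1) h1 (by omega)
    rw [← e3, ← e1, k, j0, j1, j2]
    rcases h1 with rfl | rfl <;> simp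
  obtain ⟨d2, hd2, hdd⟩ : ∃ d2, (d2 = 1 ∨ d2 = 5) ∧ d + d2 = 6 := ⟨6 - d, by omega, by omega⟩
  have z : ∀ t, (if d2 = 1 then σ 0 else σ 2) t = 0 := by
    refine hd 1 _ (fun _ => 0) (-d2 * x) p1 (by split_ifs <;> exact hσ _) continuous_const
      fun m => ?_
    have h := fam d2 (p * d2 % 6) (p * d2 / 6) hd2
      (by rcases hd2 with rfl | rfl <;> omega) (by omega) m
    rw [if_neg (c := (c = p * d2 % 6)) (by
      rcases hd2 with rfl | rfl
      · obtain rfl : d = 5 := by omega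
        omega
      · obtain rfl : d = 1 := by omega
        omega)] at h
    simpa using (mul_eq_zero.1 h).resolve_right (val4_rec d2 m hd2).1
  have g := fam d c μ hd1 hc hμ
  simp only [if_true] at g
  have hsc : Continuous (if d = 1 then σ 0 else σ 2) := by split_ifs <;> exact hσ _
  obtain ⟨w, hw⟩ := exists_inv_nat (p := p) (n := 2) (not_dvd_of_lt (by omega) (by omega))
  have ew := coe_of_mul (by omega) hw
  have ho : (2 * ((p / 2 : ℕ) : ℚ_[p]) + 1) = p := by exact_mod_cast p_odd hp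
  have t1 : ∀ m : ℕ, ((-3 * w : ℤ_[p]) : ℚ_[p]) - ((1 : ℕ) : ℚ_[p]) * m = tq p 2 (1 + m) := by
    intro m
    simp only [tq_two, PadicInt.coe_mul, PadicInt.coe_neg, c3, ew]
    push_cast; ring
  have t2 : ∀ r : ℕ, (p : ℚ_[p]) * ((-3 * w : ℤ_[p]) : ℚ_[p]) - ((1 : ℕ) : ℚ_[p]) * r =
      tq p 2 (p + p / 2 + r) := by
    intro r
    simp only [tq_two, PadicInt.coe_mul, PadicInt.coe_neg, c3, ew]
    rw [Nat.cast_add, Nat.cast_add]
    push_cast; linear_combination (1 / 2) * ho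
  have t0 : ((d * x : ℤ_[p]) : ℚ_[p]) = d / 6 := by simp [ex]; ring
  obtain ⟨W, hW, eW⟩ := hl 1 c d μ (by rcases hd1 with rfl | rfl <;> omega) (by omega)
  have hμq : (p : ℚ_[p]) * d = c + 6 * μ := by exact_mod_cast hμ
  have x0 : ((-d * x : ℤ_[p]) : ℚ_[p]) = -(d : ℚ_[p]) / 6 := by simp [ex]; ring
  have z1 := hm 1 μ (3 / 64) (-(c : ℚ_[p]) / 6) (fun t => 6 * t - c) (fun t => 6 * t - d)
    (fun t => 6 * t - d2) (fun t => t ^ 2) W
    (if d = 1 then σ 0 else σ 2) (σ 1) (-d * x) (-3 * w) (d * x) (val4 p c) (val4 p d)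
    (fun r => PP p FB4 2 (vb4 c) (p + p / 2 + r))
    (fun m => PP p FB4 2 (vb4 d) (1 + m)) (fun m => PP p FB4 2 wB1 (1 + m)) p1
    (by norm_num) (by fun_prop) (by fun_prop) (by fun_prop) (by fun_prop) hW hsc (hσ 1) eW
    (by rw [x0]; push_cast; linear_combination (-1 / 6) * hμq)
    (fun r => by simpa only [Nat.cast_one, one_mul] using (val4_rec c r hc).2)
    (fun m => by rw [x0]; simpa only [Nat.cast_one, one_mul] using val4_rec d m hd1)
    (fun m => by simpa only [Nat.cast_one, one_mul] using g m)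
    (fun r => by
      simp only [t2]
      exact recIII4 hF c _ hc (by omega))
    (fun m => by
      simp only [t1]
      exact recIII4 hF d _ hd1 (by omega))
    (fun m => by
      obtain ⟨-, j1, -, j3⟩ := hF.2.2 (1 + m) (by omega)
      simp only [t1, ← tq_two] at j1 j3 ⊢
      refine ⟨j3, lin_ne (Or.inl rfl) _ _, j1.trans ?_⟩
      rcases hd1 with rfl | rfl
      · obtain rfl : d2 = 5 := by omega
        simp [PP]
      · obtain rfl : d2 = 1 := by omega
        simp [PP, mul_comm])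
    (fun m => by
      obtain ⟨j1, j2⟩ := good_III (p := p) shp4 (1 + m) (by omega)
      have k := key (-3 * w - ((1 : ℕ) : ℤ_[p]) * m) _ _ (by
        rw [← t1, PadicInt.coe_sub, PadicInt.coe_mul ((1 : ℕ) : ℤ_[p]), PadicInt.coe_natCast,
          PadicInt.coe_natCast]) j1 j2
      have e1 : (p : ℚ_[p]) * tq p 2 (1 + m) = tq p 2 (p + p / 2 + p * m) := by
        rw [← t1, ← t2]; push_cast; ring
      have e2 : p * (1 + m + 1) = p * m + 2 * p := by ring
      rw [e1, Mg_stable _ (good_III (p := p) shp4 _ (by omega)).2 (by omega)] at k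
      have z' := z (-3 * w - ((1 : ℕ) : ℤ_[p]) * m)
      simp only [PP]
      rw [k]
      rcases hd1 with rfl | rfl
      · obtain rfl : d2 = 5 := by omega
        simp only [show ¬ 5 = 1 by omega, if_false] at z'
        simp only [vb4, if_true, z']; ring
      · obtain rfl : d2 = 1 := by omega
        simp only [if_true] at z'
        simp only [vb4, show ¬ 5 = 1 by omega, if_false, z']; ring)
    (by simp only [t0]; ring)
    (fun m => by
      simp only [t0]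
      exact int_ne ((d : ℤ) - 6 * m - d2) (by omega) (by push_cast; ring))
    (fun m l => by
      simp only [t0]
      have o : (p * d) % 2 = 1 := by rcases hd1 with rfl | rfl <;> omega
      refine pow_ne_zero _ fun h => ?_
      exact int_ne (((p * d : ℕ) : ℤ) - 6 * ((p * m : ℕ) : ℤ) - 6 * l) (by omega)
        (y := 0) (by push_cast at h ⊢; linear_combination -6 * h) rfl)
  refine ⟨_, hsc, g, fun N => ?_⟩
  obtain ⟨R, hR⟩ := h0 N
  refine ⟨R, ?_⟩
  have z' := z 0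
  rw [hR, z1]
  rcases hd1 with rfl | rfl
  · obtain rfl : d2 = 5 := by omega
    simp only [show ¬ 5 = 1 by omega, if_false] at z'
    simp only [vb4, if_true, z']; ring
  · obtain rfl : d2 = 1 := by omega
    simp only [if_true] at z'
    simp only [vb4, show ¬ 5 = 1 by omega, if_false, z']; ring

end Pool.Agent.MP_54d89f_nt.Dx
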