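import Pool.Agent.MP_54d89f_nt.Dx.Row

/-! Preparations for the families with step two (z = -8 and z = -1/8). -/

namespace Pool.Agent.MP_54d89f_nt.Dx

open Finset Pool.Agent.MP_030fd4_nt Pool.Agent.MP_54d89f_nt.Dw

variable {p : ℕ} [Fact p.Prime]

def gb {K : Type*} [Field K] (c : ℕ) (t : K) : K := if c < 6 then gu t else gv t

def vb (v2 : Fin 6 → ℤ) (c : ℕ) : Fin 6 → ℤ := if c < 6 then w0 else v2

noncomputable def val (ρ θ : ℚ_[p]) (c m : ℕ) : ℚ_[p] :=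
  (if c < 6 then 1 else θ) * ρ ^ (6 * m + c / 2) * bb ℚ_[p] c m

noncomputable def tq (p : ℕ) [Fact p.Prime] (q n : ℕ) : ℚ_[p] := -(2 * (n : ℚ_[p]) + 1) / q

noncomputable def PP (p : ℕ) [Fact p.Prime] (F : Fm) (q : ℕ) (v : Fin 6 → ℤ) (n : ℕ) : ℚ_[p] :=
  Mg F v (tq p q n) (n + 1)

/-- The shape of the slopes. -/
def Shp (F : Fm) (q : ℕ) : Prop :=
  (q = 2 ∨ q = 4) ∧ F.a3 = 3 ∧ 2 * F.a2 = q ∧ 2 * F.b1 = q ∧ F.b2 = q

theorem gb_cont (c : ℕ) : Continuous (gb (K := ℚ_[p]) c) := by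
  unfold gb gu gv
  split_ifs <;> fun_prop

theorem p_mod (hp : 5 ≤ p) : p % 2 = 1 ∧ p % 3 ≠ 0 := by
  have h := (Fact.out : p.Prime)
  refine ⟨h.eq_two_or_odd.resolve_left (by omega), fun h3 => ?_⟩
  have := (Nat.prime_dvd_prime_iff_eq Nat.prime_three h).1 (Nat.dvd_of_mod_eq_zero h3)
  omega

theorem valI {F : Fm} {v1 v2 : Fin 6 → ℤ} {ρ θ : ℚ_[p]} (hI : FamI ℚ_[p] F v1 v2 ρ θ)
    (c' c m N : ℕ) (hc : c = 1 ∨ c = 5 ∨ c = 7 ∨ c = 11) (hN : 6 * m + c / 2 < N) :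
    Mg F (vb v2 c') (-(c : ℚ_[p]) / 6 - 2 * m) N =
      if (c' < 6 ↔ c < 6) then val ρ θ c m else 0 := by
  obtain ⟨h0, -, h2⟩ := hI c m N hc hN
  by_cases a : c' < 6 <;> by_cases b : c < 6 <;> simp [vb, val, a, b, h0, h2]

theorem val_rec (hr : RecB ℚ_[p]) {ρ θ : ℚ_[p]} (hρ : ρ ≠ 0) (hθ : θ ≠ 0) (c m : ℕ)
    (hc : c = 1 ∨ c = 5 ∨ c = 7 ∨ c = 11) : val ρ θ c m ≠ 0 ∧
    dd (-(c : ℚ_[p]) / 6 - 2 * m) * val ρ θ c (m + 1) =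
      9 / 256 * ρ ^ 6 * gb c (-(c : ℚ_[p]) / 6 - 2 * m) ^ 2 * val ρ θ c m := by
  obtain ⟨h1, h2⟩ := hr c m hc
  refine ⟨mul_ne_zero (mul_ne_zero ?_ (pow_ne_zero _ hρ)) h1, ?_⟩
  · split_ifs
    · exact one_ne_zero
    · exact hθ
  · simp only [val, gb]
    rw [show 6 * (m + 1) + c / 2 = 6 * m + c / 2 + 6 by ring, pow_add _ _ 6]
    linear_combination (if c < 6 then 1 else θ) * ρ ^ (6 * m + c / 2) * ρ ^ 6 * h2

theorem ne_six (b : ℤ) (hb : b = 1 ∨ b = 2 ∨ b = 4) (d m k : ℕ) (hd : d % 3 ≠ 0) :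
    (1 : ℚ_[p]) + b * (-(d : ℚ_[p]) / 6 - m) + k ≠ 0 := by
  intro h
  have h1 : ((6 - b * d - 6 * b * m + 6 * k : ℤ) : ℚ_[p]) = 0 := by
    push_cast; linear_combination 6 * h
  have h2 := Int.cast_eq_zero.1 h1
  rcases hb with rfl | rfl | rfl <;> omega

theorem good_I {F : Fm} {q : ℕ} (hS : Shp F q) (d m N : ℕ) (hd : d % 3 ≠ 0) :
    GoodG F (-(d : ℚ_[p]) / 6 - m) N := by
  obtain ⟨hq, -, -, h1, h2⟩ := hS
  exact fun k _ => ⟨ne_six _ (by omega) d m k hd, ne_six _ (by omega) d m k hd⟩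

theorem good_III {F : Fm} {q : ℕ} (hS : Shp F q) (n : ℕ) (hn : 1 ≤ n) :
    GoodG F (tq p q n) (n + 1) ∧ upg F (tq p q n) n = 0 := by
  obtain ⟨hq, -, h0, h1, h2⟩ := hS
  have hq0 : (q : ℚ_[p]) ≠ 0 := by rcases hq with rfl | rfl <;> norm_num
  have e0 : 2 * (F.a2 : ℚ_[p]) = q := by exact_mod_cast congrArg (Int.cast (R := ℚ_[p])) h0
  have e1 : 2 * (F.b1 : ℚ_[p]) = q := by exact_mod_cast congrArg (Int.cast (R := ℚ_[p])) h1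
  have e2 : (F.b2 : ℚ_[p]) = q := by exact_mod_cast congrArg (Int.cast (R := ℚ_[p])) h2
  have e : (q : ℚ_[p]) * tq p q n = -(2 * (n : ℚ_[p]) + 1) := by rw [tq]; field_simp
  refine ⟨fun k hk => ⟨fun h => ?_, fun h => ?_⟩, ?_⟩
  · have h3 : ((1 - 2 * n + 2 * k : ℤ) : ℚ_[p]) = 0 := by
      push_cast; linear_combination 2 * h - tq p q n * e1 - e
    have := Int.cast_eq_zero.1 h3
    omega
  · have h3 : ((k - 2 * n : ℤ) : ℚ_[p]) = 0 := by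
      push_cast; linear_combination h - tq p q n * e2 - e
    have := Int.cast_eq_zero.1 h3
    omega
  · have h3 : 1 / 2 + (F.a2 : ℚ_[p]) * tq p q n + n = 0 := by
      linear_combination (1 / 2) * tq p q n * e0 + (1 / 2) * e
    rw [upg, h3]; ring

theorem lin_ne {q : ℕ} (hq : q = 2 ∨ q = 4) (n c : ℕ) : 6 * tq p q n - c ≠ 0 := by
  intro h
  have hq0 : (q : ℚ_[p]) ≠ 0 := by rcases hq with rfl | rfl <;> norm_num
  have e : (q : ℚ_[p]) * tq p q n = -(2 * (n : ℚ_[p]) + 1) := by rw [tq]; field_simp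
  have h3 : ((6 * (2 * n + 1) + q * c : ℕ) : ℚ_[p]) = 0 := by
    push_cast; linear_combination 6 * e - q * h
  have := Nat.cast_eq_zero.1 h3
  omega

theorem gb_tq_ne {q : ℕ} (hq : q = 2 ∨ q = 4) (n c : ℕ) : gb c (tq p q n) ≠ 0 := by
  have h := fun c => lin_ne (p := p) hq n c
  have h1 := h 1
  have h5 := h 5
  have h7 := h 7
  have h11 := h 11
  push_cast at h1 h5 h7 h11
  unfold gb gu gv
  split_ifs
  · exact mul_ne_zero h1 h5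
  · exact mul_ne_zero h7 h11

theorem recIII {F : Fm} {v1 v2 : Fin 6 → ℤ} {q : ℕ} {κ : ℚ_[p]} (h : FamIII ℚ_[p] F v1 v2 q κ)
    (c n : ℕ) (hn : 2 ≤ n) : dd (tq p q n) * PP p F q (vb v2 c) (n + q) =
      κ * gb c (tq p q n) ^ 2 * PP p F q (vb v2 c) n := by
  obtain ⟨h0, -, h2, -⟩ := h n hn
  unfold vb gb
  split_ifs
  · exact h0
  · exact h2

theorem exW (hl : LinG p) (hp : 5 ≤ p) {c d μ : ℕ} (hc : c = 1 ∨ c = 5 ∨ c = 7 ∨ c = 11)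
    (hd : d = 1 ∨ d = 7) (hμ : p * d = c + 12 * μ) : ∃ W : ℤ_[p] → ℚ_[p], Continuous W ∧
      ∀ t : ℤ_[p], ∏ l ∈ range p, gb c ((p : ℚ_[p]) * t - ((2 : ℕ) : ℚ_[p]) * l) =
        gb d (t : ℚ_[p]) * W t := by
  obtain ⟨m2, m3⟩ := p_mod hp
  obtain ⟨c2, μ2, h2, hc2, hμ2⟩ : ∃ c2 μ2, p * (d + 4) = c2 + 12 * μ2 ∧ c2 < 12 ∧ μ2 < p :=
    ⟨p * (d + 4) % 12, p * (d + 4) / 12, by omega, by omega, by
      rcases hd with rfl | rfl <;> omega⟩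
  obtain ⟨W1, hW1, e1⟩ := hl 2 c d μ (by rcases hd with rfl | rfl <;> omega) (by omega)
  obtain ⟨W2, hW2, e2⟩ := hl 2 c2 (d + 4) μ2 hμ2 (by omega)
  have hcc : (c = 1 ∧ c2 = 5) ∨ (c = 5 ∧ c2 = 1) ∨ (c = 7 ∧ c2 = 11) ∨ (c = 11 ∧ c2 = 7) := by
    rcases hd with rfl | rfl <;> omega
  have g1 : ∀ y : ℚ_[p], gb c y = (6 * y - c) * (6 * y - c2) := by
    intro y
    rcases hcc with ⟨rfl, rfl⟩ | ⟨rfl, rfl⟩ | ⟨rfl, rfl⟩ | ⟨rfl, rfl⟩ <;>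
      simp [gb, gu, gv, mul_comm]
  have g2 : ∀ y : ℚ_[p], gb d y = (6 * y - d) * (6 * y - (d + 4 : ℕ)) := by
    intro y
    rcases hd with rfl | rfl <;> simp [gb, gu, gv]
  refine ⟨fun t => W1 t * W2 t, hW1.mul hW2, fun t => ?_⟩
  simp only [g1, g2, prod_mul_distrib, e1, e2]
  ring

end Pool.Agent.MP_54d89f_nt.Dx
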