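import Pool.Agent.MP_54d89f_nt.Dx.C8a

/-! The rows at t = 0 for the families with step two. -/

namespace Pool.Agent.MP_54d89f_nt.Dx

open Finset Pool.Agent.MP_030fd4_nt Pool.Agent.MP_54d89f_nt.Dw

variable {p : ℕ} [Fact p.Prime]

theorem int_ne {y : ℚ_[p]} (a : ℤ) (ha : a ≠ 0) (h : y = a) : y ≠ 0 := by
  rw [h]; exact_mod_cast ha

theorem main8 (hp : 5 ≤ p) (hs : StrG p) (hb : BlkG p) (hm : MidG p) (hd : DenseG p)
    (hl : LinG p) (hr : RecB ℚ_[p]) {F : Fm} {v1 v2 : Fin 6 → ℤ} {q : ℕ} {ρ θ : ℚ_[p]}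
    (hA : Adm p F v1 v2) (hS : Shp F q) (hρ : ρ ≠ 0) (hθ : θ ≠ 0)
    (hI : FamI ℚ_[p] F v1 v2 ρ θ) (hIII : FamIII ℚ_[p] F v1 v2 q (9 / 256 * ρ ^ 6))
    {c d μ : ℕ} (hc : c = 1 ∨ c = 5 ∨ c = 7 ∨ c = 11) (hd1 : d = 1 ∨ d = 7)
    (hμ : p * d = c + 12 * μ) {x : ℤ_[p]} (hx : 12 * x = 1) :
    ∃ s : ℤ_[p] → ℚ_[p], Continuous s ∧
      (∀ m : ℕ, s (-2 * d * x - 2 * m) * val ρ θ d m = val ρ θ c (p * m + μ)) ∧
      Cg (fg F (0 : ℚ_[p])) (Mg F (vb v2 c) 0) (Mg F (vb v2 d) 0) (s 0) := by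
  obtain ⟨m2, m3⟩ := p_mod hp
  have hq := hS.1
  obtain ⟨σ, hσ, h0, key⟩ := rowG hs hb hA (vb v2 c)
  have ex : (x : ℚ_[p]) = 1 / 12 := by
    simpa using coe_of_mul (n := 12) (by omega) (by simpa using hx)
  have c2 : ((2 : ℤ_[p]) : ℚ_[p]) = 2 := by exact_mod_cast PadicInt.coe_natCast (p := p) 2
  have c5 : ((5 : ℤ_[p]) : ℚ_[p]) = 5 := by exact_mod_cast PadicInt.coe_natCast (p := p) 5
  have p2 : ¬ p ∣ 2 := not_dvd_of_lt (by omega) (by omega)
  have fam : ∀ d' c' μ' : ℕ, (d' = 1 ∨ d' = 7) → (c' = 1 ∨ c' = 5 ∨ c' = 7 ∨ c' = 11) →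
      p * d' = c' + 12 * μ' → ∀ m : ℕ,
      (if d' < 6 then σ 0 else σ 2) (-2 * d' * x - 2 * m) * val ρ θ d' m =
        if (c < 6 ↔ c' < 6) then val ρ θ c' (p * m + μ') else 0 := by
    intro d' c' μ' h1 h2 h3 m
    have h3q : (p : ℚ_[p]) * d' = c' + 12 * μ' := by exact_mod_cast h3
    have hG := good_I (p := p) hS d' (2 * m) (6 * m + d' / 2 + 1) (by omega)
    push_cast at hG
    have k := key (-2 * d' * x - 2 * m) (-(d' : ℚ_[p]) / 6 - 2 * m) (6 * m + d' / 2)
      (by simp [ex, c2]; ring) hG (by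
        have : 1 / 2 + (F.a3 : ℚ_[p]) * (-(d' : ℚ_[p]) / 6 - 2 * m) +
            ((6 * m + d' / 2 : ℕ) : ℚ_[p]) = 0 := by
          rw [hS.2.1]
          rcases h1 with rfl | rfl <;> push_cast <;> ring
        rw [upg, this, mul_zero])
    have e1 : (p : ℚ_[p]) * (-(d' : ℚ_[p]) / 6 - 2 * m) =
        -(c' : ℚ_[p]) / 6 - 2 * ((p * m + μ' : ℕ) : ℚ_[p]) := by
      push_cast; linear_combination (-1 / 6) * h3q
    have e2 : p * (6 * m + d' / 2 + 1) = 6 * (p * m) + p * (d' / 2 + 1) := by ring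
    rw [e1, valI hI c c' _ _ h2 (by rw [e2]; rcases h1 with rfl | rfl <;> omega)] at k
    obtain ⟨j0, j1, j2⟩ := hI d' m (6 * m + d' / 2 + 1) (by omega) (by omega)
    rw [k, j0, j1, j2]
    rcases h1 with rfl | rfl <;> simp [val] <;> ring
  obtain ⟨d2, hd2, hdd⟩ : ∃ d2, (d2 = 1 ∨ d2 = 7) ∧ d + d2 = 8 := ⟨8 - d, by omega, by omega⟩
  have z : ∀ t, (if d2 < 6 then σ 0 else σ 2) t = 0 := by
    refine hd 2 _ (fun _ => 0) (-2 * d2 * x) p2 (by split_ifs <;> exact hσ _) continuous_const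
      fun m => ?_
    have h := fam d2 (p * d2 % 12) (p * d2 / 12) hd2
      (by rcases hd2 with rfl | rfl <;> omega) (by omega) m
    rw [if_neg (c := (c < 6 ↔ p * d2 % 12 < 6)) (by
      rcases hd2 with rfl | rfl
      · obtain rfl : d = 7 := by omega
        omega
      · obtain rfl : d = 1 := by omega
        omega)] at h
    simpa using (mul_eq_zero.1 h).resolve_right (val_rec hr hρ hθ d2 m (by omega)).1
  have g := fam d c μ hd1 hc hμ
  simp only [iff_self, if_true] at g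
  have hsc : Continuous (if d < 6 then σ 0 else σ 2) := by split_ifs <;> exact hσ _
  have hq0 : (q : ℚ_[p]) ≠ 0 := by rcases hq with rfl | rfl <;> norm_num
  obtain ⟨w, hw⟩ := exists_inv_nat (p := p) (n := q) (not_dvd_of_lt (by omega) (by omega))
  have ew := coe_of_mul (by omega) hw
  have ho : (2 * ((p / 2 : ℕ) : ℚ_[p]) + 1) = p := by exact_mod_cast p_odd hp
  have t1 : ∀ m : ℕ, ((-5 * w : ℤ_[p]) : ℚ_[p]) - ((2 : ℕ) : ℚ_[p]) * m = tq p q (2 + q * m) := by
    intro m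
    simp only [tq, PadicInt.coe_mul, PadicInt.coe_neg, c5, ew]
    push_cast; field_simp; ring
  have t2 : ∀ r : ℕ, (p : ℚ_[p]) * ((-5 * w : ℤ_[p]) : ℚ_[p]) - ((2 : ℕ) : ℚ_[p]) * r =
      tq p q (2 * p + p / 2 + q * r) := by
    intro r
    simp only [tq, PadicInt.coe_mul, PadicInt.coe_neg, c5, ew]
    rw [Nat.cast_add, Nat.cast_add]
    push_cast; field_simp; linear_combination ho
  have t0 : ((2 * d * x : ℤ_[p]) : ℚ_[p]) = d / 6 := by simp [ex, c2]; ring
  obtain ⟨W, hW, eW⟩ := exW hl hp hc hd1 hμ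
  have hμq : (p : ℚ_[p]) * d = c + 12 * μ := by exact_mod_cast hμ
  have x0 : ((-2 * d * x : ℤ_[p]) : ℚ_[p]) = -(d : ℚ_[p]) / 6 := by simp [ex, c2]; ring
  have z1 := hm 2 μ (9 / 256 * ρ ^ 6) (-(c : ℚ_[p]) / 6) (gb c) (gb d) (gb d2) dd W
    (if d < 6 then σ 0 else σ 2) (σ 1) (-2 * d * x) (-5 * w) (2 * d * x) (val ρ θ c) (val ρ θ d)
    (fun r => PP p F q (vb v2 c) (2 * p + p / 2 + q * r))
    (fun m => PP p F q (vb v2 d) (2 + q * m)) (fun m => PP p F q v1 (2 + q * m)) p2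
    (mul_ne_zero (by norm_num) (pow_ne_zero _ hρ)) (gb_cont _) (gb_cont _) (gb_cont _)
    (by unfold dd; fun_prop) hW hsc (hσ 1) eW
    (by rw [x0]; push_cast; linear_combination (-1 / 6) * hμq)
    (fun r => by simpa using (val_rec hr hρ hθ c r hc).2)
    (fun m => by rw [x0]; simpa using val_rec hr hρ hθ d m (by omega))
    (fun m => by simpa using g m)
    (fun r => by
      rw [t2, show 2 * p + p / 2 + q * (r + 1) = 2 * p + p / 2 + q * r + q by ring]
      exact recIII hIII c _ (by omega))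
    (fun m => by
      rw [t1, show 2 + q * (m + 1) = 2 + q * m + q by ring]
      exact recIII hIII d _ (by omega))
    (fun m => by
      obtain ⟨-, j1, -, j3⟩ := hIII (2 + q * m) (by omega)
      rw [t1, show 2 + q * (m + 1) = 2 + q * m + q by ring]
      refine ⟨j3, gb_tq_ne hq _ _, j1.trans ?_⟩
      rcases hd1 with rfl | rfl
      · obtain rfl : d2 = 7 := by omega
        simp [gb, tq, PP]
      · obtain rfl : d2 = 1 := by omega
        simp [gb, tq, PP, mul_comm])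
    (fun m => by
      obtain ⟨j1, j2⟩ := good_III (p := p) hS (2 + q * m) (by omega)
      have k := key (-5 * w - ((2 : ℕ) : ℤ_[p]) * m) _ _ (by
        rw [← t1, PadicInt.coe_sub, PadicInt.coe_mul ((2 : ℕ) : ℤ_[p]), PadicInt.coe_natCast,
          PadicInt.coe_natCast]) j1 j2
      have e1 : (p : ℚ_[p]) * tq p q (2 + q * m) = tq p q (2 * p + p / 2 + q * (p * m)) := by
        rw [← t1, ← t2]; push_cast; ring
      have e2 : p * (2 + q * m + 1) = q * (p * m) + 3 * p := by ring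
      rw [e1, Mg_stable _ (good_III (p := p) hS _ (by omega)).2 (by omega)] at k
      have z' := z (-5 * w - ((2 : ℕ) : ℤ_[p]) * m)
      simp only [PP]
      rw [k]
      rcases hd1 with rfl | rfl
      · obtain rfl : d2 = 7 := by omega
        simp only [show ¬ 7 < 6 by omega, if_false] at z'
        simp only [vb, show 1 < 6 by omega, if_true, z']; ring
      · obtain rfl : d2 = 1 := by omega
        simp only [show 1 < 6 by omega, if_true] at z'
        simp only [vb, show ¬ 7 < 6 by omega, if_false, z']; ring)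
    (by rw [t0]; rcases hd1 with rfl | rfl <;> simp [gb, gu, gv] <;> norm_num)
    (fun m => by
      rw [t0]
      rcases hd1 with rfl | rfl
      · obtain rfl : d2 = 7 := by omega
        exact int_ne ((-6 - 12 * m) * (-10 - 12 * m)) (mul_ne_zero (by omega) (by omega))
          (by simp only [gb, gv, show ¬ 7 < 6 by omega, if_false]; push_cast; ring)
      · obtain rfl : d2 = 1 := by omega
        exact int_ne ((6 - 12 * m) * (2 - 12 * m)) (mul_ne_zero (by omega) (by omega))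
          (by simp only [gb, gu, show 1 < 6 by omega, if_true]; push_cast; ring))
    (fun m l => by
      rw [t0, dd]
      have o : (p * d) % 2 = 1 := by rcases hd1 with rfl | rfl <;> omega
      refine mul_ne_zero (pow_ne_zero _ fun h => ?_) (pow_ne_zero _ fun h => ?_)
      · exact int_ne (((p * d : ℕ) : ℤ) - 12 * ((p * m : ℕ) : ℤ) - 12 * l) (by omega)
          (y := 0) (by push_cast at h ⊢; linear_combination -6 * h) rfl
      · exact int_ne (((p * d : ℕ) : ℤ) - 12 * ((p * m : ℕ) : ℤ) - 12 * l - 6) (by omega)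
          (y := 0) (by push_cast at h ⊢; linear_combination -6 * h) rfl)
  refine ⟨_, hsc, g, fun N => ?_⟩
  obtain ⟨R, hR⟩ := h0 N
  refine ⟨R, ?_⟩
  have z' := z 0
  rw [hR, z1]
  rcases hd1 with rfl | rfl
  · obtain rfl : d2 = 7 := by omega
    simp only [show ¬ 7 < 6 by omega, if_false] at z'
    simp only [vb, show 1 < 6 by omega, if_true, z']; ring
  · obtain rfl : d2 = 1 := by omega
    simp only [show 1 < 6 by omega, if_true] at z'
    simp only [vb, show ¬ 7 < 6 by omega, if_false, z']; ring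

end Pool.Agent.MP_54d89f_nt.Dx
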