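import Pool.Agent.MP_54d89f_nt.Dx.St

namespace Pool.Agent.MP_54d89f_nt.Dx

open Finset Pool.Agent.MP_030fd4_nt Pool.Agent.MP_54d89f_nt.Dw

variable {p : Nat} [Fact p.Prime]

theorem alg_EvAx {K : Type*} [Field K]
    {s ε1 ε2 ε3 P R1 R2 R3 T1 T2 T3 A1 A2 A3 g1 g2 g3 : K}
    (h1 : ε1 ^ 2 = 1) (h2 : ε2 ^ 2 = 1) (h3 : ε3 ^ 2 = 1) (hP : P ≠ 0) (r1 : R1 ≠ 0) (r2 : R2 ≠ 0)
    (r3 : R3 ≠ 0) (t2 : T2 ≠ 0) (t3 : T3 ≠ 0)
    (h : s * (R1 / (R2 * R3)) ^ 2 = (T1 / (T2 * T3)) ^ 2)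
    (e1 : T1 * g1 = ε1 * A1 * P ^ 3 * R1) (e2 : T2 * g2 = ε2 * A2 * P * R2)
    (e3 : T3 * g3 = ε3 * A3 * P ^ 2 * R3) :
    s * (g1 * A2 * A3) ^ 2 = (A1 * g2 * g3) ^ 2 := by
  have k1 : (T1 * g1) ^ 2 = (A1 * P ^ 3 * R1) ^ 2 := by
    rw [e1]; linear_combination (A1 * P ^ 3 * R1) ^ 2 * h1
  have k2 : (T2 * g2) ^ 2 = (A2 * P * R2) ^ 2 := by
    rw [e2]; linear_combination (A2 * P * R2) ^ 2 * h2
  have k3 : (T3 * g3) ^ 2 = (A3 * P ^ 2 * R3) ^ 2 := by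
    rw [e3]; linear_combination (A3 * P ^ 2 * R3) ^ 2 * h3
  have h' : s * R1 ^ 2 * (T2 * T3) ^ 2 = T1 ^ 2 * (R2 * R3) ^ 2 := by
    rw [div_pow, div_pow, ← mul_div_assoc, div_eq_div_iff (pow_ne_zero _ (mul_ne_zero r2 r3))
      (pow_ne_zero _ (mul_ne_zero t2 t3))] at h
    exact h
  have k : s * R1 ^ 2 * (T2 * g2) ^ 2 * (T3 * g3) ^ 2 * g1 ^ 2 =
      (T1 * g1) ^ 2 * (R2 * R3) ^ 2 * (g2 * g3) ^ 2 := by
    linear_combination (g1 * g2 * g3) ^ 2 * h'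
  rw [k1, k2, k3] at k
  have hX : (R1 * R2 * R3 * P ^ 3) ^ 2 ≠ 0 := by simp [r1, r2, r3, hP]
  apply mul_left_cancel₀ hX
  linear_combination k

theorem ne_EvAx {q : ℚ} (hq : 0 < q) (n : ℕ) : rising (q : ℚ_[p]) n ≠ 0 := by
  rw [← rising_cast]
  have : 0 < rising q n := prod_pos fun i _ => by positivity
  exact_mod_cast this.ne'

omit [Fact p.Prime] in
theorem div_EvAx {n a b : ℕ} (hb : b < p) (h : n = p * a + b) : n / p = a := by
  rw [h, Nat.mul_add_div (by omega), Nat.div_eq_of_lt hb, add_zero]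

theorem sq_EvAx (n : ℕ) : ((-1 : ℚ_[p]) ^ n) ^ 2 = 1 := by
  rw [← pow_mul, mul_comm, pow_mul, neg_one_sq, one_pow]

theorem ev11 (hp : 5 ≤ p) (hg : GamSt p) (hd : DenseG p) : Ev8 p 1 1 1 1 := by
  intro μ x s hμ hx hs h
  rw [mul_one] at hμ
  have hpZ : (p : ℤ_[p]) = 1 + 12 * μ := by exact_mod_cast congrArg (Nat.cast : ℕ → ℤ_[p]) hμ
  have hxQ : 12 * (x : ℚ_[p]) = 1 := by exact_mod_cast congrArg (fun z : ℤ_[p] => (z : ℚ_[p])) hx
  have c6 : ((6 * x : ℤ_[p]) : ℚ_[p]) = 1 / 2 := by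
    rw [PadicInt.coe_mul, show ((6 : ℤ_[p]) : ℚ_[p]) = 6 from rfl]
    linear_combination (1 / 2 : ℚ_[p]) * hxQ
  have c10 : ((10 * x : ℤ_[p]) : ℚ_[p]) = 5 / 6 := by
    rw [PadicInt.coe_mul, show ((10 : ℤ_[p]) : ℚ_[p]) = 10 from rfl]
    linear_combination (5 / 6 : ℚ_[p]) * hxQ
  have c2 : ((2 * x : ℤ_[p]) : ℚ_[p]) = 1 / 6 := by
    rw [PadicInt.coe_mul, show ((2 : ℤ_[p]) : ℚ_[p]) = 2 from rfl]
    linear_combination (1 / 6 : ℚ_[p]) * hxQ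
  have d6 : 6 * x + ((6 * μ : ℕ) : ℤ_[p]) = p * (6 * x) := by
    push_cast; linear_combination (-6 * x) * hpZ - (6 * μ : ℤ_[p]) * hx
  have d10 : 10 * x + ((10 * μ : ℕ) : ℤ_[p]) = p * (10 * x) := by
    push_cast; linear_combination (-10 * x) * hpZ - (10 * μ : ℤ_[p]) * hx
  have d2 : 2 * x + ((2 * μ : ℕ) : ℤ_[p]) = p * (2 * x) := by
    push_cast; linear_combination (-2 * x) * hpZ - (2 * μ : ℤ_[p]) * hx
  have d3 : 3 * x + ((3 * μ : ℕ) : ℤ_[p]) = p * (3 * x) := by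
    push_cast; linear_combination (-3 * x) * hpZ - (3 * μ : ℤ_[p]) * hx
  have n6 : ∀ n, rising (1 / 2 : ℚ_[p]) n ≠ 0 := rising_half_ne
  have n10 : ∀ n, rising (5 / 6 : ℚ_[p]) n ≠ 0 := fun n => by
    simpa using ne_EvAx (p := p) (q := 5 / 6) (by norm_num) n
  have n2 : ∀ n, rising (1 / 6 : ℚ_[p]) n ≠ 0 := fun n => by
    simpa using ne_EvAx (p := p) (q := 1 / 6) (by norm_num) n
  have hp0 : (p : ℚ_[p]) ≠ 0 := by exact_mod_cast (by omega : p ≠ 0)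
  have hc : Continuous fun y : ℤ_[p] => (gammaP p y : ℚ_[p]) := cont_coe.comp (gammaP_cont hp)
  set G : ℤ_[p] → ℚ_[p] := fun y => (gammaP p y : ℚ_[p]) with hG
  have key := hd 2
    (fun t => s t * (G (6 * x) * G (10 * x + (-x - p * t * (6 * x))) *
      G (2 * x + 2 * (-x - p * t * (6 * x)))) ^ 2)
    (fun t => (G (6 * x + 3 * (-x - p * t * (6 * x))) * G (10 * x) * G (2 * x)) ^ 2)
    (-2 * (1 : ℕ) * x) (fun c => by have := Nat.le_of_dvd two_pos c; omega)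
    (by fun_prop) (by fun_prop) (fun m => ?_) 0
  · have r2 := hg.2 _ _ (2 * μ) (by omega) d2
    have r3 := hg.2 _ _ (3 * μ) (by omega) d3
    have gh : G (6 * x) ^ 2 = (-1) ^ ((p + 1) / 2) := by
      have := gammaP_half hp (hf := 6 * x) (by linear_combination hx)
      simp only [hG]
      exact_mod_cast congrArg (fun y : ℤ_[p] => (y : ℚ_[p])) this
    have g0 : G 0 = 1 := by simp only [hG, gammaP_zero hp]; rfl
    rw [show 1 - 2 * x = 10 * x by linear_combination -hx] at r2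
    rw [show 1 - 3 * x = 9 * x by linear_combination -hx] at r3
    rw [show 10 * x + (-x - p * 0 * (6 * x)) = 9 * x by ring,
      show 2 * x + 2 * (-x - p * 0 * (6 * x)) = 0 by ring,
      show 6 * x + 3 * (-x - p * 0 * (6 * x)) = 3 * x by ring, g0] at key
    have q2 : (G (2 * x) * G (10 * x)) ^ 2 = 1 := by
      simp only [hG]; rw [r2]; exact sq_EvAx _
    have q3 : (G (3 * x) * G (9 * x)) ^ 2 = 1 := by
      simp only [hG]; rw [r3]; exact sq_EvAx _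
    have q4 := sq_EvAx (p := p) ((p + 1) / 2)
    rw [if_pos (by norm_num)]
    change 1 * s 0 = 1 * ((-1) ^ ((p + 1) / 2) * G (3 * x) ^ 4)
    rw [← gh] at q4 ⊢
    linear_combination (G (6 * x) ^ 2 * G (3 * x) ^ 2) * key - (s 0 * G (6 * x) ^ 4) * q3 -
      s 0 * q4 + (G (6 * x) ^ 2 * G (3 * x) ^ 4) * q2
  · have hz : -x - p * (-2 * (1 : ℕ) * x - (2 : ℕ) * m) * (6 * x) = ((p * m + μ : ℕ) : ℤ_[p]) := by
      push_cast
      linear_combination x * hpZ + (μ + p * x + p * m : ℤ_[p]) * hx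
    have e1 := hg.1 _ _ (6 * μ) (3 * (p * m + μ)) (by omega) d6
    have e2 := hg.1 _ _ (10 * μ) (p * m + μ) (by omega) d10
    have e3 := hg.1 _ _ (2 * μ) (2 * (p * m + μ)) (by omega) d2
    rw [div_EvAx (a := 3 * m) (b := 9 * μ) (by omega) (by rw [mul_left_comm]; omega),
      pow_mul' (p : ℚ_[p]), Nat.cast_mul, Nat.cast_ofNat, c6] at e1
    rw [div_EvAx (a := m) (b := 3 * μ) (by omega) (by omega), c10] at e2
    rw [div_EvAx (a := 2 * m) (b := 12 * μ) (by omega) (by rw [mul_left_comm]; omega),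
      pow_mul' (p : ℚ_[p]), Nat.cast_mul, Nat.cast_ofNat, c2] at e3
    have hm := h m
    simp only [bb, if_true] at hm
    beta_reduce
    rw [hz]
    exact alg_EvAx (sq_EvAx _) (sq_EvAx _) (sq_EvAx _) (pow_ne_zero m hp0) (n6 _) (n10 _) (n2 _)
      (n10 _) (n2 _) hm e1 e2 e3

end Pool.Agent.MP_54d89f_nt.Dx
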