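import Pool.Agent.MP_54d89f_nt.Dx.St

/-! The evaluation of the coefficient for c = 5, d = 1 (p is 5 modulo 12). -/

namespace Pool.Agent.MP_54d89f_nt.Dx

open Finset Pool.Agent.MP_030fd4_nt Pool.Agent.MP_54d89f_nt.Dw

variable {p : Nat} [Fact p.Prime]

theorem alg_EvBx {K : Type*} [Field K]
    {s P a b c A B C g1 g2 g3 G1 G2 G3 e1 e2 e3 : K}
    (q1 : e1 ^ 2 = 1) (q2 : e2 ^ 2 = 1) (q3 : e3 ^ 2 = 1) (ha : a ≠ 0) (hb : b ≠ 0) (hc : c ≠ 0)
    (hB : B ≠ 0) (hC : C ≠ 0) (hP : P ≠ 0)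
    (h1 : A * g1 = e1 * G1 * P ^ 3 * a) (h2 : B * g2 = e2 * G2 * P * b)
    (h3 : C * g3 = e3 * G3 * P ^ 2 * c)
    (h : s * (a / (b * c)) ^ 2 = (3 * A / (B * C)) ^ 2) :
    s * (g1 * G2 * G3) ^ 2 = 9 * (G1 * g2 * g3) ^ 2 := by
  have h' : s * a ^ 2 * (B * C) ^ 2 = 9 * A ^ 2 * (b * c) ^ 2 := by
    rw [div_pow, div_pow, ← mul_div_assoc, div_eq_div_iff (pow_ne_zero _ (mul_ne_zero hb hc))
      (pow_ne_zero _ (mul_ne_zero hB hC))] at h
    linear_combination h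
  have E : s * a ^ 2 * (B * g2) ^ 2 * (C * g3) ^ 2 * g1 ^ 2 =
      9 * (A * g1) ^ 2 * (b * c) ^ 2 * (g2 * g3) ^ 2 := by
    linear_combination (g1 * g2 * g3) ^ 2 * h'
  rw [h1, h2, h3] at E
  simp only [mul_pow, q1, q2, q3] at E
  have hX : a ^ 2 * b ^ 2 * c ^ 2 * P ^ 6 ≠ 0 := by simp [ha, hb, hc, hP]
  apply mul_left_cancel₀ hX
  linear_combination E

theorem gam_EvBx (hg : GamSt p) (x y : ℤ_[p]) (r n L j : ℕ) (hr : r < p) (hj : j < p)
    (h : x + r = p * y) (hL : n + p = p * L + j + r + 1) :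
    rising (x : ℚ_[p]) n * (gammaP p x : ℚ_[p]) =
      (-1) ^ n * (gammaP p (x + n) : ℚ_[p]) * (p : ℚ_[p]) ^ L * rising (y : ℚ_[p]) L := by
  have e : (n + p - 1 - r) / p = L := by
    rw [show n + p - 1 - r = p * L + j by omega, Nat.mul_add_div (by omega),
      Nat.div_eq_of_lt hj, add_zero]
  have := hg.1 x y r n hr h
  rwa [e] at this

theorem ne_EvBx (u n : ℕ) {y : ℚ_[p]} (hu : 0 < u) (hy : 6 * y = u) : rising y n ≠ 0 := by
  refine prod_ne_zero_iff.2 fun i _ h => ?_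
  have : ((u + 6 * i : ℕ) : ℚ_[p]) ≠ 0 := by exact_mod_cast (by omega : u + 6 * i ≠ 0)
  apply this
  push_cast
  linear_combination 6 * h - hy

theorem sq_EvBx (n : ℕ) : ((-1 : ℚ_[p]) ^ n) ^ 2 = 1 := by
  rw [← pow_mul, mul_comm, pow_mul]; norm_num

theorem ev51 (hp : 5 ≤ p) (hg : GamSt p) (hd : DenseG p) : Ev8 p 5 1 1 1 := by
  intro μ x s hμ h6 hs h
  have hν : p = 12 * μ + 5 := by omega
  have hpz : (p : ℤ_[p]) = 12 * μ + 5 := by exact_mod_cast congrArg (Nat.cast : ℕ → ℤ_[p]) hν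
  have hp0 : (p : ℚ_[p]) ≠ 0 := by exact_mod_cast (by omega : p ≠ 0)
  have hx : (x : ℚ_[p]) = 1 / 12 := by
    have h : (((12 : ℕ) * x : ℤ_[p]) : ℚ_[p]) = 1 := by rw [Nat.cast_ofNat, h6]; rfl
    rw [PadicInt.coe_mul, PadicInt.coe_natCast] at h
    push_cast at h
    linear_combination h / 12
  have cx : ∀ k : ℕ, (((k : ℤ_[p]) * x : ℤ_[p]) : ℚ_[p]) = k / 12 := fun k => by
    rw [PadicInt.coe_mul, PadicInt.coe_natCast, hx]; ring
  have c2 : ((2 * x : ℤ_[p]) : ℚ_[p]) = 1 / 6 := (cx 2).trans (by norm_num)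
  have c6 : ((6 * x : ℤ_[p]) : ℚ_[p]) = 1 / 2 := (cx 6).trans (by norm_num)
  have c10 : ((10 * x : ℤ_[p]) : ℚ_[p]) = 5 / 6 := (cx 10).trans (by norm_num)
  have c14 : ((14 * x : ℤ_[p]) : ℚ_[p]) = 7 / 6 := (cx 14).trans (by norm_num)
  have c18 : ((18 * x : ℤ_[p]) : ℚ_[p]) = 3 / 2 := (cx 18).trans (by norm_num)
  have hc : Continuous fun y : ℤ_[p] => (gammaP p y : ℚ_[p]) := cont_coe.comp (gammaP_cont hp)
  set G : ℤ_[p] → ℚ_[p] := fun y => (gammaP p y : ℚ_[p]) with hG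
  have e18 : 18 * x + ((6 * μ + 1 : ℕ) : ℤ_[p]) = p * (6 * x) := by
    rw [hpz]; push_cast; linear_combination (-(6 * (μ : ℤ_[p]) + 1)) * h6
  have e14 : 14 * x + ((10 * μ + 3 : ℕ) : ℤ_[p]) = p * (10 * x) := by
    rw [hpz]; push_cast; linear_combination (-(10 * (μ : ℤ_[p]) + 3)) * h6
  have e10 : 10 * x + ((2 * μ : ℕ) : ℤ_[p]) = p * (2 * x) := by
    rw [hpz]; push_cast; linear_combination (-(2 * (μ : ℤ_[p]))) * h6
  have key := hd 2
    (fun t => s t * (G (18 * x) * G (14 * x + (-5 * x - p * t * (6 * x))) *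
      G (10 * x + 2 * (-5 * x - p * t * (6 * x)))) ^ 2)
    (fun t => 9 * (G (18 * x + 3 * (-5 * x - p * t * (6 * x))) * G (14 * x) * G (10 * x)) ^ 2)
    (-2 * x) (fun h2 => by have := Nat.le_of_dvd (by norm_num) h2; omega)
    (by fun_prop) (by fun_prop) (fun m => ?_) 0
  · have r1 := hg.2 (10 * x) (2 * x) (2 * μ) (by omega) e10
    have r2 := hg.2 (3 * x) (3 * x) (3 * μ + 1) (by omega)
      (by rw [hpz]; push_cast; linear_combination (-(3 * (μ : ℤ_[p]) + 1)) * h6)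
    have s1 := gam_EvBx hg (2 * x) (10 * x) (10 * μ + 4) 1 0 (2 * μ + 1) (by omega) (by omega)
      (by rw [hpz]; push_cast; linear_combination (-(10 * (μ : ℤ_[p]) + 4)) * h6) (by omega)
    have s2 := gam_EvBx hg (6 * x) (6 * x) (6 * μ + 2) 1 0 (6 * μ + 3) (by omega) (by omega)
      (by rw [hpz]; push_cast; linear_combination (-(6 * (μ : ℤ_[p]) + 2)) * h6) (by omega)
    have g0 : G 0 = 1 := by simp only [hG, gammaP_zero hp]; rfl
    have gh : G (6 * x) ^ 2 = (-1) ^ ((p + 1) / 2) := by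
      have := gammaP_half hp (hf := 6 * x) (by linear_combination h6)
      simp only [hG]
      exact_mod_cast congrArg (fun y : ℤ_[p] => (y : ℚ_[p])) this
    rw [show 1 - 10 * x = 2 * x by linear_combination -h6] at r1
    rw [show 1 - 3 * x = 9 * x by linear_combination -h6] at r2
    rw [show 2 * x + ((1 : ℕ) : ℤ_[p]) = 14 * x by push_cast; linear_combination -h6, c2] at s1
    rw [show 6 * x + ((1 : ℕ) : ℤ_[p]) = 18 * x by push_cast; linear_combination -h6, c6] at s2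
    simp only [rising, prod_range_succ, prod_range_zero] at s1 s2
    push_cast at s1 s2
    rw [show 14 * x + (-5 * x - p * 0 * (6 * x)) = 9 * x by ring,
      show 10 * x + 2 * (-5 * x - p * 0 * (6 * x)) = 0 by ring,
      show 18 * x + 3 * (-5 * x - p * 0 * (6 * x)) = 3 * x by ring, g0] at key
    have t1 : G (14 * x) = -(1 / 6) * G (2 * x) := by simp only [hG]; linear_combination s1
    have t2 : G (18 * x) = -(1 / 2) * G (6 * x) := by simp only [hG]; linear_combination s2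
    have r1' : (G (10 * x) * G (2 * x)) ^ 2 = 1 := by simp only [hG]; rw [r1, sq_EvBx]
    have r2' : (G (3 * x) * G (9 * x)) ^ 2 = 1 := by simp only [hG]; rw [r2, sq_EvBx]
    have sq := sq_EvBx (p := p) ((p + 1) / 2)
    rw [t1, t2] at key
    rw [if_pos (by norm_num), G1, one_mul, one_mul]
    change s 0 = (-1) ^ ((p + 1) / 2) * G (3 * x) ^ 4
    have k2 : s 0 * G (6 * x) ^ 2 * (G (3 * x) * G (9 * x)) ^ 2 =
        G (3 * x) ^ 4 * (G (10 * x) * G (2 * x)) ^ 2 := by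
      linear_combination (4 * G (3 * x) ^ 2) * key
    rw [r1', r2', gh] at k2
    linear_combination ((-1) ^ ((p + 1) / 2)) * k2 - s 0 * sq
  · have hz : ((p * m + μ : ℕ) : ℤ_[p]) =
        -5 * x - p * (-2 * x - ((2 : ℕ) : ℤ_[p]) * m) * (6 * x) := by
      push_cast; rw [hpz]
      linear_combination (-(μ : ℤ_[p]) - (12 * μ + 5) * (x + m)) * h6
    have h1 := gam_EvBx hg (18 * x) (6 * x) (6 * μ + 1) (3 * (p * m + μ)) (3 * m) (9 * μ + 3)
      (by omega) (by omega) e18 (by rw [hν]; ring)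
    have h2 := gam_EvBx hg (14 * x) (10 * x) (10 * μ + 3) (p * m + μ) m (3 * μ + 1)
      (by omega) (by omega) e14 (by rw [hν]; ring)
    have h3 := gam_EvBx hg (10 * x) (2 * x) (2 * μ) (2 * (p * m + μ)) (2 * m) (12 * μ + 4)
      (by omega) (by omega) e10 (by rw [hν]; ring)
    have hm := h m
    rw [Nat.cast_mul, hz, c18, c6, pow_mul' (p : ℚ_[p])] at h1
    rw [hz, c14, c10] at h2
    rw [Nat.cast_mul, hz, c10, c2, pow_mul' (p : ℚ_[p])] at h3
    rw [bb, bb, if_pos rfl, if_neg (by norm_num), if_pos rfl,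
      show -2 * ((1 : ℕ) : ℤ_[p]) * x - 2 * m = -2 * x - ((2 : ℕ) : ℤ_[p]) * m by
        push_cast; ring] at hm
    exact alg_EvBx (P := (p : ℚ_[p]) ^ m) (sq_EvBx _) (sq_EvBx _) (sq_EvBx _)
      (ne_EvBx 3 _ (by omega) (by norm_num)) (ne_EvBx 5 _ (by omega) (by norm_num))
      (ne_EvBx 1 _ (by omega) (by norm_num)) (ne_EvBx 7 _ (by omega) (by norm_num))
      (ne_EvBx 5 _ (by omega) (by norm_num)) (pow_ne_zero _ hp0) h1 h2 h3 hm

end Pool.Agent.MP_54d89f_nt.Dx
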