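import Pool.Agent.MP_54d89f_nt.Dx.St

namespace Pool.Agent.MP_54d89f_nt.Dx

open Finset Pool.Agent.MP_030fd4_nt Pool.Agent.MP_54d89f_nt.Dw

variable {p : Nat} [Fact p.Prime]

theorem alg_EvCx {K : Type*} [Field K]
    {s ε1 ε2 ε3 P R1 R2 R3 T1 T2 T3 A1 A2 A3 g1 g2 g3 : K}
    (h1 : ε1 ^ 2 = 1) (h2 : ε2 ^ 2 = 1) (h3 : ε3 ^ 2 = 1) (hP : P ≠ 0) (r1 : R1 ≠ 0) (r2 : R2 ≠ 0)
    (r3 : R3 ≠ 0) (t2 : T2 ≠ 0) (t3 : T3 ≠ 0)
    (h : s * (R1 / (R2 * R3)) ^ 2 = (T1 / (T2 * T3)) ^ 2)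
    (e1 : T1 * g1 = ε1 * A1 * P ^ 3 * R1) (e2 : T2 * g2 = ε2 * A2 * P * R2)
    (e3 : T3 * g3 = ε3 * A3 * P ^ 2 * R3) :
    s * (g1 * A2 * A3) ^ 2 = (A1 * g2 * g3) ^ 2 := by
  have k1 : (T1 * g1) ^ 2 = (A1 * P ^ 3 * R1) ^ 2 := by
    rw [e1]; linear_combination (A1 * P ^ 3 * R1) ^ 2 * h1
  have k2 : (T2 * g2) ^ 2 = (A2 * P * R2) ^ 2 := by
    rw [e2]; linear_combination (A2 * P * R2) ^ 2 * h2
  have k3 : (T3 * g3) ^ 2 = (A3 * P ^ 2 * R3) ^ 2 := by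
    rw [e3]; linear_combination (A3 * P ^ 2 * R3) ^ 2 * h3
  have h' : s * R1 ^ 2 * (T2 * T3) ^ 2 = T1 ^ 2 * (R2 * R3) ^ 2 := by
    rw [div_pow, div_pow, ← mul_div_assoc, div_eq_div_iff (pow_ne_zero _ (mul_ne_zero r2 r3))
      (pow_ne_zero _ (mul_ne_zero t2 t3))] at h
    exact h
  have k : s * R1 ^ 2 * (T2 * g2) ^ 2 * (T3 * g3) ^ 2 * g1 ^ 2 =
      (T1 * g1) ^ 2 * (R2 * R3) ^ 2 * (g2 * g3) ^ 2 := by
    linear_combination (g1 * g2 * g3) ^ 2 * h'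
  rw [k1, k2, k3] at k
  have hX : (R1 * R2 * R3 * P ^ 3) ^ 2 ≠ 0 := by simp [r1, r2, r3, hP]
  apply mul_left_cancel₀ hX
  linear_combination k

theorem ne_EvCx {q : ℚ} (hq : 0 < q) (n : ℕ) : rising (q : ℚ_[p]) n ≠ 0 := by
  rw [← rising_cast]
  have : 0 < rising q n := prod_pos fun i _ => by positivity
  exact_mod_cast this.ne'

omit [Fact p.Prime] in
theorem div_EvCx {n a b : ℕ} (hb : b < p) (h : n = p * a + b) : n / p = a := by
  rw [h, Nat.mul_add_div (by omega), Nat.div_eq_of_lt hb, add_zero]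

theorem sq_EvCx (n : ℕ) : ((-1 : ℚ_[p]) ^ n) ^ 2 = 1 := by
  rw [← pow_mul, mul_comm, pow_mul, neg_one_sq, one_pow]

theorem ev77 (hp : 5 ≤ p) (hg : GamSt p) (hd : DenseG p) : Ev8 p 7 7 1 ((p : ℚ_[p]) ^ 2) := by
  intro μ x s hμ hx hs h
  obtain ⟨ν, hν, rfl⟩ : ∃ ν, p = 12 * ν + 13 ∧ μ = 7 * ν + 7 := ⟨p / 12 - 1, by omega, by omega⟩
  have hpZ : (p : ℤ_[p]) = 12 * ν + 13 := by exact_mod_cast congrArg (Nat.cast : ℕ → ℤ_[p]) hν
  have hxQ : 12 * (x : ℚ_[p]) = 1 := by exact_mod_cast congrArg (fun z : ℤ_[p] => (z : ℚ_[p])) hx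
  have c6 : ((6 * x : ℤ_[p]) : ℚ_[p]) = 1 / 2 := by
    rw [PadicInt.coe_mul, show ((6 : ℤ_[p]) : ℚ_[p]) = 6 from rfl]
    linear_combination (1 / 2 : ℚ_[p]) * hxQ
  have c10 : ((10 * x : ℤ_[p]) : ℚ_[p]) = 5 / 6 := by
    rw [PadicInt.coe_mul, show ((10 : ℤ_[p]) : ℚ_[p]) = 10 from rfl]
    linear_combination (5 / 6 : ℚ_[p]) * hxQ
  have c2 : ((2 * x : ℤ_[p]) : ℚ_[p]) = 1 / 6 := by
    rw [PadicInt.coe_mul, show ((2 : ℤ_[p]) : ℚ_[p]) = 2 from rfl]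
    linear_combination (1 / 6 : ℚ_[p]) * hxQ
  have c14 : ((14 * x : ℤ_[p]) : ℚ_[p]) = 7 / 6 := by
    rw [PadicInt.coe_mul, show ((14 : ℤ_[p]) : ℚ_[p]) = 14 from rfl]
    linear_combination (7 / 6 : ℚ_[p]) * hxQ
  have c30 : ((30 * x : ℤ_[p]) : ℚ_[p]) = 5 / 2 := by
    rw [PadicInt.coe_mul, show ((30 : ℤ_[p]) : ℚ_[p]) = 30 from rfl]
    linear_combination (5 / 2 : ℚ_[p]) * hxQ
  have d6 : 6 * x + ((6 * ν + 6 : ℕ) : ℤ_[p]) = p * (6 * x) := by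
    push_cast; linear_combination (-6 * x) * hpZ - (6 * ν + 6 : ℤ_[p]) * hx
  have d30 : 30 * x + ((6 * ν + 4 : ℕ) : ℤ_[p]) = p * (6 * x) := by
    push_cast; linear_combination (-6 * x) * hpZ - (6 * ν + 4 : ℤ_[p]) * hx
  have d10 : 10 * x + ((10 * ν + 10 : ℕ) : ℤ_[p]) = p * (10 * x) := by
    push_cast; linear_combination (-10 * x) * hpZ - (10 * ν + 10 : ℤ_[p]) * hx
  have d2 : 2 * x + ((2 * ν + 2 : ℕ) : ℤ_[p]) = p * (2 * x) := by
    push_cast; linear_combination (-2 * x) * hpZ - (2 * ν + 2 : ℤ_[p]) * hx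
  have d14 : 14 * x + ((2 * ν + 1 : ℕ) : ℤ_[p]) = p * (2 * x) := by
    push_cast; linear_combination (-2 * x) * hpZ - (2 * ν + 1 : ℤ_[p]) * hx
  have d3 : 3 * x + ((3 * ν + 3 : ℕ) : ℤ_[p]) = p * (3 * x) := by
    push_cast; linear_combination (-3 * x) * hpZ - (3 * ν + 3 : ℤ_[p]) * hx
  have n30 : ∀ n, rising (5 / 2 : ℚ_[p]) n ≠ 0 := fun n => by
    simpa using ne_EvCx (p := p) (q := 5 / 2) (by norm_num) n
  have n10 : ∀ n, rising (5 / 6 : ℚ_[p]) n ≠ 0 := fun n => by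
    simpa using ne_EvCx (p := p) (q := 5 / 6) (by norm_num) n
  have n14 : ∀ n, rising (7 / 6 : ℚ_[p]) n ≠ 0 := fun n => by
    simpa using ne_EvCx (p := p) (q := 7 / 6) (by norm_num) n
  have hp0 : (p : ℚ_[p]) ≠ 0 := by exact_mod_cast (by omega : p ≠ 0)
  have hc : Continuous fun y : ℤ_[p] => (gammaP p y : ℚ_[p]) := cont_coe.comp (gammaP_cont hp)
  set G : ℤ_[p] → ℚ_[p] := fun y => (gammaP p y : ℚ_[p]) with hG
  have key := hd 2
    (fun t => s t * (G (30 * x) * G (10 * x + (-7 * x - p * t * (6 * x))) *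
      (G (14 * x + 2 * (-7 * x - p * t * (6 * x))) * ((p : ℚ_[p]) / 6))) ^ 2)
    (fun t => (G (30 * x + 3 * (-7 * x - p * t * (6 * x))) * ((p : ℚ_[p]) ^ 2 * (3 / 4)) *
      G (10 * x) * G (14 * x)) ^ 2)
    (-2 * (7 : ℕ) * x) (fun c => by have := Nat.le_of_dvd two_pos c; omega)
    (by fun_prop) (by fun_prop) (fun m => ?_) 0
  · have r2 := hg.2 _ _ (2 * ν + 2) (by omega) d2
    have r3 := hg.2 _ _ (3 * ν + 3) (by omega) d3
    have s1 := hg.1 _ _ (6 * ν + 6) 2 (by omega) d6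
    have s2 := hg.1 _ _ (2 * ν + 2) 1 (by omega) d2
    rw [div_EvCx (a := 0) (b := 6 * ν + 8) (by omega) (by omega), c6,
      show 6 * x + ((2 : ℕ) : ℤ_[p]) = 30 * x by push_cast; linear_combination -2 * hx] at s1
    rw [div_EvCx (a := 0) (b := 10 * ν + 11) (by omega) (by omega), c2,
      show 2 * x + ((1 : ℕ) : ℤ_[p]) = 14 * x by push_cast; linear_combination -hx] at s2
    simp only [rising, prod_range_succ, prod_range_zero] at s1 s2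
    push_cast at s1 s2
    have t1 : G (30 * x) = 3 / 4 * G (6 * x) := by simp only [hG]; linear_combination -s1
    have t2 : G (14 * x) = -(1 / 6) * G (2 * x) := by simp only [hG]; linear_combination s2
    have gh : G (6 * x) ^ 2 = (-1) ^ ((p + 1) / 2) := by
      have := gammaP_half hp (hf := 6 * x) (by linear_combination hx)
      simp only [hG]
      exact_mod_cast congrArg (fun y : ℤ_[p] => (y : ℚ_[p])) this
    have g0 : G 0 = 1 := by simp only [hG, gammaP_zero hp]; rfl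
    rw [show 1 - 2 * x = 10 * x by linear_combination -hx] at r2
    rw [show 1 - 3 * x = 9 * x by linear_combination -hx] at r3
    rw [show 10 * x + (-7 * x - p * 0 * (6 * x)) = 3 * x by ring,
      show 14 * x + 2 * (-7 * x - p * 0 * (6 * x)) = 0 by ring,
      show 30 * x + 3 * (-7 * x - p * 0 * (6 * x)) = 9 * x by ring, g0, t1, t2] at key
    have q2 : (G (2 * x) * G (10 * x)) ^ 2 = 1 := by
      simp only [hG]; rw [r2]; exact sq_EvCx _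
    have q3 : (G (3 * x) * G (9 * x)) ^ 2 = 1 := by
      simp only [hG]; rw [r3]; exact sq_EvCx _
    rw [if_neg (by norm_num)]
    change ((-1) ^ ((p + 1) / 2) * G (3 * x) ^ 4) * s 0 = _
    rw [← gh]
    apply mul_left_cancel₀ (pow_ne_zero 2 hp0)
    linear_combination (64 * G (3 * x) ^ 2) * key +
      ((p : ℚ_[p]) ^ 4 * (G (3 * x) * G (9 * x)) ^ 2) * q2 + (p : ℚ_[p]) ^ 4 * q3
  · have hz : -7 * x - p * (-2 * (7 : ℕ) * x - (2 : ℕ) * m) * (6 * x) =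
        ((p * m + (7 * ν + 7) : ℕ) : ℤ_[p]) := by
      push_cast
      linear_combination 7 * x * hpZ + (7 * ν + 7 + 7 * p * x + p * m : ℤ_[p]) * hx
    have e1 := hg.1 _ _ (6 * ν + 4) (3 * (p * m + (7 * ν + 7))) (by omega) d30
    have e2 := hg.1 _ _ (10 * ν + 10) (p * m + (7 * ν + 7)) (by omega) d10
    have e3 := hg.1 _ _ (2 * ν + 1) (2 * (p * m + (7 * ν + 7))) (by omega) d14
    rw [div_EvCx (a := 3 * m + 1 + 1) (b := 3 * ν + 3) (by omega)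
        (by rw [mul_add p, mul_add p, mul_left_comm]; omega),
      Nat.cast_mul, Nat.cast_ofNat, c6, c30, rising_succ', rising_succ',
      show (1 / 2 + 1 + 1 : ℚ_[p]) = 5 / 2 by norm_num] at e1
    rw [div_EvCx (a := m) (b := 9 * ν + 9) (by omega) (by omega), c10] at e2
    rw [div_EvCx (a := 2 * m + 1) (b := 12 * ν + 12) (by omega)
        (by rw [mul_add p, mul_left_comm]; omega),
      Nat.cast_mul, Nat.cast_ofNat, c2, c14, rising_succ',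
      show (1 / 6 + 1 : ℚ_[p]) = 7 / 6 by norm_num] at e3
    have hm := h m
    simp only [bb, show ¬ (7 = 1) by norm_num, show ¬ (7 = 5) by norm_num, if_false, if_true,
      mul_div_assoc (18 : ℚ_[p]), mul_pow (18 : ℚ_[p])] at hm
    rw [hz]
    refine alg_EvCx (sq_EvCx (3 * (p * m + (7 * ν + 7)))) (sq_EvCx _)
      (sq_EvCx (2 * (p * m + (7 * ν + 7)))) (pow_ne_zero m hp0) (n30 (3 * m)) (n10 m)
      (n14 (2 * m)) (n10 _) (n14 _) (by linear_combination hm / 324) (e1.trans ?_) e2 (e3.trans ?_)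
    · simp only [hG]; ring
    · simp only [hG]; ring

end Pool.Agent.MP_54d89f_nt.Dx
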