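import Pool.Agent.MP_54d89f_nt.Dx.St

/-! The limit of the ratios of closed forms for c = 11, d = 7. -/

namespace Pool.Agent.MP_54d89f_nt.Dx

open Finset Pool.Agent.MP_030fd4_nt Pool.Agent.MP_54d89f_nt.Dw

variable {p : ℕ} [Fact p.Prime]

theorem alg_D_EvDx {K : Type*} [Field K] [CharZero K]
    {s e1 e2 e3 P q a b c A B C g2 g6 g10 G1 G2 G3 : K}
    (he1 : e1 ^ 2 = 1) (he2 : e2 ^ 2 = 1) (he3 : e3 ^ 2 = 1) (ha : a ≠ 0) (hb : b ≠ 0)
    (hc : c ≠ 0) (hB : B ≠ 0) (hC : C ≠ 0) (hP : P ≠ 0) (hq : q ≠ 0)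
    (h1 : 5 * (A * g6) = 2 * (e1 * G1 * (P ^ 3 * q ^ 2) * a))
    (h2 : B * g2 = 6 * (e2 * G2 * P * b))
    (h3 : 5 * (C * g10) = e3 * G3 * (P ^ 2 * q) * c)
    (h : s * (18 * a / (b * c)) ^ 2 = (54 * A / (B * C)) ^ 2) :
    s * (G2 ^ 2 * G3 ^ 2 * g6 ^ 2) = q ^ 2 * (G1 ^ 2 * g2 ^ 2 * g10 ^ 2) := by
  have h' : s * a ^ 2 * B ^ 2 * C ^ 2 = 9 * A ^ 2 * b ^ 2 * c ^ 2 := by
    rw [div_pow, div_pow, ← mul_div_assoc, div_eq_div_iff (pow_ne_zero _ (mul_ne_zero hb hc))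
      (pow_ne_zero _ (mul_ne_zero hB hC))] at h
    linear_combination h / 324
  have e0 : s * a ^ 2 * (B * g2) ^ 2 * (5 * (C * g10)) ^ 2 * g6 ^ 2 =
      9 * (5 * (A * g6)) ^ 2 * b ^ 2 * c ^ 2 * (g2 ^ 2 * g10 ^ 2) := by
    linear_combination (25 * g2 ^ 2 * g10 ^ 2 * g6 ^ 2) * h'
  rw [h1, h2, h3] at e0
  simp only [mul_pow, he1, he2, he3] at e0
  have hX : a ^ 2 * b ^ 2 * c ^ 2 * P ^ 6 * q ^ 2 ≠ 0 := by simp [ha, hb, hc, hP, hq]
  apply mul_left_cancel₀ hX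
  linear_combination (1 / 36) * e0

theorem gam_D_EvDx (hg : GamSt p) (x y : ℤ_[p]) (r n L j : ℕ) (hr : r < p) (hj : j < p)
    (h : x + r = p * y) (hL : n + p = p * L + j + r + 1) :
    rising (x : ℚ_[p]) n * (gammaP p x : ℚ_[p]) =
      (-1) ^ n * (gammaP p (x + n) : ℚ_[p]) * (p : ℚ_[p]) ^ L * rising (y : ℚ_[p]) L := by
  have e : (n + p - 1 - r) / p = L := by
    rw [show n + p - 1 - r = p * L + j by omega, Nat.mul_add_div (by omega),
      Nat.div_eq_of_lt hj, add_zero]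
  have := hg.1 x y r n hr h
  rwa [e] at this

theorem ne_D_EvDx (u n : ℕ) {y : ℚ_[p]} (hu : 0 < u) (hy : 6 * y = u) : rising y n ≠ 0 := by
  refine prod_ne_zero_iff.2 fun i _ h => ?_
  have : ((u + 6 * i : ℕ) : ℚ_[p]) ≠ 0 := by exact_mod_cast (by omega : u + 6 * i ≠ 0)
  apply this
  push_cast
  linear_combination 6 * h - hy

theorem sq_D_EvDx (n : ℕ) : ((-1 : ℚ_[p]) ^ n) ^ 2 = 1 := by
  rw [← pow_mul, mul_comm, pow_mul]; norm_num

theorem evE7 (hp : 5 ≤ p) (hg : GamSt p) (hd : DenseG p) : Ev8 p 11 7 1 ((p : ℚ_[p]) ^ 2) := by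
  intro μ x s hμ h12 hs h
  obtain ⟨ν, hν⟩ : ∃ ν, p = 12 * ν + 5 := ⟨p / 12, by omega⟩
  obtain rfl : μ = 7 * ν + 2 := by omega
  have hpz : (p : ℤ_[p]) = 12 * ν + 5 := by exact_mod_cast congrArg (Nat.cast : ℕ → ℤ_[p]) hν
  have hp0 : (p : ℚ_[p]) ≠ 0 := by exact_mod_cast (by omega : p ≠ 0)
  have hx : (x : ℚ_[p]) = 1 / 12 := by
    have h : (((12 : ℕ) * x : ℤ_[p]) : ℚ_[p]) = 1 := by rw [Nat.cast_ofNat, h12]; rfl
    rw [PadicInt.coe_mul, PadicInt.coe_natCast] at h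
    push_cast at h
    linear_combination h / 12
  have cx : ∀ k : ℕ, (((k : ℤ_[p]) * x : ℤ_[p]) : ℚ_[p]) = k / 12 := fun k => by
    rw [PadicInt.coe_mul, PadicInt.coe_natCast, hx]; ring
  have c2 : ((2 * x : ℤ_[p]) : ℚ_[p]) = 1 / 6 := (cx 2).trans (by norm_num)
  have c6 : ((6 * x : ℤ_[p]) : ℚ_[p]) = 1 / 2 := (cx 6).trans (by norm_num)
  have c10 : ((10 * x : ℤ_[p]) : ℚ_[p]) = 5 / 6 := (cx 10).trans (by norm_num)
  have hc : Continuous fun y : ℤ_[p] => (gammaP p y : ℚ_[p]) := cont_coe.comp (gammaP_cont hp)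
  set G : ℤ_[p] → ℚ_[p] := fun y => (gammaP p y : ℚ_[p]) with hG
  have e2 : 2 * x + ((10 * ν + 4 : ℕ) : ℤ_[p]) = p * (10 * x) := by
    rw [hpz]; push_cast; linear_combination (-(10 * (ν : ℤ_[p]) + 4)) * h12
  have key := hd 2
    (fun t => s t * (G (2 * x + (-11 * x - p * t * (6 * x) + 1)) ^ 2 *
      G (10 * x + (2 * (-11 * x - p * t * (6 * x)) + 1)) ^ 2 * G (6 * x) ^ 2))
    (fun t => (p : ℚ_[p]) ^ 2 * (G (6 * x + (3 * (-11 * x - p * t * (6 * x)) + 3)) ^ 2 *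
      G (2 * x) ^ 2 * G (10 * x) ^ 2))
    (-14 * x) (fun g => by have := Nat.le_of_dvd (by norm_num) g; omega)
    (by fun_prop) (by fun_prop) (fun m => ?_) 0
  · have r1 := hg.2 (2 * x) (10 * x) (10 * ν + 4) (by omega) e2
    have r2 := hg.2 (3 * x) (3 * x) (3 * ν + 1) (by omega)
      (by rw [hpz]; push_cast; linear_combination (-(3 * (ν : ℤ_[p]) + 1)) * h12)
    have g0 : G 0 = 1 := by simp only [hG, gammaP_zero hp]; rfl
    have gh : G (6 * x) ^ 2 = (-1) ^ ((p + 1) / 2) := by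
      have := gammaP_half hp (hf := 6 * x) (by linear_combination h12)
      simp only [hG]
      exact_mod_cast congrArg (fun y : ℤ_[p] => (y : ℚ_[p])) this
    rw [show 1 - 2 * x = 10 * x by linear_combination -h12] at r1
    rw [show 1 - 3 * x = 9 * x by linear_combination -h12] at r2
    rw [show 2 * x + (-11 * x - p * 0 * (6 * x) + 1) = 3 * x by linear_combination -h12,
      show 10 * x + (2 * (-11 * x - p * 0 * (6 * x)) + 1) = 0 by linear_combination -h12,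
      show 6 * x + (3 * (-11 * x - p * 0 * (6 * x)) + 3) = 9 * x by linear_combination -3 * h12,
      g0, gh] at key
    change G (2 * x) * G (10 * x) = _ at r1
    change G (3 * x) * G (9 * x) = _ at r2
    have r1' : (G (2 * x) * G (10 * x)) ^ 2 = 1 := by rw [r1, sq_D_EvDx]
    have r2' : (G (3 * x) * G (9 * x)) ^ 2 = 1 := by rw [r2, sq_D_EvDx]
    rw [if_neg (by norm_num)]
    change (-1) ^ ((p + 1) / 2) * G (3 * x) ^ 4 * s 0 = _
    linear_combination G (3 * x) ^ 2 * key +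
      (p : ℚ_[p]) ^ 2 * (G (3 * x) * G (9 * x)) ^ 2 * r1' + (p : ℚ_[p]) ^ 2 * r2'
  · have hz : ((p * m + (7 * ν + 2) : ℕ) : ℤ_[p]) =
        -11 * x - p * (-14 * x - ((2 : ℕ) : ℤ_[p]) * m) * (6 * x) := by
      push_cast; rw [hpz]
      linear_combination (-((12 * (ν : ℤ_[p]) + 5) * (7 * x + m) + 7 * ν + 2)) * h12
    have h1 := gam_D_EvDx hg (6 * x) (6 * x) (6 * ν + 2) (3 * (p * m + (7 * ν + 2)) + 1 + 1 + 1)
      (3 * m + 1 + 1) (3 * ν + 1) (by omega) (by omega)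
      (by rw [hpz]; push_cast; linear_combination (-(6 * (ν : ℤ_[p]) + 2)) * h12)
      (by rw [hν]; ring)
    have h2 := gam_D_EvDx hg (2 * x) (10 * x) (10 * ν + 4) (p * m + (7 * ν + 2) + 1) m
      (9 * ν + 3) (by omega) (by omega) e2 (by rw [hν]; ring)
    have h3 := gam_D_EvDx hg (10 * x) (2 * x) (2 * ν) (2 * (p * m + (7 * ν + 2)) + 1) (2 * m + 1)
      (12 * ν + 4) (by omega) (by omega)
      (by rw [hpz]; push_cast; linear_combination (-(2 * (ν : ℤ_[p]))) * h12)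
      (by rw [hν]; ring)
    have hm := h m
    rw [show -2 * ((7 : ℕ) : ℤ_[p]) * x - 2 * m = -14 * x - ((2 : ℕ) : ℤ_[p]) * m by
      push_cast; ring] at hm
    rw [← hz]
    generalize p * m + (7 * ν + 2) = n at *
    rw [show ((3 * n + 1 + 1 + 1 : ℕ) : ℤ_[p]) = 3 * n + 3 by push_cast; ring, c6] at h1
    rw [show ((n + 1 : ℕ) : ℤ_[p]) = n + 1 by push_cast; ring, c2, c10] at h2
    rw [show ((2 * n + 1 : ℕ) : ℤ_[p]) = 2 * n + 1 by push_cast; ring, c2, c10] at h3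
    simp only [rising_succ'] at h1 h2 h3
    norm_num only [bb, if_true, if_false, ite_true, ite_false] at hm
    norm_num only at h1 h2 h3
    refine alg_D_EvDx (P := (p : ℚ_[p]) ^ m) (sq_D_EvDx (3 * n + 1 + 1 + 1)) (sq_D_EvDx (n + 1))
      (sq_D_EvDx (2 * n + 1)) (ne_D_EvDx 15 _ (by omega) (by norm_num))
      (ne_D_EvDx 5 _ (by omega) (by norm_num)) (ne_D_EvDx 7 _ (by omega) (by norm_num))
      (ne_D_EvDx 7 _ (by omega) (by norm_num)) (ne_D_EvDx 11 _ (by omega) (by norm_num))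
      (pow_ne_zero _ hp0) hp0 ?_ ?_ ?_ hm
    · simp only [hG]; linear_combination (8 / 3) * h1
    · simp only [hG]; linear_combination 6 * h2
    · simp only [hG]; linear_combination 6 * h3

end Pool.Agent.MP_54d89f_nt.Dx
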