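import Pool.Agent.MP_54d89f_nt.Dx.St

/-! The limit of the ratios of closed forms for c = 1, d = 7. -/

namespace Pool.Agent.MP_54d89f_nt.Dx

open Finset Pool.Agent.MP_030fd4_nt Pool.Agent.MP_54d89f_nt.Dw

variable {p : Nat} [Fact p.Prime]

theorem rising_ne_EvEx {K : Type*} [Field K] [CharZero K] (q : ℚ) (hq : 0 < q) (k : ℕ) :
    rising (q : K) k ≠ 0 := by
  rw [← rising_cast]
  have : 0 < rising q k := prod_pos fun i _ => by positivity
  exact_mod_cast this.ne'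

theorem div_EvEx {q a k c : ℕ} (hc : c < q) (h : a = q * k + c) : a / q = k := by
  rw [h, Nat.mul_add_div (by omega), Nat.div_eq_of_lt hc, add_zero]

theorem sq_EvEx {K : Type*} [Field K] (n : ℕ) : ((-1 : K) ^ n) ^ 2 = 1 := by
  rw [← pow_mul, mul_comm, pow_mul, neg_one_sq, one_pow]

theorem alg_EvEx {K : Type*} [Field K] [CharZero K]
    {s u1 u2 u3 v1 v2 v3 G1 G2 G3 g1 g2 g3 P q σ1 σ2 σ3 : K}
    (h1 : σ1 ^ 2 = 1) (h2 : σ2 ^ 2 = 1) (h3 : σ3 ^ 2 = 1) (hP : P ≠ 0) (hq : q ≠ 0)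
    (hu2 : u2 ≠ 0) (hu3 : u3 ≠ 0) (hv1 : v1 ≠ 0) (hv2 : v2 ≠ 0) (hv3 : v3 ≠ 0)
    (e1 : u1 * g1 = σ1 * G1 * (P ^ 3 * q ^ 2) * (3 / 4 * v1))
    (e2 : u2 * g2 = σ2 * G2 * P * v2) (e3 : u3 * g3 = σ3 * G3 * (P ^ 2 * q) * (1 / 6 * v3))
    (h : s * (18 * v1 / (v2 * v3)) ^ 2 = (u1 / (u2 * u3)) ^ 2) :
    16 * s * (g1 * G2 * G3) ^ 2 = q ^ 2 * (G1 * g2 * g3) ^ 2 := by
  rw [div_pow, div_pow, ← mul_div_assoc, div_eq_div_iff (pow_ne_zero 2 (mul_ne_zero hv2 hv3))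
    (pow_ne_zero 2 (mul_ne_zero hu2 hu3))] at h
  have f1 : (u1 * g1) ^ 2 = (G1 * (P ^ 3 * q ^ 2) * (3 / 4 * v1)) ^ 2 := by
    rw [e1, mul_assoc σ1, mul_assoc σ1, mul_pow, h1, one_mul]
  have f2 : (u2 * g2) ^ 2 = (G2 * P * v2) ^ 2 := by
    rw [e2, mul_assoc σ2, mul_assoc σ2, mul_pow, h2, one_mul]
  have f3 : (u3 * g3) ^ 2 = (G3 * (P ^ 2 * q) * (1 / 6 * v3)) ^ 2 := by
    rw [e3, mul_assoc σ3, mul_assoc σ3, mul_pow, h3, one_mul]
  have E : s * (18 * v1) ^ 2 * ((u2 * g2) ^ 2 * (u3 * g3) ^ 2) * g1 ^ 2 =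
      (u1 * g1) ^ 2 * (v2 * v3) ^ 2 * (g2 * g3) ^ 2 := by
    linear_combination (g1 * g2 * g3) ^ 2 * h
  rw [f1, f2, f3] at E
  have hc : (v1 * v2 * v3 * P ^ 3 * q) ^ 2 * (9 / 16) ≠ 0 := by
    have : (9 / 16 : K) ≠ 0 := by norm_num
    positivity
  apply mul_left_cancel₀ hc
  linear_combination E

theorem ev17 (hp : 5 ≤ p) (hg : GamSt p) (hd : DenseG p) : Ev8 p 1 7 16 ((p : Padic p) ^ 2) := by
  intro μ x s hμ hx hs H
  obtain ⟨ν, hν, rfl⟩ : ∃ ν, p = 12 * ν + 7 ∧ μ = 7 * ν + 4 := ⟨p / 12, by omega, by omega⟩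
  rw [if_pos (by norm_num)]
  have hpz : (p : ℤ_[p]) = 12 * ν + 7 := by exact_mod_cast congrArg (Nat.cast (R := ℤ_[p])) hν
  have hxq : (x : ℚ_[p]) = 1 / 12 := by
    have := congrArg (fun z : ℤ_[p] => (z : ℚ_[p])) hx
    simp only [PadicInt.coe_mul, PadicInt.coe_one] at this
    have e : ((12 : ℤ_[p]) : ℚ_[p]) = 12 := rfl
    rw [e] at this
    linear_combination this / 12
  have c2 : ((2 * x : ℤ_[p]) : ℚ_[p]) = 1 / 6 := by
    have e : ((2 : ℤ_[p]) : ℚ_[p]) = 2 := rfl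
    rw [PadicInt.coe_mul, e, hxq]; norm_num
  have c6 : ((6 * x : ℤ_[p]) : ℚ_[p]) = 1 / 2 := by
    have e : ((6 : ℤ_[p]) : ℚ_[p]) = 6 := rfl
    rw [PadicInt.coe_mul, e, hxq]; norm_num
  have c10 : ((10 * x : ℤ_[p]) : ℚ_[p]) = 5 / 6 := by
    have e : ((10 : ℤ_[p]) : ℚ_[p]) = 10 := rfl
    rw [PadicInt.coe_mul, e, hxq]; norm_num
  have r2 : 2 * x + ((2 * ν + 1 : ℕ) : ℤ_[p]) = p * (2 * x) := by
    push_cast; linear_combination (-2 * x) * hpz - (2 * (ν : ℤ_[p]) + 1) * hx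
  have r3 : 3 * x + ((9 * ν + 5 : ℕ) : ℤ_[p]) = p * (9 * x) := by
    push_cast; linear_combination (-9 * x) * hpz - (9 * (ν : ℤ_[p]) + 5) * hx
  have r6 : 6 * x + ((6 * ν + 3 : ℕ) : ℤ_[p]) = p * (6 * x) := by
    push_cast; linear_combination (-6 * x) * hpz - (6 * (ν : ℤ_[p]) + 3) * hx
  have r10 : 10 * x + ((10 * ν + 5 : ℕ) : ℤ_[p]) = p * (10 * x) := by
    push_cast; linear_combination (-10 * x) * hpz - (10 * (ν : ℤ_[p]) + 5) * hx
  have hc := gammaP_cont hp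
  have hY := cont_coe (p := p)
  have hp0 : (p : ℚ_[p]) ≠ 0 := by exact_mod_cast (by omega : p ≠ 0)
  have key := hd 2
    (fun t => 16 * s t * ((gammaP p (6 * x) : ℚ_[p]) *
      (gammaP p (10 * x + (-x - p * t * (6 * x))) : ℚ_[p]) *
      (gammaP p (2 * x + 2 * (-x - p * t * (6 * x))) : ℚ_[p])) ^ 2)
    (fun t => (p : ℚ_[p]) ^ 2 * ((gammaP p (6 * x + 3 * (-x - p * t * (6 * x))) : ℚ_[p]) *
      (gammaP p (10 * x) : ℚ_[p]) * (gammaP p (2 * x) : ℚ_[p])) ^ 2)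
    (-2 * (7 : ℕ) * x) (fun h => by have := Nat.le_of_dvd two_pos h; omega)
    (by fun_prop) (by fun_prop) (fun m => by
      have h := H m
      obtain ⟨n, hn⟩ : ∃ n, n = p * m + (7 * ν + 4) := ⟨_, rfl⟩
      rw [← hn] at h
      have hz : -x - p * (-2 * (7 : ℕ) * x - (2 : ℕ) * m) * (6 * x) = (n : ℤ_[p]) := by
        rw [hn]; push_cast
        linear_combination (7 * x) * hpz + (7 * (ν : ℤ_[p]) + 4 + 7 * p * x + p * m) * hx
      have m2 : p * (2 * m + 1) = 2 * (p * m) + p := by ring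
      have m3 : p * (3 * m + 2) = 3 * (p * m) + 2 * p := by ring
      have e1 := hg.1 (6 * x) (6 * x) (6 * ν + 3) (3 * n) (by omega) r6
      have e2 := hg.1 (10 * x) (10 * x) (10 * ν + 5) n (by omega) r10
      have e3 := hg.1 (2 * x) (2 * x) (2 * ν + 1) (2 * n) (by omega) r2
      rw [div_EvEx (k := 3 * m + 2) (c := 3 * ν + 1) (by omega) (by omega), c6, rising_succ',
        rising_succ', show (1 / 2 : ℚ_[p]) + 1 + 1 = 5 / 2 by norm_num] at e1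
      rw [div_EvEx (k := m) (c := 9 * ν + 5) (by omega) (by omega), c10] at e2
      rw [div_EvEx (k := 2 * m + 1) (c := 12 * ν + 6) (by omega) (by omega), c2, rising_succ',
        show (1 / 6 : ℚ_[p]) + 1 = 7 / 6 by norm_num] at e3
      have b7 : bb ℚ_[p] 7 m = (18 * rising (5 / 2) (3 * m) /
          (rising (5 / 6) m * rising (7 / 6) (2 * m))) ^ 2 := by simp [bb]
      have b1 : bb ℚ_[p] 1 n = (rising (1 / 2) (3 * n) /
          (rising (5 / 6) n * rising (1 / 6) (2 * n))) ^ 2 := by rw [bb, if_pos rfl]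
      rw [b7, b1] at h
      have q1 := fun k => rising_ne_EvEx (K := ℚ_[p]) (5 / 6) (by norm_num) k
      have q2 := fun k => rising_ne_EvEx (K := ℚ_[p]) (1 / 6) (by norm_num) k
      have q3 := fun k => rising_ne_EvEx (K := ℚ_[p]) (5 / 2) (by norm_num) k
      have q4 := fun k => rising_ne_EvEx (K := ℚ_[p]) (7 / 6) (by norm_num) k
      push_cast at e1 e3 q1 q2 q3 q4
      simp only [hz]
      refine alg_EvEx (P := (p : ℚ_[p]) ^ m) (sq_EvEx (3 * n)) (sq_EvEx n) (sq_EvEx (2 * n))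
        (pow_ne_zero _ hp0) hp0 (q1 _) (q2 _) (q3 _) (q1 _) (q4 _) ?_ e2 ?_ h
      · rw [e1]; ring
      · rw [e3]; ring) 0
  have f2 := hg.2 (2 * x) (2 * x) (2 * ν + 1) (by omega) r2
  have f3 := hg.2 (3 * x) (9 * x) (9 * ν + 5) (by omega) r3
  have hh := congrArg (fun z : ℤ_[p] => (z : ℚ_[p]))
    (gammaP_half hp (hf := 6 * x) (by linear_combination hx))
  simp only [PadicInt.coe_pow, PadicInt.coe_neg, PadicInt.coe_one] at hh
  have s1 : (-1 : ℚ_[p]) ^ ((p + 1) / 2) = 1 := by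
    rw [show (p + 1) / 2 = 2 * (3 * ν + 2) by omega, pow_mul, neg_one_sq, one_pow]
  simp only [mul_zero, zero_mul, sub_zero] at key
  rw [show 2 * x + 2 * -x = 0 by ring, gammaP_zero hp, show 10 * x + -x = 1 - 3 * x by
    linear_combination hx, show 6 * x + 3 * -x = 3 * x by ring, PadicInt.coe_one] at key
  rw [show 1 - 2 * x = 10 * x by linear_combination -hx] at f2
  have w2 := congrArg (· ^ 2) f2
  have w3 := congrArg (· ^ 2) f3
  simp only [sq_EvEx] at w2 w3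
  rw [s1] at hh
  rw [G1, s1]
  generalize (gammaP p (2 * x) : ℚ_[p]) = a at *
  generalize (gammaP p (3 * x) : ℚ_[p]) = b at *
  generalize (gammaP p (6 * x) : ℚ_[p]) = c at *
  generalize (gammaP p (10 * x) : ℚ_[p]) = d at *
  generalize (gammaP p (1 - 3 * x) : ℚ_[p]) = e at *
  linear_combination b ^ 2 * key - 16 * s 0 * (b * e) ^ 2 * hh - 16 * s 0 * w3 +
    (p : ℚ_[p]) ^ 2 * b ^ 4 * w2

end Pool.Agent.MP_54d89f_nt.Dx
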