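import Pool.Agent.MP_54d89f_nt.Dx.St

/-! The limit of the ratio of the closed forms for c = 5 and d = 7. -/

namespace Pool.Agent.MP_54d89f_nt.Dx

open Finset Pool.Agent.MP_030fd4_nt Pool.Agent.MP_54d89f_nt.Dw

variable {p : Nat} [Fact p.Prime]

theorem alg_EvFx {K : Type*} [Field K] [CharZero K]
    {s T1 T2 T3 R1 R2 R3 A1 A2 A3 gh ga gb P q ε1 ε2 ε3 : K}
    (h1 : ε1 ^ 2 = 1) (h2 : ε2 ^ 2 = 1) (h3 : ε3 ^ 2 = 1) (hP : P ≠ 0) (hq : q ≠ 0)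
    (r1 : R1 ≠ 0) (r2 : R2 ≠ 0) (r3 : R3 ≠ 0) (t2 : T2 ≠ 0) (t3 : T3 ≠ 0)
    (e1 : 1 / 2 * T1 * gh = ε1 * A1 * (P ^ 3 * q ^ 2) * (1 / 2 * (3 / 2 * R1)))
    (e2 : 1 / 6 * T2 * ga = ε2 * A2 * P * R2)
    (e3 : T3 * gb = ε3 * A3 * (P ^ 2 * q) * (1 / 6 * R3))
    (h : s * (18 * R1 / (R2 * R3)) ^ 2 = (3 * T1 / (T2 * T3)) ^ 2) :
    16 * s * (gh * A2 * A3) ^ 2 = q ^ 2 * (A1 * ga * gb) ^ 2 := by
  have f1 : A1 ^ 2 = (2 * T1 * gh / (3 * P ^ 3 * q ^ 2 * R1)) ^ 2 := by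
    have : 2 * T1 * gh / (3 * P ^ 3 * q ^ 2 * R1) = ε1 * A1 := by
      rw [div_eq_iff (by simp [hP, hq, r1])]; linear_combination 4 * e1
    rw [this, mul_pow, h1, one_mul]
  have f2 : A2 ^ 2 = (T2 * ga / (6 * P * R2)) ^ 2 := by
    have : T2 * ga / (6 * P * R2) = ε2 * A2 := by
      rw [div_eq_iff (by simp [hP, r2])]; linear_combination 6 * e2
    rw [this, mul_pow, h2, one_mul]
  have f3 : A3 ^ 2 = (6 * T3 * gb / (P ^ 2 * q * R3)) ^ 2 := by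
    have : 6 * T3 * gb / (P ^ 2 * q * R3) = ε3 * A3 := by
      rw [div_eq_iff (by positivity)]; linear_combination 6 * e3
    rw [this, mul_pow, h3, one_mul]
  have f0 : s = (3 * T1 / (T2 * T3)) ^ 2 / (18 * R1 / (R2 * R3)) ^ 2 := by
    rw [eq_div_iff (by simp [r1, r2, r3]), h]
  rw [mul_pow, mul_pow, mul_pow, mul_pow, f1, f2, f3, f0]
  field_simp
  ring

theorem ne_EvFx {q : ℚ} (hq : 0 < q) (n : ℕ) : rising (q : ℚ_[p]) n ≠ 0 := by
  rw [← rising_cast]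
  have : 0 < rising q n := prod_pos fun i _ => by positivity
  exact_mod_cast this.ne'

omit [Fact p.Prime] in
theorem div_EvFx {n a b : ℕ} (hb : b < p) (h : n = p * a + b) : n / p = a := by
  rw [h, Nat.mul_add_div (by omega), Nat.div_eq_of_lt hb, add_zero]

theorem sq_EvFx (n : ℕ) : ((-1 : ℚ_[p]) ^ n) ^ 2 = 1 := by
  rw [← pow_mul, mul_comm, pow_mul]; simp

theorem ev57 (hp : 5 ≤ p) (hg : GamSt p) (hd : DenseG p) : Ev8 p 5 7 16 ((p : ℚ_[p]) ^ 2) := by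
  intro μ x s hμ hx hs H
  obtain ⟨ν, hν, rfl⟩ : ∃ ν, p = 12 * ν + 11 ∧ μ = 7 * ν + 6 := ⟨p / 12, by omega, by omega⟩
  have hpz : (p : ℤ_[p]) = 12 * ν + 11 := by exact_mod_cast congrArg (Nat.cast (R := ℤ_[p])) hν
  have hxq : 12 * (x : ℚ_[p]) = 1 := by exact_mod_cast congrArg (fun z : ℤ_[p] => (z : ℚ_[p])) hx
  have c6 : ((6 * x : ℤ_[p]) : ℚ_[p]) = 1 / 2 := by
    rw [PadicInt.coe_mul, show ((6 : ℤ_[p]) : ℚ_[p]) = 6 from rfl]
    linear_combination (1 / 2 : ℚ_[p]) * hxq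
  have c2 : ((2 * x : ℤ_[p]) : ℚ_[p]) = 1 / 6 := by
    rw [PadicInt.coe_mul, show ((2 : ℤ_[p]) : ℚ_[p]) = 2 from rfl]
    linear_combination (1 / 6 : ℚ_[p]) * hxq
  have c10 : ((10 * x : ℤ_[p]) : ℚ_[p]) = 5 / 6 := by
    rw [PadicInt.coe_mul, show ((10 : ℤ_[p]) : ℚ_[p]) = 10 from rfl]
    linear_combination (5 / 6 : ℚ_[p]) * hxq
  have d6 : 6 * x + ((6 * ν + 5 : ℕ) : ℤ_[p]) = p * (6 * x) := by
    push_cast; linear_combination (-6 * x) * hpz - (6 * (ν : ℤ_[p]) + 5) * hx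
  have d2 : 2 * x + ((10 * ν + 9 : ℕ) : ℤ_[p]) = p * (10 * x) := by
    push_cast; linear_combination (-10 * x) * hpz - (10 * (ν : ℤ_[p]) + 9) * hx
  have d10 : 10 * x + ((2 * ν + 1 : ℕ) : ℤ_[p]) = p * (2 * x) := by
    push_cast; linear_combination (-2 * x) * hpz - (2 * (ν : ℤ_[p]) + 1) * hx
  have d3 : 3 * x + ((9 * ν + 8 : ℕ) : ℤ_[p]) = p * (9 * x) := by
    push_cast; linear_combination (-9 * x) * hpz - (9 * (ν : ℤ_[p]) + 8) * hx
  have n1 : ∀ n, rising (5 / 2 : ℚ_[p]) n ≠ 0 := fun n => by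
    simpa using ne_EvFx (p := p) (q := 5 / 2) (by norm_num) n
  have n2 : ∀ n, rising (5 / 6 : ℚ_[p]) n ≠ 0 := fun n => by
    simpa using ne_EvFx (p := p) (q := 5 / 6) (by norm_num) n
  have n3 : ∀ n, rising (7 / 6 : ℚ_[p]) n ≠ 0 := fun n => by
    simpa using ne_EvFx (p := p) (q := 7 / 6) (by norm_num) n
  have hp0 : (p : ℚ_[p]) ≠ 0 := by exact_mod_cast (by omega : p ≠ 0)
  have hc := gammaP_cont hp
  have hY := cont_coe (p := p)
  have key := hd 2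
    (fun t => 16 * s t * ((gammaP p (6 * x) : ℚ_[p]) *
      (gammaP p (2 * x + ((-5 * x - p * t * (6 * x)) + 1)) : ℚ_[p]) *
      (gammaP p (10 * x + 2 * (-5 * x - p * t * (6 * x))) : ℚ_[p])) ^ 2)
    (fun t => (p : ℚ_[p]) ^ 2 *
      ((gammaP p (6 * x + (3 * (-5 * x - p * t * (6 * x)) + 1)) : ℚ_[p]) *
      (gammaP p (2 * x) : ℚ_[p]) * (gammaP p (10 * x) : ℚ_[p])) ^ 2)
    (-2 * (7 : ℕ) * x) (fun h => by have := Nat.le_of_dvd two_pos h; omega)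
    (by fun_prop) (by fun_prop) (fun m => by
      have h := H m
      obtain ⟨n, hn⟩ : ∃ n, n = p * m + (7 * ν + 6) := ⟨_, rfl⟩
      rw [← hn] at h
      have hz : -5 * x - p * (-2 * (7 : ℕ) * x - (2 : ℕ) * m) * (6 * x) = (n : ℤ_[p]) := by
        rw [hn]; push_cast
        linear_combination (7 * x) * hpz + (7 * p * x + p * m + 7 * (ν : ℤ_[p]) + 6) * hx
      have m2 : p * (2 * m + 1) = 2 * (p * m) + p := by ring
      have m3 : p * (3 * m + 2) = 3 * (p * m) + 2 * p := by ring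
      have e1 := hg.1 _ _ (6 * ν + 5) (3 * n + 1) (by omega) d6
      have e2 := hg.1 _ _ (10 * ν + 9) (n + 1) (by omega) d2
      have e3 := hg.1 _ _ (2 * ν + 1) (2 * n) (by omega) d10
      rw [div_EvFx (a := 3 * m + 2) (b := 3 * ν + 2) (by omega) (by omega), c6, rising_succ',
        rising_succ', rising_succ', show (1 / 2 : ℚ_[p]) + 1 = 3 / 2 by norm_num,
        show (3 / 2 : ℚ_[p]) + 1 = 5 / 2 by norm_num] at e1
      rw [div_EvFx (a := m) (b := 9 * ν + 8) (by omega) (by omega), c2, c10, rising_succ',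
        show (1 / 6 : ℚ_[p]) + 1 = 7 / 6 by norm_num] at e2
      rw [div_EvFx (a := 2 * m + 1) (b := 12 * ν + 10) (by omega) (by omega), c10, c2,
        rising_succ', show (1 / 6 : ℚ_[p]) + 1 = 7 / 6 by norm_num] at e3
      rw [show bb ℚ_[p] 7 m = (18 * rising (5 / 2) (3 * m) /
          (rising (5 / 6) m * rising (7 / 6) (2 * m))) ^ 2 by simp [bb],
        show bb ℚ_[p] 5 n = (3 * rising (3 / 2) (3 * n) /
          (rising (7 / 6) n * rising (5 / 6) (2 * n))) ^ 2 by simp [bb]] at h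
      push_cast at e1 e2 e3
      simp only [hz]
      refine alg_EvFx (P := (p : ℚ_[p]) ^ m) (sq_EvFx (3 * n + 1)) (sq_EvFx (n + 1))
        (sq_EvFx (2 * n)) (pow_ne_zero _ hp0) hp0 (n1 _) (n2 _) (n3 _) (n3 _) (n2 _) ?_ e2 ?_ h
      · rw [e1]; ring
      · rw [e3]; ring) 0
  have f3 := hg.2 _ _ (9 * ν + 8) (by omega) d3
  have f10 := hg.2 _ _ (2 * ν + 1) (by omega) d10
  have hh : (gammaP p (6 * x) : ℚ_[p]) ^ 2 = (-1) ^ ((p + 1) / 2) := by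
    exact_mod_cast congrArg (fun z : ℤ_[p] => (z : ℚ_[p]))
      (gammaP_half hp (hf := 6 * x) (by linear_combination hx))
  simp only [mul_zero, zero_mul, sub_zero] at key
  rw [show 10 * x + 2 * (-5 * x) = 0 by ring, gammaP_zero hp,
    show 2 * x + (-5 * x + 1) = 1 - 3 * x by ring,
    show 6 * x + (3 * (-5 * x) + 1) = 3 * x by linear_combination -hx, PadicInt.coe_one] at key
  rw [show 1 - 10 * x = 2 * x by linear_combination -hx] at f10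
  have g3 := sq_EvFx (p := p) (9 * ν + 8 + 1)
  have g10 := sq_EvFx (p := p) (2 * ν + 1 + 1)
  have g6 := sq_EvFx (p := p) ((p + 1) / 2)
  rw [← f3] at g3
  rw [← f10] at g10
  rw [← hh] at g6
  rw [if_pos (by norm_num), G1, ← hh]
  linear_combination ((gammaP p (6 * x) : ℚ_[p]) ^ 2 * (gammaP p (3 * x) : ℚ_[p]) ^ 2) * key -
    16 * s 0 * ((gammaP p (6 * x) : ℚ_[p]) ^ 2) ^ 2 * g3 - 16 * s 0 * g6 +
    (p : ℚ_[p]) ^ 2 * (gammaP p (6 * x) : ℚ_[p]) ^ 2 * (gammaP p (3 * x) : ℚ_[p]) ^ 4 * g10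

end Pool.Agent.MP_54d89f_nt.Dx
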