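import Pool.Agent.MP_54d89f_nt.Dx.St

namespace Pool.Agent.MP_54d89f_nt.Dx

open Finset Pool.Agent.MP_030fd4_nt Pool.Agent.MP_54d89f_nt.Dw

variable {p : Nat} [Fact p.Prime]

theorem alg_EvGx {K : Type*} [Field K] {s P a b c A B C g1 g2 g3 G1 G2 G3 : K}
    (ha : a ≠ 0) (hb : b ≠ 0) (hc : c ≠ 0) (hB : B ≠ 0) (hC : C ≠ 0) (hP : P ≠ 0)
    (h1 : (A * g1) ^ 2 = (G1 * P ^ 3 * a) ^ 2) (h2 : (B * g2) ^ 2 = (G2 * P * b) ^ 2)
    (h3 : (C * g3) ^ 2 = (G3 * P ^ 2 * c) ^ 2)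
    (h : s * (a / (b * c)) ^ 2 = (18 * A / (B * C)) ^ 2) :
    s * (g1 * G2 * G3) ^ 2 = 324 * (G1 * g2 * g3) ^ 2 := by
  rw [div_pow, div_pow, ← mul_div_assoc, div_eq_div_iff (pow_ne_zero _ (mul_ne_zero hb hc))
    (pow_ne_zero _ (mul_ne_zero hB hC))] at h
  have e1 : s * a ^ 2 * (B * g2) ^ 2 * (C * g3) ^ 2 * g1 ^ 2 =
      324 * (A * g1) ^ 2 * (b * c) ^ 2 * (g2 * g3) ^ 2 := by
    linear_combination (g1 * g2 * g3) ^ 2 * h
  rw [h1, h2, h3] at e1
  have hX : (a * b * c * P ^ 3) ^ 2 ≠ 0 := by simp [ha, hb, hc, hP]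
  apply mul_left_cancel₀ hX
  linear_combination e1

theorem gam_EvGx (hg : GamSt p) (x y : ℤ_[p]) (r n L j : ℕ) (hr : r < p) (hj : j < p)
    (h : x + r = p * y) (hL : n + p = p * L + j + r + 1) :
    (rising (x : ℚ_[p]) n * (gammaP p x : ℚ_[p])) ^ 2 =
      ((gammaP p (x + n) : ℚ_[p]) * (p : ℚ_[p]) ^ L * rising (y : ℚ_[p]) L) ^ 2 := by
  have e : (n + p - 1 - r) / p = L := by
    rw [show n + p - 1 - r = p * L + j by omega, Nat.mul_add_div (by omega),
      Nat.div_eq_of_lt hj, add_zero]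
  have := hg.1 x y r n hr h
  rw [e] at this
  have s : ((-1 : ℚ_[p]) ^ n) ^ 2 = 1 := by rw [← pow_mul, pow_mul']; norm_num
  rw [this, mul_assoc, mul_assoc, mul_pow, s, one_mul, mul_assoc]

theorem ref_EvGx (hg : GamSt p) (x y z : ℤ_[p]) (r : ℕ) (hr : r < p) (h : x + r = p * y)
    (hz : 1 - x = z) : ((gammaP p x : ℚ_[p]) * (gammaP p z : ℚ_[p])) ^ 2 = 1 := by
  rw [← hz, hg.2 x y r hr h, ← pow_mul, pow_mul']
  norm_num

theorem ne_EvGx (u n : ℕ) {y : ℚ_[p]} (hu : 0 < u) (hy : 6 * y = u) : rising y n ≠ 0 := by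
  refine prod_ne_zero_iff.2 fun i _ h => ?_
  have : ((u + 6 * i : ℕ) : ℚ_[p]) ≠ 0 := by exact_mod_cast (by omega : u + 6 * i ≠ 0)
  apply this
  push_cast
  linear_combination 6 * h - hy

theorem ev71 (hp : 5 ≤ p) (hg : GamSt p) (hd : DenseG p) : Ev8 p 7 1 1 16 := by
  intro μ x s hμ h12 hs h
  have hν : p = 12 * μ + 7 := by omega
  have hpz : (p : ℤ_[p]) = 12 * μ + 7 := by exact_mod_cast congrArg (Nat.cast : ℕ → ℤ_[p]) hν
  have hp0 : (p : ℚ_[p]) ≠ 0 := by exact_mod_cast (by omega : p ≠ 0)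
  have hx : (x : ℚ_[p]) = 1 / 12 := by
    have h : (((12 : ℕ) * x : ℤ_[p]) : ℚ_[p]) = 1 := by rw [Nat.cast_ofNat, h12]; rfl
    rw [PadicInt.coe_mul, PadicInt.coe_natCast] at h
    push_cast at h
    linear_combination h / 12
  have cx : ∀ k : ℕ, (((k : ℤ_[p]) * x : ℤ_[p]) : ℚ_[p]) = k / 12 := fun k => by
    rw [PadicInt.coe_mul, PadicInt.coe_natCast, hx]; ring
  have c2 : ((2 * x : ℤ_[p]) : ℚ_[p]) = 1 / 6 := (cx 2).trans (by norm_num)
  have c6 : ((6 * x : ℤ_[p]) : ℚ_[p]) = 1 / 2 := (cx 6).trans (by norm_num)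
  have c10 : ((10 * x : ℤ_[p]) : ℚ_[p]) = 5 / 6 := (cx 10).trans (by norm_num)
  have c14 : ((14 * x : ℤ_[p]) : ℚ_[p]) = 7 / 6 := (cx 14).trans (by norm_num)
  have c30 : ((30 * x : ℤ_[p]) : ℚ_[p]) = 5 / 2 := (cx 30).trans (by norm_num)
  have hc : Continuous fun y : ℤ_[p] => (gammaP p y : ℚ_[p]) := cont_coe.comp (gammaP_cont hp)
  set G : ℤ_[p] → ℚ_[p] := fun y => (gammaP p y : ℚ_[p]) with hG
  have key := hd 2
    (fun t => s t * (G (30 * x) * G (10 * x + (-7 * x - p * t * (6 * x))) *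
      G (14 * x + 2 * (-7 * x - p * t * (6 * x)))) ^ 2)
    (fun t => 324 * (G (30 * x + 3 * (-7 * x - p * t * (6 * x))) * G (10 * x) * G (14 * x)) ^ 2)
    (-2 * x) (fun c => by have := Nat.le_of_dvd two_pos c; omega) (by fun_prop) (by fun_prop)
    (fun m => ?_) 0
  · have r1 := ref_EvGx hg (2 * x) (2 * x) (10 * x) (2 * μ + 1) (by omega)
      (by rw [hpz]; push_cast; linear_combination (-(2 * (μ : ℤ_[p]) + 1)) * h12)
      (by linear_combination -h12)
    have r2 := ref_EvGx hg (3 * x) (9 * x) (9 * x) (9 * μ + 5) (by omega)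
      (by rw [hpz]; push_cast; linear_combination (-(9 * (μ : ℤ_[p]) + 5)) * h12)
      (by linear_combination -h12)
    have s1 := gam_EvGx hg (2 * x) (2 * x) (2 * μ + 1) 1 0 (10 * μ + 6) (by omega) (by omega)
      (by rw [hpz]; push_cast; linear_combination (-(2 * (μ : ℤ_[p]) + 1)) * h12) (by omega)
    have s2 := gam_EvGx hg (6 * x) (6 * x) (6 * μ + 3) 2 0 (6 * μ + 5) (by omega) (by omega)
      (by rw [hpz]; push_cast; linear_combination (-(6 * (μ : ℤ_[p]) + 3)) * h12) (by omega)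
    have g0 : G 0 = 1 := by simp only [hG, gammaP_zero hp]; rfl
    have gh : G (6 * x) ^ 2 = (-1) ^ ((p + 1) / 2) := by
      have := gammaP_half hp (hf := 6 * x) (by linear_combination h12)
      simp only [hG]
      exact_mod_cast congrArg (fun y : ℤ_[p] => (y : ℚ_[p])) this
    rw [show 2 * x + ((1 : ℕ) : ℤ_[p]) = 14 * x by push_cast; linear_combination -h12, c2] at s1
    rw [show 6 * x + ((2 : ℕ) : ℤ_[p]) = 30 * x by push_cast; linear_combination -2 * h12,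
      c6] at s2
    simp only [rising, prod_range_succ, prod_range_zero] at s1 s2
    push_cast at s1 s2
    beta_reduce at key
    rw [show 10 * x + (-7 * x - p * 0 * (6 * x)) = 3 * x by ring,
      show 14 * x + 2 * (-7 * x - p * 0 * (6 * x)) = 0 by ring,
      show 30 * x + 3 * (-7 * x - p * 0 * (6 * x)) = 9 * x by ring, g0] at key
    have t1 : G (14 * x) ^ 2 = 1 / 36 * G (2 * x) ^ 2 := by
      simp only [hG]; linear_combination -s1
    have t2 : G (30 * x) ^ 2 = 9 / 16 * G (6 * x) ^ 2 := by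
      simp only [hG]; linear_combination -s2
    change (G (2 * x) * G (10 * x)) ^ 2 = 1 at r1
    change (G (3 * x) * G (9 * x)) ^ 2 = 1 at r2
    rw [if_neg (by norm_num), G1, ← gh]
    change G (6 * x) ^ 2 * G (3 * x) ^ 4 * s 0 = 16
    simp only [mul_pow] at key r1 r2
    rw [t1, t2] at key
    linear_combination 16 / 9 * G (3 * x) ^ 2 * key +
      16 * (G (3 * x) ^ 2 * G (9 * x) ^ 2) * r1 + 16 * r2
  · have hz : ((p * m + μ : ℕ) : ℤ_[p]) = -7 * x - p * (-2 * x - (2 : ℕ) * m) * (6 * x) := by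
      push_cast
      rw [hpz]
      linear_combination (-(μ : ℤ_[p]) - (12 * μ + 7) * (x + m)) * h12
    have h1 := gam_EvGx hg (30 * x) (6 * x) (6 * μ + 1) (3 * (p * m + μ)) (3 * m) (9 * μ + 5)
      (by omega) (by omega)
      (by rw [hpz]; push_cast; linear_combination (-(6 * (μ : ℤ_[p]) + 1)) * h12)
      (by rw [hν]; ring)
    have h2 := gam_EvGx hg (10 * x) (10 * x) (10 * μ + 5) (p * m + μ) m (3 * μ + 1)
      (by omega) (by omega)
      (by rw [hpz]; push_cast; linear_combination (-(10 * (μ : ℤ_[p]) + 5)) * h12)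
      (by rw [hν]; ring)
    have h3 := gam_EvGx hg (14 * x) (2 * x) (2 * μ) (2 * (p * m + μ)) (2 * m) (12 * μ + 6)
      (by omega) (by omega)
      (by rw [hpz]; push_cast; linear_combination (-(2 * (μ : ℤ_[p]))) * h12)
      (by rw [hν]; ring)
    have hm := h m
    rw [Nat.cast_mul, hz, pow_mul' _ 3 m, c30, c6] at h1
    rw [hz, c10] at h2
    rw [Nat.cast_mul, hz, pow_mul' _ 2 m, c14, c2] at h3
    rw [show -2 * ((1 : ℕ) : ℤ_[p]) * x - 2 * m = -2 * x - (2 : ℕ) * m by push_cast; ring, bb,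
      if_pos rfl, bb, if_neg (by norm_num), if_neg (by norm_num), if_pos rfl] at hm
    exact alg_EvGx (ne_EvGx 3 _ (by omega) (by norm_num)) (ne_EvGx 5 _ (by omega) (by norm_num))
      (ne_EvGx 1 _ (by omega) (by norm_num)) (ne_EvGx 5 _ (by omega) (by norm_num))
      (ne_EvGx 7 _ (by omega) (by norm_num)) (pow_ne_zero _ hp0) h1 h2 h3 hm

end Pool.Agent.MP_54d89f_nt.Dx
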