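import Pool.Agent.MP_54d89f_nt.Dx.St

namespace Pool.Agent.MP_54d89f_nt.Dx

open Finset Pool.Agent.MP_030fd4_nt Pool.Agent.MP_54d89f_nt.Dw

variable {p : Nat} [Fact p.Prime]

theorem alg_EvHx {K : Type*} [Field K]
    {s κ ε1 ε2 ε3 P R1 R2 R3 T1 T2 T3 A1 A2 A3 g1 g2 g3 : K}
    (h1 : ε1 ^ 2 = 1) (h2 : ε2 ^ 2 = 1) (h3 : ε3 ^ 2 = 1) (hP : P ≠ 0) (r1 : R1 ≠ 0)
    (r2 : R2 ≠ 0) (r3 : R3 ≠ 0) (t2 : T2 ≠ 0) (t3 : T3 ≠ 0)
    (h : s * (R1 / (R2 * R3)) ^ 2 = (κ * T1 / (T2 * T3)) ^ 2)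
    (e1 : T1 * g1 = ε1 * A1 * P ^ 3 * R1) (e2 : T2 * g2 = ε2 * A2 * P * R2)
    (e3 : T3 * g3 = ε3 * A3 * P ^ 2 * R3) :
    s * (g1 * A2 * A3) ^ 2 = κ ^ 2 * (A1 * g2 * g3) ^ 2 := by
  have h' : s * R1 ^ 2 * (T2 * T3) ^ 2 = (κ * T1) ^ 2 * (R2 * R3) ^ 2 := by
    rw [div_pow, div_pow, ← mul_div_assoc, div_eq_div_iff (pow_ne_zero _ (mul_ne_zero r2 r3))
      (pow_ne_zero _ (mul_ne_zero t2 t3))] at h
    exact h
  have f1 : (T1 * g1) ^ 2 = (A1 * P ^ 3 * R1) ^ 2 := by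
    rw [e1]; linear_combination (A1 * P ^ 3 * R1) ^ 2 * h1
  have f2 : (T2 * g2) ^ 2 = (A2 * P * R2) ^ 2 := by
    rw [e2]; linear_combination (A2 * P * R2) ^ 2 * h2
  have f3 : (T3 * g3) ^ 2 = (A3 * P ^ 2 * R3) ^ 2 := by
    rw [e3]; linear_combination (A3 * P ^ 2 * R3) ^ 2 * h3
  have e : s * R1 ^ 2 * (T2 * g2) ^ 2 * (T3 * g3) ^ 2 * g1 ^ 2 =
      κ ^ 2 * (T1 * g1) ^ 2 * (R2 * R3) ^ 2 * (g2 * g3) ^ 2 := by
    linear_combination (g1 * g2 * g3) ^ 2 * h'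
  rw [f1, f2, f3] at e
  have hX : (R1 * R2 * R3 * P ^ 3) ^ 2 ≠ 0 := by simp [r1, r2, r3, hP]
  apply mul_left_cancel₀ hX
  linear_combination e

theorem gam_EvHx (hg : GamSt p) (x y : ℤ_[p]) (r n L j : ℕ) (hr : r < p) (hj : j < p)
    (h : x + r = p * y) (hL : n + p = p * L + j + r + 1) :
    rising (x : ℚ_[p]) n * (gammaP p x : ℚ_[p]) =
      (-1) ^ n * (gammaP p (x + n) : ℚ_[p]) * (p : ℚ_[p]) ^ L * rising (y : ℚ_[p]) L := by
  have e : (n + p - 1 - r) / p = L := by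
    rw [show n + p - 1 - r = p * L + j by omega, Nat.mul_add_div (by omega),
      Nat.div_eq_of_lt hj, add_zero]
  have := hg.1 x y r n hr h
  rwa [e] at this

theorem ne_EvHx (u n : ℕ) {y : ℚ_[p]} (hu : 0 < u) (hy : 6 * y = u) : rising y n ≠ 0 := by
  refine prod_ne_zero_iff.2 fun i _ h => ?_
  have : ((u + 6 * i : ℕ) : ℚ_[p]) ≠ 0 := by exact_mod_cast (by omega : u + 6 * i ≠ 0)
  apply this
  push_cast
  linear_combination 6 * h - hy

theorem sq_EvHx (n : ℕ) : ((-1 : ℚ_[p]) ^ n) ^ 2 = 1 := by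
  rw [← pow_mul, mul_comm, pow_mul]; norm_num

theorem evE1 (hp : 5 ≤ p) (hg : GamSt p) (hd : DenseG p) : Ev8 p 11 1 1 16 := by
  intro μ x s hμ h12 hs h
  have hν : p = 12 * μ + 11 := by omega
  have hpz : (p : ℤ_[p]) = 12 * μ + 11 := by exact_mod_cast congrArg (Nat.cast : ℕ → ℤ_[p]) hν
  have hp0 : (p : ℚ_[p]) ≠ 0 := by exact_mod_cast (by omega : p ≠ 0)
  have hx : (x : ℚ_[p]) = 1 / 12 := by
    have h : (((12 : ℕ) * x : ℤ_[p]) : ℚ_[p]) = 1 := by rw [Nat.cast_ofNat, h12]; rfl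
    rw [PadicInt.coe_mul, PadicInt.coe_natCast] at h
    push_cast at h
    linear_combination h / 12
  have cx : ∀ k : ℕ, (((k : ℤ_[p]) * x : ℤ_[p]) : ℚ_[p]) = k / 12 := fun k => by
    rw [PadicInt.coe_mul, PadicInt.coe_natCast, hx]; ring
  have c2 : ((2 * x : ℤ_[p]) : ℚ_[p]) = 1 / 6 := (cx 2).trans (by norm_num)
  have c6 : ((6 * x : ℤ_[p]) : ℚ_[p]) = 1 / 2 := (cx 6).trans (by norm_num)
  have c10 : ((10 * x : ℤ_[p]) : ℚ_[p]) = 5 / 6 := (cx 10).trans (by norm_num)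
  have c14 : ((14 * x : ℤ_[p]) : ℚ_[p]) = 7 / 6 := (cx 14).trans (by norm_num)
  have c22 : ((22 * x : ℤ_[p]) : ℚ_[p]) = 11 / 6 := (cx 22).trans (by norm_num)
  have c42 : ((42 * x : ℤ_[p]) : ℚ_[p]) = 7 / 2 := (cx 42).trans (by norm_num)
  have hc : Continuous fun y : ℤ_[p] => (gammaP p y : ℚ_[p]) := cont_coe.comp (gammaP_cont hp)
  set G : ℤ_[p] → ℚ_[p] := fun y => (gammaP p y : ℚ_[p]) with hG
  have key := hd 2
    (fun t => s t * (G (42 * x) * G (14 * x + (-11 * x - p * t * (6 * x))) *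
      G (22 * x + 2 * (-11 * x - p * t * (6 * x)))) ^ 2)
    (fun t => 54 ^ 2 * (G (42 * x + 3 * (-11 * x - p * t * (6 * x))) * G (14 * x) *
      G (22 * x)) ^ 2) (-2 * x)
    (fun e => by have := Nat.le_of_dvd two_pos e; omega)
    (by fun_prop) (by fun_prop) (fun m => ?_) 0
  · have r1 := hg.2 (2 * x) (10 * x) (10 * μ + 9) (by omega)
      (by rw [hpz]; push_cast; linear_combination (-(10 * (μ : ℤ_[p]) + 9)) * h12)
    have r2 := hg.2 (3 * x) (9 * x) (9 * μ + 8) (by omega)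
      (by rw [hpz]; push_cast; linear_combination (-(9 * (μ : ℤ_[p]) + 8)) * h12)
    have s1 := gam_EvHx hg (2 * x) (10 * x) (10 * μ + 9) 1 0 (2 * μ + 2) (by omega) (by omega)
      (by rw [hpz]; push_cast; linear_combination (-(10 * (μ : ℤ_[p]) + 9)) * h12) (by omega)
    have s2 := gam_EvHx hg (10 * x) (2 * x) (2 * μ + 1) 1 0 (10 * μ + 10) (by omega) (by omega)
      (by rw [hpz]; push_cast; linear_combination (-(2 * (μ : ℤ_[p]) + 1)) * h12) (by omega)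
    have s3 := gam_EvHx hg (6 * x) (6 * x) (6 * μ + 5) 3 0 (6 * μ + 8) (by omega) (by omega)
      (by rw [hpz]; push_cast; linear_combination (-(6 * (μ : ℤ_[p]) + 5)) * h12) (by omega)
    have g0 : G 0 = 1 := by simp only [hG, gammaP_zero hp]; rfl
    have gh : G (6 * x) ^ 2 = (-1) ^ ((p + 1) / 2) := by
      have := gammaP_half hp (hf := 6 * x) (by linear_combination h12)
      simp only [hG]
      exact_mod_cast congrArg (fun y : ℤ_[p] => (y : ℚ_[p])) this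
    rw [show 1 - 2 * x = 10 * x by linear_combination -h12] at r1
    rw [show 1 - 3 * x = 9 * x by linear_combination -h12] at r2
    rw [show 2 * x + ((1 : ℕ) : ℤ_[p]) = 14 * x by push_cast; linear_combination -h12, c2] at s1
    rw [show 10 * x + ((1 : ℕ) : ℤ_[p]) = 22 * x by push_cast; linear_combination -h12, c10] at s2
    rw [show 6 * x + ((3 : ℕ) : ℤ_[p]) = 42 * x by push_cast; linear_combination -3 * h12,
      c6] at s3
    simp only [rising, prod_range_succ, prod_range_zero] at s1 s2 s3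
    push_cast at s1 s2 s3
    rw [show 14 * x + (-11 * x - p * 0 * (6 * x)) = 3 * x by ring,
      show 22 * x + 2 * (-11 * x - p * 0 * (6 * x)) = 0 by ring,
      show 42 * x + 3 * (-11 * x - p * 0 * (6 * x)) = 9 * x by ring, g0] at key
    change G (2 * x) * G (10 * x) = _ at r1
    change G (3 * x) * G (9 * x) = _ at r2
    have t1 : G (14 * x) = -(1 / 6) * G (2 * x) := by simp only [hG]; linear_combination s1
    have t2 : G (22 * x) = -(5 / 6) * G (10 * x) := by simp only [hG]; linear_combination s2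
    have t3 : G (42 * x) = -(15 / 8) * G (6 * x) := by simp only [hG]; linear_combination s3
    have r1' : (G (2 * x) * G (10 * x)) ^ 2 = 1 := by rw [r1, sq_EvHx]
    have r2' : (G (3 * x) * G (9 * x)) ^ 2 = 1 := by rw [r2, sq_EvHx]
    rw [t1, t2, t3] at key
    rw [if_neg (by norm_num), G1, ← gh]
    change G (6 * x) ^ 2 * G (3 * x) ^ 4 * s 0 = 16
    have k2 : G (6 * x) ^ 2 * G (3 * x) ^ 4 * s 0 =
        16 * (G (3 * x) * G (9 * x)) ^ 2 * (G (2 * x) * G (10 * x)) ^ 2 := by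
      linear_combination (64 / 225 * G (3 * x) ^ 2) * key
    rw [k2, r1', r2']
    norm_num
  · have hz : ((p * m + μ : ℕ) : ℤ_[p]) =
        -11 * x - p * (-2 * x - ((2 : ℕ) : ℤ_[p]) * m) * (6 * x) := by
      push_cast
      rw [hpz]
      linear_combination (-((μ : ℤ_[p]) + (12 * μ + 11) * m + (12 * μ + 11) * x)) * h12
    have h1 := gam_EvHx hg (42 * x) (6 * x) (6 * μ + 2) (3 * (p * m + μ)) (3 * m) (9 * μ + 8)
      (by omega) (by omega)
      (by rw [hpz]; push_cast; linear_combination (-(6 * (μ : ℤ_[p]) + 2)) * h12)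
      (by rw [hν]; ring)
    have h2 := gam_EvHx hg (14 * x) (10 * x) (10 * μ + 8) (p * m + μ) m (3 * μ + 2)
      (by omega) (by omega)
      (by rw [hpz]; push_cast; linear_combination (-(10 * (μ : ℤ_[p]) + 8)) * h12)
      (by rw [hν]; ring)
    have h3 := gam_EvHx hg (22 * x) (2 * x) (2 * μ) (2 * (p * m + μ)) (2 * m) (12 * μ + 10)
      (by omega) (by omega)
      (by rw [hpz]; push_cast; linear_combination (-(2 * (μ : ℤ_[p]))) * h12)
      (by rw [hν]; ring)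
    have hm := h m
    rw [show -2 * ((1 : ℕ) : ℤ_[p]) * x - 2 * m = -2 * x - ((2 : ℕ) : ℤ_[p]) * m by
      push_cast; ring] at hm
    rw [Nat.cast_mul, hz, pow_mul' (p : ℚ_[p]), c42, c6, Nat.cast_ofNat (n := 3)] at h1
    rw [hz, c14, c10] at h2
    rw [Nat.cast_mul, hz, pow_mul' (p : ℚ_[p]), c22, c2, Nat.cast_ofNat (n := 2)] at h3
    rw [bb, bb, if_pos rfl, if_neg (by norm_num), if_neg (by norm_num),
      if_neg (by norm_num)] at hm
    exact alg_EvHx (P := (p : ℚ_[p]) ^ m) (sq_EvHx _) (sq_EvHx _) (sq_EvHx _) (pow_ne_zero _ hp0)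
      (ne_EvHx 3 _ (by omega) (by norm_num)) (ne_EvHx 5 _ (by omega) (by norm_num))
      (ne_EvHx 1 _ (by omega) (by norm_num)) (ne_EvHx 7 _ (by omega) (by norm_num))
      (ne_EvHx 11 _ (by omega) (by norm_num)) hm h1 h2 h3

end Pool.Agent.MP_54d89f_nt.Dx
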