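import Pool.Agent.MP_54d89f_nt.Dx.St

/-! Two-step recurrences on the third family. -/

namespace Pool.Agent.MP_54d89f_nt.Dx

open Finset Pool.Agent.MP_030fd4_nt Pool.Agent.MP_54d89f_nt.Dw

theorem cast_Fam3x {F : Fm} {v1 v2 : Fin 6 → ℤ} {q : ℕ} {κ : ℚ} (h : FamIII ℚ F v1 v2 q κ)
    (K : Type) [Field K] [CharZero K] : FamIII K F v1 v2 q (κ : K) := by
  intro n hn
  obtain ⟨h1, h2, h3, h4⟩ := h n hn
  have e : ∀ m : ℕ, ((-(2 * (m : ℚ) + 1) / q : ℚ) : K) = -(2 * (m : K) + 1) / q := fun m => by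
    push_cast; ring
  have ed : ∀ t : ℚ, ((dd t : ℚ) : K) = dd (t : K) := fun t => by simp [dd]
  have eu : ∀ t : ℚ, ((gu t : ℚ) : K) = gu (t : K) := fun t => by simp [gu]
  have ev : ∀ t : ℚ, ((gv t : ℚ) : K) = gv (t : K) := fun t => by simp [gv]
  rw [← e, ← e]
  simp only [← ed, ← eu, ← ev, ← Mg_cast]
  exact ⟨by exact_mod_cast h1, by exact_mod_cast h2, by exact_mod_cast h3, by exact_mod_cast h4⟩

theorem neg_Fam3x (n q : ℕ) (hq : 0 < q) : -(2 * (n : ℚ) + 1) / q < 0 :=
  div_neg_of_neg_of_pos (by have : (0 : ℚ) ≤ n := n.cast_nonneg; linarith) (by exact_mod_cast hq)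

theorem two_Fam3x {F : Fm} {v1 v2 : Fin 6 → ℤ} {s : ℕ} {c0 c1 c2 κ : ℚ} (hs : 0 < s)
    (k0 : κ * (c0 * c2) = 9) (k1 : κ * (c1 * c1) = 9)
    (h : ∀ (n : ℕ) (t : ℚ), 2 ≤ n → t = -(2 * (n : ℚ) + 1) / (s + s : ℕ) →
      c0 * t ^ 2 * Mg F w0 (t - 1) (n + s + 1) = 9 * Mg F v2 t (n + 1) ∧
      c1 * t ^ 2 * Mg F v1 (t - 1) (n + s + 1) = 3 * gu t * Mg F v1 t (n + 1) ∧
      c2 * t ^ 2 * Mg F v2 (t - 1) (n + s + 1) = gu t ^ 2 * Mg F w0 t (n + 1))
    (h0 : ∀ n : ℕ, 2 ≤ n → n < 2 + s → Mg F v1 (-(2 * (n : ℚ) + 1) / (s + s : ℕ)) (n + 1) ≠ 0) :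
    FamIII ℚ F v1 v2 (s + s) κ := by
  have hs' : (s : ℚ) ≠ 0 := by exact_mod_cast hs.ne'
  have e : ∀ n : ℕ, -(2 * ((n + s : ℕ) : ℚ) + 1) / (s + s : ℕ) =
      -(2 * (n : ℚ) + 1) / (s + s : ℕ) - 1 := fun n => by
    push_cast
    rw [← two_mul (s : ℚ)]
    field_simp
    ring
  have ne : ∀ n : ℕ, 2 ≤ n → Mg F v1 (-(2 * (n : ℚ) + 1) / (s + s : ℕ)) (n + 1) ≠ 0 := by
    intro n
    induction n using Nat.strong_induction_on with
    | _ n ih =>
      intro hn
      by_cases c : n < 2 + s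
      · exact h0 n hn c
      · obtain ⟨m, rfl⟩ : ∃ m, n = m + s := ⟨n - s, by omega⟩
        intro z
        have a := (h m _ (by omega) rfl).2.1
        have b := neg_Fam3x m (s + s) (by omega)
        rw [← e, z, mul_zero] at a
        refine mul_ne_zero (mul_ne_zero (by norm_num) ?_) (ih m (by omega) (by omega)) a.symm
        exact mul_ne_zero (by linarith) (by linarith)
  intro n hn
  obtain ⟨a0, a1, a2⟩ := h n _ hn rfl
  obtain ⟨b0, b1, b2⟩ := h (n + s) _ (by omega) (e n).symm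
  have e2 := e (n + s)
  rw [e n, add_assoc n s s] at e2
  rw [add_assoc n s s, ← e2] at b0 b1 b2
  refine ⟨?_, ?_, ?_, ne n hn⟩
  all_goals
    generalize -(2 * (n : ℚ) + 1) / (s + s : ℕ) = t at *
    simp only [dd, gu, gv] at *
  · linear_combination (κ * c2 * t ^ 2 / 9) * b0 + κ * a2 - (t ^ 2 * (t - 1) ^ 2 *
      Mg F w0 (-(2 * ((n + (s + s) : ℕ) : ℚ) + 1) / (s + s : ℕ)) (n + (s + s) + 1) / 9) * k0
  · linear_combination (κ * c1 * t ^ 2 / 9) * b1 + (κ * ((6 * t - 7) * (6 * t - 11)) / 3) * a1 -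
      (t ^ 2 * (t - 1) ^ 2 *
      Mg F v1 (-(2 * ((n + (s + s) : ℕ) : ℚ) + 1) / (s + s : ℕ)) (n + (s + s) + 1) / 9) * k1
  · linear_combination (κ * c0 * t ^ 2 / 9) * b2 +
      (κ * ((6 * t - 7) * (6 * t - 11)) ^ 2 / 9) * a0 - (t ^ 2 * (t - 1) ^ 2 *
      Mg F v2 (-(2 * ((n + (s + s) : ℕ) : ℚ) + 1) / (s + s : ℕ)) (n + (s + s) + 1) / 9) * k0

theorem fam3A (h : WZA8) (K : Type) [Field K] [CharZero K] :
    FamIII K FA8 wA1 wA8 4 (9 / 256) := by
  have a := cast_Fam3x (two_Fam3x (F := FA8) (v1 := wA1) (v2 := wA8) (s := 2) (c0 := 16)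
    (c1 := 16) (c2 := 16) (κ := 9 / 256) (by norm_num) (by norm_num) (by norm_num)
    (fun n t hn ht => by
      have hneg : t < 0 := ht ▸ neg_Fam3x n _ (by norm_num)
      push_cast at ht
      have hup : upg FA8 t (n : ℚ) = 0 := by
        rw [ht]; simp only [upg, FA8]; push_cast; ring
      have hg : GoodG FA8 t (n + 2) := fun k hk => by
        simp only [FA8]
        push_cast
        constructor
        · intro e
          have : (1 : ℚ) + 2 * k = 2 * n := by linarith
          have : 1 + 2 * k = 2 * n := by exact_mod_cast this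
          omega
        · intro e
          have : (k : ℚ) = 2 * n := by linarith
          have : k = 2 * n := by exact_mod_cast this
          omega
      have w := h t (n + 2) hneg hg (Or.inl (by push_cast; linarith))
      simp only [Mg_stable _ hup (by omega : n < n + 2 + 1)] at w
      exact w)
    (fun n h1 h2 => by
      interval_cases n <;>
        norm_num [Mg, fg, FA8, rising, sum_range_succ, prod_range_succ, Nat.factorial])) K
  push_cast at a
  exact a

theorem fam3B (h : WZB8) (K : Type) [Field K] [CharZero K] :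
    FamIII K FB8 wB1 wB8 2 (9 / 16384) := by
  have a := cast_Fam3x (two_Fam3x (F := FB8) (v1 := wB1) (v2 := wB8) (s := 1) (c0 := 256)
    (c1 := 128) (c2 := 64) (κ := 9 / 16384) (by norm_num) (by norm_num) (by norm_num)
    (fun n t hn ht => by
      have hneg : t < 0 := ht ▸ neg_Fam3x n _ (by norm_num)
      push_cast at ht
      have hup : upg FB8 t (n : ℚ) = 0 := by
        rw [ht]; simp only [upg, FB8]; push_cast; ring
      have hg : GoodG FB8 t (n + 1) := fun k hk => by
        simp only [FB8]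
        push_cast
        constructor
        · intro e
          have : (1 : ℚ) + 2 * k = 2 * n := by linarith
          have : 1 + 2 * k = 2 * n := by exact_mod_cast this
          omega
        · intro e
          have : (k : ℚ) = 2 * n := by linarith
          have : k = 2 * n := by exact_mod_cast this
          omega
      have w := h t (n + 1) hneg hg (Or.inl (by push_cast; linarith))
      simp only [Mg_stable _ hup (by omega : n < n + 1 + 1)] at w
      exact w)
    (fun n h1 h2 => by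
      interval_cases n
      norm_num [Mg, fg, FB8, rising, sum_range_succ, prod_range_succ, Nat.factorial])) K
  push_cast at a
  exact a

end Pool.Agent.MP_54d89f_nt.Dx
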