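import Pool.Agent.MP_54d89f_nt.Dx.St
import Pool.Agent.MP_54d89f_nt.Dw.Fam

namespace Pool.Agent.MP_54d89f_nt.Dx

open Finset Pool.Agent.MP_030fd4_nt Pool.Agent.MP_54d89f_nt.Dw

/-- one contiguity relation of the family with argument one quarter -/
def W_FamB4x (v : Fin 6 → ℤ) (g : ℚ → ℚ) : Prop :=
  ∀ (t : ℚ) (N : ℕ), t < 0 → GoodG FB4 t N → (t - 1 / 2 + N = 0 ∨ 3 * t - 5 / 2 + N = 0) →
    64 * t ^ 2 * Mg FB4 v (t - 1) (N + 1) = g t * Mg FB4 v t (N + 1)

theorem ind_FamB4x {v : Fin 6 → ℤ} {g : ℚ → ℚ} (h : W_FamB4x v g) (c : ℚ) (d : ℕ)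
    (hd : d = 0 ∨ d = 2) (hc : c = -(2 * d + 1) / 6) (A : ℕ → ℚ) (h0 : Mg FB4 v c (d + 1) = A 0)
    (hA : ∀ m : ℕ, 64 * (c - m) ^ 2 * A (m + 1) = g (c - m) * A m) (m N : ℕ)
    (hN : 3 * m + d < N) : Mg FB4 v (c - m) N = A m := by
  have hup : ∀ m : ℕ, upg FB4 (c - m) ((3 * m + d : ℕ) : ℚ) = 0 := fun m => by
    have : 1 / 2 + (FB4.a3 : ℚ) * (c - m) + ((3 * m + d : ℕ) : ℚ) = 0 := by
      rw [hc]; simp only [FB4]; push_cast; ring
    rw [upg, this, mul_zero]
  have hneg : ∀ m : ℕ, c - m < 0 := fun m => by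
    have : (0 : ℚ) ≤ m := m.cast_nonneg
    have : (0 : ℚ) ≤ d := d.cast_nonneg
    rw [hc]; linarith
  rw [Mg_stable v (hup m) hN]
  clear hN
  induction m with
  | zero => simpa using h0
  | succ m ih =>
    have hg : GoodG FB4 (c - m) (3 * m + d + 3) := fun k _ => by
      simp only [FB4]
      push_cast
      constructor
      · intro e
        have : (6 : ℚ) + 6 * k = 2 * d + 1 + 6 * m := by rw [hc] at e; linarith
        have : 6 + 6 * k = 2 * d + 1 + 6 * m := by exact_mod_cast this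
        omega
      · intro e
        have : (3 : ℚ) + 3 * k = 2 * d + 1 + 6 * m := by rw [hc] at e; linarith
        have : 3 + 3 * k = 2 * d + 1 + 6 * m := by exact_mod_cast this
        omega
    have w := h (c - m) (3 * m + d + 3) (hneg m) hg (Or.inr (by rw [hc]; push_cast; ring))
    rw [Mg_stable v (hup m) (by omega : 3 * m + d < 3 * m + d + 3 + 1), ih, ← hA m] at w
    have w' := mul_left_cancel₀ (mul_ne_zero (by norm_num) (pow_ne_zero 2 (hneg m).ne)) w
    rw [← w']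
    congr 1
    · push_cast; ring
    · ring

theorem key_FamB4x {v : Fin 6 → ℤ} {g : ℚ → ℚ} (h : W_FamB4x v g) (n : ℕ) (hn : 1 ≤ n) :
    (-1 / 2 - (n : ℚ)) ^ 2 * Mg FB4 v (-1 / 2 - ((n + 1 : ℕ) : ℚ)) (n + 1 + 1) =
      g (-1 / 2 - (n : ℚ)) / 64 * Mg FB4 v (-1 / 2 - (n : ℚ)) (n + 1) := by
  have hneg : -1 / 2 - (n : ℚ) < 0 := by
    have : (0 : ℚ) ≤ n := n.cast_nonneg
    linarith
  have hup : upg FB4 (-1 / 2 - (n : ℚ)) (n : ℚ) = 0 := by
    simp only [upg, FB4]; push_cast; ring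
  have hg : GoodG FB4 (-1 / 2 - (n : ℚ)) (n + 1) := fun k hk => by
    simp only [FB4]
    push_cast
    constructor
    · intro e
      have : (1 : ℚ) + 2 * k = 2 * n := by linarith
      have : 1 + 2 * k = 2 * n := by exact_mod_cast this
      omega
    · intro e
      have : (k : ℚ) = 2 * n := by linarith
      have : k = 2 * n := by exact_mod_cast this
      omega
  have w := h _ (n + 1) hneg hg (Or.inl (by push_cast; ring))
  rw [Mg_stable v hup (by omega : n < n + 1 + 1)] at w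
  have e : -1 / 2 - ((n + 1 : ℕ) : ℚ) = -1 / 2 - (n : ℚ) - 1 := by push_cast; ring
  rw [e]
  linear_combination w / 64

theorem famB4 (h : WZB4) (K : Type) [Field K] [CharZero K] : FamB4 K := by
  have k0 : W_FamB4x w0 fun t => 3 * (6 * t - 1) ^ 2 := fun t N a b c => (h t N a b c).1
  have k1 : W_FamB4x wB1 fun t => 3 * ((6 * t - 1) * (6 * t - 5)) :=
    fun t N a b c => (h t N a b c).2.1
  have k2 : W_FamB4x wB4 fun t => 3 * (6 * t - 5) ^ 2 := fun t N a b c => (h t N a b c).2.2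
  refine ⟨fun m N hN => ?_, fun m N hN => ?_, fun n hn => ?_⟩
  · have e : ((-1 / 6 - (m : ℚ) : ℚ) : K) = -1 / 6 - (m : K) := by push_cast; ring
    have h0 := ind_FamB4x k0 (-1 / 6) 0 (Or.inl rfl) (by norm_num) (fun m => (-1) ^ m * a0 ℚ m)
      (by simp [Mg, fg_zero, a0, rising]) (fun m => by
        have := (recQ_Fam m).2.2.1
        rw [nn_zero] at this
        linear_combination (-1) ^ (m + 1) * this) m N hN
    have h1 := ind_FamB4x k1 (-1 / 6) 0 (Or.inl rfl) (by norm_num) (fun _ => 0)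
      (by norm_num [Mg, fg_zero]) (fun m => by simp) m N hN
    have h2 := ind_FamB4x k2 (-1 / 6) 0 (Or.inl rfl) (by norm_num) (fun _ => 0)
      (by norm_num [Mg, fg_zero]) (fun m => by simp) m N hN
    rw [← e, ← Mg_cast, ← Mg_cast, ← Mg_cast, h0, h1, h2]
    simp [a0_cast_Fam]
  · have e : ((-5 / 6 - (m : ℚ) : ℚ) : K) = -5 / 6 - (m : K) := by push_cast; ring
    have h0 := ind_FamB4x k0 (-5 / 6) 2 (Or.inr rfl) (by norm_num) (fun _ => 0)
      (by norm_num [Mg, fg, FB4, rising, sum_range_succ, prod_range_succ]) (fun m => by simp)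
      m N hN
    have h1 := ind_FamB4x k1 (-5 / 6) 2 (Or.inr rfl) (by norm_num) (fun _ => 0)
      (by norm_num [Mg, fg, FB4, rising, sum_range_succ, prod_range_succ]) (fun m => by simp)
      m N hN
    have h2 := ind_FamB4x k2 (-5 / 6) 2 (Or.inr rfl) (by norm_num)
      (fun m => 4 * (-1) ^ m * a2 ℚ m)
      (by norm_num [Mg, fg, FB4, a2, rising, sum_range_succ, prod_range_succ]) (fun m => by
        have := (recQ_Fam m).2.2.2
        rw [nn_two] at this
        linear_combination 4 * (-1) ^ (m + 1) * this) m N hN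
    rw [← e, ← Mg_cast, ← Mg_cast, ← Mg_cast, h0, h1, h2]
    simp [a2_cast_Fam]
  · have hz : ∀ n : ℕ, Mg FB4 wB1 (-1 / 2 - ((n + 1 : ℕ) : ℚ)) (n + 1 + 1) ≠ 0 := fun n => by
      induction n with
      | zero => norm_num [Mg, fg, FB4, rising, sum_range_succ, prod_range_succ]
      | succ n ih =>
        intro e
        have := key_FamB4x k1 (n + 1) (by omega)
        rw [e, mul_zero] at this
        have a : (0 : ℚ) ≤ ((n + 1 : ℕ) : ℚ) := Nat.cast_nonneg _
        exact mul_ne_zero (div_ne_zero (mul_ne_zero (by norm_num)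
          (mul_ne_zero (by linarith) (by linarith))) (by norm_num)) ih this.symm
    have c0 := congrArg (fun q : ℚ => (q : K)) (key_FamB4x k0 n hn)
    have c1 := congrArg (fun q : ℚ => (q : K)) (key_FamB4x k1 n hn)
    have c2 := congrArg (fun q : ℚ => (q : K)) (key_FamB4x k2 n hn)
    simp only [Rat.cast_mul, Mg_cast] at c0 c1 c2
    have e : ∀ n : ℕ, ((-1 / 2 - (n : ℚ) : ℚ) : K) = -1 / 2 - (n : K) := fun n => by
      push_cast; ring
    rw [e, e] at c0 c1 c2
    refine ⟨?_, ?_, ?_, ?_⟩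
    · push_cast at c0 ⊢
      linear_combination c0
    · push_cast at c1 ⊢
      linear_combination c1
    · push_cast at c2 ⊢
      linear_combination c2
    · obtain ⟨n, rfl⟩ := Nat.exists_eq_add_of_le' hn
      rw [← e, ← Mg_cast]
      exact_mod_cast hz n

end Pool.Agent.MP_54d89f_nt.Dx
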