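import Pool.Agent.MP_54d89f_nt.Dx.St

namespace Pool.Agent.MP_54d89f_nt.Dx

open Finset Pool.Agent.MP_030fd4_nt Pool.Agent.MP_54d89f_nt.Dw

variable {p : Nat} [Fact p.Prime]

noncomputable def S_FamIAx (v : Fin 6 → ℤ) (n : ℕ) : ℚ :=
  Mg FA8 v (-(2 * (n : ℚ) + 1) / 6) (n + 1)

theorem up_FamIAx (n : ℕ) : upg FA8 (-(2 * (n : ℚ) + 1) / 6) (n : ℚ) = 0 := by
  simp only [upg, FA8]
  push_cast
  ring

theorem neg_FamIAx (n : ℕ) : -(2 * (n : ℚ) + 1) / 6 < 0 := by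
  have : (0 : ℚ) ≤ n := n.cast_nonneg
  linarith

theorem one_FamIAx (h : WZA8) (n : ℕ) (hn : n % 3 ≠ 1) (t : ℚ) (ht : t = -(2 * (n : ℚ) + 1) / 6) :
    16 * t ^ 2 * S_FamIAx w0 (n + 3) = 9 * S_FamIAx wA8 n ∧
    16 * t ^ 2 * S_FamIAx wA1 (n + 3) = 3 * gu t * S_FamIAx wA1 n ∧
    16 * t ^ 2 * S_FamIAx wA8 (n + 3) = gu t ^ 2 * S_FamIAx w0 n := by
  have hg : GoodG FA8 t (n + 3) := fun k _ => by
    simp only [FA8]
    push_cast
    constructor
    · intro e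
      have : (3 : ℚ) + 3 * k = 2 * n + 1 := by rw [ht] at e; linarith
      have : 3 + 3 * k = 2 * n + 1 := by exact_mod_cast this
      omega
    · intro e
      have : (3 : ℚ) + 3 * k = 2 * (2 * n + 1) := by rw [ht] at e; linarith
      have : 3 + 3 * k = 2 * (2 * n + 1) := by exact_mod_cast this
      omega
  have w := h t (n + 3) (ht ▸ neg_FamIAx n) hg (Or.inr (by rw [ht]; push_cast; ring))
  have e : -(2 * ((n + 3 : ℕ) : ℚ) + 1) / 6 = t - 1 := by rw [ht]; push_cast; ring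
  have st := fun v => Mg_stable v (up_FamIAx n) (by omega : n < n + 3 + 1)
  rw [← ht] at st
  simp only [st] at w
  simp only [S_FamIAx, e, ← ht]
  exact w

theorem two_FamIAx (h : WZA8) (n : ℕ) (hn : n % 3 ≠ 1) (t : ℚ) (ht : t = -(2 * (n : ℚ) + 1) / 6) :
    dd t * S_FamIAx w0 (n + 6) = 9 / 256 * gu t ^ 2 * S_FamIAx w0 n ∧
    dd t * S_FamIAx wA1 (n + 6) = 9 / 256 * (gu t * gv t) * S_FamIAx wA1 n ∧
    dd t * S_FamIAx wA8 (n + 6) = 9 / 256 * gv t ^ 2 * S_FamIAx wA8 n := by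
  obtain ⟨a1, a2, a3⟩ := one_FamIAx h n hn t ht
  obtain ⟨b1, b2, b3⟩ := one_FamIAx h (n + 3) (by omega) (t - 1) (by rw [ht]; push_cast; ring)
  have e : gu (t - 1) = gv t := by simp only [gu, gv]; ring
  rw [e, show n + 3 + 3 = n + 6 from rfl] at b2 b3
  rw [show n + 3 + 3 = n + 6 from rfl] at b1
  simp only [dd]
  refine ⟨?_, ?_, ?_⟩
  · linear_combination (t ^ 2 / 16) * b1 + (9 / 256) * a3
  · linear_combination (t ^ 2 / 16) * b2 + (3 * gv t / 256) * a2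
  · linear_combination (t ^ 2 / 16) * b3 + (gv t ^ 2 / 256) * a1

theorem ind_FamIAx (c d : ℕ) (hc : c = 2 * d + 1) (v : Fin 6 → ℤ) (g : ℚ → ℚ) (A : ℕ → ℚ)
    (hS : ∀ (m : ℕ) (t : ℚ), t = -(2 * ((6 * m + d : ℕ) : ℚ) + 1) / 6 →
      dd t * S_FamIAx v (6 * m + d + 6) = g t * S_FamIAx v (6 * m + d))
    (hA : ∀ m : ℕ, dd (-(c : ℚ) / 6 - 2 * m) * A (m + 1) = g (-(c : ℚ) / 6 - 2 * m) * A m)
    (h0 : S_FamIAx v d = A 0) (m N : ℕ) (hN : 6 * m + d < N) :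
    Mg FA8 v (-(c : ℚ) / 6 - 2 * m) N = A m := by
  have e : ∀ m : ℕ, -(c : ℚ) / 6 - 2 * m = -(2 * ((6 * m + d : ℕ) : ℚ) + 1) / 6 := fun m => by
    rw [hc]; push_cast; ring
  rw [e, Mg_stable v (up_FamIAx _) hN]
  clear hN
  change S_FamIAx v (6 * m + d) = A m
  induction m with
  | zero => simpa using h0
  | succ m ih =>
    have w := hS m _ (e m)
    rw [ih, ← hA m] at w
    have n1 := neg_FamIAx (6 * m + d)
    rw [← e] at n1
    have nz : dd (-(c : ℚ) / 6 - 2 * m) ≠ 0 :=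
      mul_ne_zero (pow_ne_zero 2 n1.ne) (pow_ne_zero 2 (by linarith))
    rw [show 6 * (m + 1) + d = 6 * m + d + 6 by ring]
    exact mul_left_cancel₀ nz w

theorem bb_FamIAx (K : Type) [Field K] [CharZero K] (c m : ℕ) : ((bb ℚ c m : ℚ) : K) = bb K c m := by
  unfold bb
  split_ifs <;> simp [rising_cast]

theorem famQ_FamIAx (h : WZA8) (hr : RecB ℚ) : FamI ℚ FA8 wA1 wA8 1 1 := by
  intro c m N hc hN
  have hd : c = 2 * (c / 2) + 1 := by omega
  have T := fun (m : ℕ) (t : ℚ) ht => two_FamIAx h (6 * m + c / 2) (by omega) t ht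
  have R := fun m => (hr c m hc).2
  simp only [one_pow, one_mul]
  refine ⟨ind_FamIAx c _ hd w0 (fun t => 9 / 256 * gu t ^ 2) (fun m => if c < 6 then bb ℚ c m else 0)
      (fun m t ht => (T m t ht).1) (fun m => ?_) ?_ m N hN,
    ind_FamIAx c _ hd wA1 (fun t => 9 / 256 * (gu t * gv t)) (fun _ => 0)
      (fun m t ht => (T m t ht).2.1) (fun m => by simp) ?_ m N hN,
    ind_FamIAx c _ hd wA8 (fun t => 9 / 256 * gv t ^ 2) (fun m => if c < 6 then 0 else bb ℚ c m)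
      (fun m t ht => (T m t ht).2.2) (fun m => ?_) ?_ m N hN⟩
  · have := R m
    split_ifs at this ⊢
    · exact this
    · simp
  · rcases hc with rfl | rfl | rfl | rfl <;>
      norm_num [S_FamIAx, Mg, fg, FA8, bb, rising, sum_range_succ, prod_range_succ, Nat.factorial]
  · rcases hc with rfl | rfl | rfl | rfl <;>
      norm_num [S_FamIAx, Mg, fg, FA8, rising, sum_range_succ, prod_range_succ, Nat.factorial]
  · have := R m
    split_ifs at this ⊢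
    · simp
    · exact this
  · rcases hc with rfl | rfl | rfl | rfl <;>
      norm_num [S_FamIAx, Mg, fg, FA8, bb, rising, sum_range_succ, prod_range_succ, Nat.factorial]

theorem famIA (h : WZA8) (K : Type) [Field K] [CharZero K] (hr : RecB ℚ) :
    FamI K FA8 wA1 wA8 1 1 := by
  intro c m N hc hN
  obtain ⟨h0, h1, h2⟩ := famQ_FamIAx h hr c m N hc hN
  have e : ((-(c : ℚ) / 6 - 2 * m : ℚ) : K) = -(c : K) / 6 - 2 * m := by push_cast; ring
  rw [← e, ← Mg_cast, ← Mg_cast, ← Mg_cast, h0, h1, h2]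
  split_ifs <;> simp [bb_FamIAx]

end Pool.Agent.MP_54d89f_nt.Dx
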