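import Pool.Agent.MP_54d89f_nt.Dx.St

namespace Pool.Agent.MP_54d89f_nt.Dx

open Finset Pool.Agent.MP_030fd4_nt Pool.Agent.MP_54d89f_nt.Dw

variable {p : Nat} [Fact p.Prime]

theorem up_FamIBx (d j : ℕ) (t : ℚ) (ht : t = -(2 * d + 1) / 6 - j) :
    upg FB8 t ((3 * j + d : ℕ) : ℚ) = 0 := by
  have : 1 / 2 + ((FB8.a3 : ℤ) : ℚ) * t + ((3 * j + d : ℕ) : ℚ) = 0 := by
    rw [ht]; simp only [FB8]; push_cast; ring
  rw [upg, this, mul_zero]

theorem step_FamIBx (h : WZB8) (d j : ℕ) (hd : d % 3 ≠ 1) (t : ℚ)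
    (ht : t = -(2 * d + 1) / 6 - j) : t < 0 ∧
    256 * t ^ 2 * Mg FB8 w0 (t - 1) (3 * (j + 1) + d + 1) = 9 * Mg FB8 wB8 t (3 * j + d + 1) ∧
    128 * t ^ 2 * Mg FB8 wB1 (t - 1) (3 * (j + 1) + d + 1) =
      3 * gu t * Mg FB8 wB1 t (3 * j + d + 1) ∧
    64 * t ^ 2 * Mg FB8 wB8 (t - 1) (3 * (j + 1) + d + 1) =
      gu t ^ 2 * Mg FB8 w0 t (3 * j + d + 1) := by
  have hneg : t < 0 := by
    have : (0 : ℚ) ≤ j := j.cast_nonneg
    have : (0 : ℚ) ≤ d := d.cast_nonneg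
    rw [ht]; linarith
  have hg : GoodG FB8 t (3 * (j + 1) + d) := fun k _ => by
    simp only [FB8]
    push_cast
    constructor
    · intro e
      have : (6 : ℚ) + 6 * k = 2 * d + 1 + 6 * j := by rw [ht] at e; linarith
      have : 6 + 6 * k = 2 * d + 1 + 6 * j := by exact_mod_cast this
      omega
    · intro e
      have : (3 : ℚ) + 3 * k = 2 * d + 1 + 6 * j := by rw [ht] at e; linarith
      have : 3 + 3 * k = 2 * d + 1 + 6 * j := by exact_mod_cast this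
      omega
  have w := h t (3 * (j + 1) + d) hneg hg (Or.inr (by rw [ht]; push_cast; ring))
  have hs := fun v => Mg_stable v (up_FamIBx d j t ht)
    (by omega : 3 * j + d < 3 * (j + 1) + d + 1)
  rw [hs, hs, hs] at w
  exact ⟨hneg, w⟩

theorem ind_FamIBx (h : WZB8) (hr : RecB ℚ) (c : ℕ) (hc : c = 1 ∨ c = 5 ∨ c = 7 ∨ c = 11)
    (m : ℕ) :
    Mg FB8 w0 (-(c : ℚ) / 6 - 2 * m) (6 * m + c / 2 + 1) =
      (if c < 6 then (1 / 2) ^ (6 * m + c / 2) * bb ℚ c m else 0) ∧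
    Mg FB8 wB1 (-(c : ℚ) / 6 - 2 * m) (6 * m + c / 2 + 1) = 0 ∧
    Mg FB8 wB8 (-(c : ℚ) / 6 - 2 * m) (6 * m + c / 2 + 1) =
      (if c < 6 then 0 else 2 * (1 / 2) ^ (6 * m + c / 2) * bb ℚ c m) := by
  induction m with
  | zero =>
    rcases hc with rfl | rfl | rfl | rfl <;>
      norm_num [Mg, fg, FB8, bb, rising, sum_range_succ, prod_range_succ, Nat.factorial]
  | succ m ih =>
    have hcd : (c : ℚ) = 2 * (c / 2 : ℕ) + 1 := by
      have : c = 2 * (c / 2) + 1 := by omega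
      exact_mod_cast this
    have hd : (c / 2) % 3 ≠ 1 := by omega
    have r := (hr c m hc).2
    have e1 : -(c : ℚ) / 6 - 2 * (m + 1 : ℕ) = -(c : ℚ) / 6 - 2 * m - 1 - 1 := by push_cast; ring
    obtain ⟨n1, a1, a2, a3⟩ := step_FamIBx h (c / 2) (2 * m) hd (-(c : ℚ) / 6 - 2 * m)
      (by rw [← hcd]; push_cast; ring)
    obtain ⟨n2, b1, b2, b3⟩ := step_FamIBx h (c / 2) (2 * m + 1) hd (-(c : ℚ) / 6 - 2 * m - 1)
      (by rw [← hcd]; push_cast; ring)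
    rw [show 3 * (2 * m) + c / 2 + 1 = 6 * m + c / 2 + 1 by ring] at a1 a2 a3
    rw [show 3 * (2 * m + 1 + 1) + c / 2 + 1 = 6 * (m + 1) + c / 2 + 1 by ring] at b1 b2 b3
    rw [e1, show (1 / 2 : ℚ) ^ (6 * (m + 1) + c / 2) = (1 / 2) ^ (6 * m + c / 2) / 64 by ring]
    generalize -(c : ℚ) / 6 - 2 * m = t at *
    have h0 : dd t ≠ 0 := mul_ne_zero (pow_ne_zero 2 n1.ne) (pow_ne_zero 2 n2.ne)
    have eg : gu (t - 1) = gv t := by unfold gu gv; ring
    rw [eg] at b2 b3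
    obtain ⟨i1, i2, i3⟩ := ih
    refine ⟨mul_left_cancel₀ h0 ?_, mul_left_cancel₀ h0 ?_, mul_left_cancel₀ h0 ?_⟩
    · split_ifs at r i1 ⊢
      · unfold dd at r ⊢
        linear_combination (t ^ 2 / 256) * b1 + (9 / 16384) * a3 + (9 / 16384 * gu t ^ 2) * i1 -
          ((1 / 2) ^ (6 * m + c / 2) / 64) * r
      · unfold dd
        linear_combination (t ^ 2 / 256) * b1 + (9 / 16384) * a3 + (9 / 16384 * gu t ^ 2) * i1
    · unfold dd
      linear_combination (t ^ 2 / 128) * b2 + (3 / 16384 * gv t) * a2 +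
        (9 / 16384 * gu t * gv t) * i2
    · split_ifs at r i3 ⊢
      · unfold dd
        linear_combination (t ^ 2 / 64) * b3 + (gv t ^ 2 / 16384) * a1 +
          (9 / 16384 * gv t ^ 2) * i3
      · unfold dd at r ⊢
        linear_combination (t ^ 2 / 64) * b3 + (gv t ^ 2 / 16384) * a1 +
          (9 / 16384 * gv t ^ 2) * i3 - ((1 / 2) ^ (6 * m + c / 2) / 32) * r

theorem bb_cast_FamIBx (K : Type) [Field K] [CharZero K] (c m : ℕ) :
    ((bb ℚ c m : ℚ) : K) = bb K c m := by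
  unfold bb
  split_ifs <;> simp [rising_cast]

theorem famIB (h : WZB8) (K : Type) [Field K] [CharZero K] (hr : RecB Rat) :
    FamI K FB8 wB1 wB8 (1 / 2) 2 := by
  intro c m N hc hN
  have hcd : (c : ℚ) = 2 * (c / 2 : ℕ) + 1 := by
    have : c = 2 * (c / 2) + 1 := by omega
    exact_mod_cast this
  have hu := up_FamIBx (c / 2) (2 * m) (-(c : ℚ) / 6 - 2 * m) (by rw [← hcd]; push_cast; ring)
  rw [show 3 * (2 * m) + c / 2 = 6 * m + c / 2 by ring] at hu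
  obtain ⟨h0, h1, h2⟩ := ind_FamIBx h hr c hc m
  have e : ((-(c : ℚ) / 6 - 2 * m : ℚ) : K) = -(c : K) / 6 - 2 * m := by push_cast; ring
  rw [← e, ← Mg_cast, ← Mg_cast, ← Mg_cast, Mg_stable _ hu hN, Mg_stable _ hu hN,
    Mg_stable _ hu hN, h0, h1, h2]
  split_ifs <;> simp [bb_cast_FamIBx]

end Pool.Agent.MP_54d89f_nt.Dx
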