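import Pool.Agent.MP_54d89f_nt.Dx.St

/-! The middle coefficient vanishes, abstract form. -/

namespace Pool.Agent.MP_54d89f_nt.Dx

open Finset Pool.Agent.MP_030fd4_nt Pool.Agent.MP_54d89f_nt.Dw

theorem iter_MidGx {K : Type*} [Field K] (κ : K) (g k u : ℕ → K)
    (hu : ∀ l, g l * u (l + 1) = κ * k l ^ 2 * u l) (n : ℕ) :
    (∏ l ∈ range n, g l) * u n = κ ^ n * (∏ l ∈ range n, k l) ^ 2 * u 0 := by
  induction n with
  | zero => simp
  | succ n ih =>
    rw [prod_range_succ, prod_range_succ]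
    linear_combination (∏ l ∈ range n, g l) * hu n + κ * k n ^ 2 * ih

variable {p : ℕ} [Fact p.Prime]

theorem midG (hd : DenseG p) : MidG p := by
  intro h μ κ y0 gi gj gk d W s τ x0 x1 t0 A B X Y Z hph hκ _ cj ck cd cW cs cτ hW hx0 hA hB hsB
    hX hY hZ hXe ht0 hk hd0
  have hcoe : Continuous (fun t : ℤ_[p] => (t : ℚ_[p])) := continuous_subtype_val
  obtain ⟨D, hD⟩ : ∃ D : ℤ_[p] → ℚ_[p], ∀ t,
      D t = ∏ l ∈ range p, d ((p : ℚ_[p]) * t - h * l) := ⟨_, fun _ => rfl⟩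
  have cD : Continuous D := by
    rw [funext hD]
    exact continuous_finsetProd _ fun l _ =>
      cd.comp ((continuous_const.mul hcoe).sub continuous_const)
  have cs1 : Continuous fun t : ℤ_[p] => s (t - h) := cs.comp (by fun_prop)
  have cτ1 : Continuous fun t : ℤ_[p] => τ (t - h) := cτ.comp (by fun_prop)
  have cj' := cj.comp hcoe
  have ck' := ck.comp hcoe
  have cd' := cd.comp hcoe
  have hco : ∀ (x : ℤ_[p]) (m : ℕ), ((x - h * m : ℤ_[p]) : ℚ_[p]) = (x : ℚ_[p]) - h * m :=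
    fun x m => by push_cast; rfl
  have hsu : ∀ (x : ℤ_[p]) (m : ℕ), x - h * ((m + 1 : ℕ) : ℤ_[p]) = x - h * m - h :=
    fun x m => by push_cast; ring
  have it : ∀ (U : ℕ → ℚ_[p]) (y : ℚ_[p]) (r : ℕ) (t : ℤ_[p]),
      (∀ r : ℕ, d (y - h * r) * U (r + 1) = κ * gi (y - h * r) ^ 2 * U r) →
      (p : ℚ_[p]) * t = y - h * r → D t * U (r + p) = κ ^ p * (gj t * W t) ^ 2 * U r := by
    intro U y r t hU e
    have hl : ∀ l : ℕ, (p : ℚ_[p]) * t - h * l = y - h * ((r + l : ℕ) : ℚ_[p]) := fun l => by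
      push_cast; linear_combination e
    rw [hD, ← hW]
    exact iter_MidGx κ (fun l => d ((p : ℚ_[p]) * t - h * l))
      (fun l => gi ((p : ℚ_[p]) * t - h * l)) (fun l => U (r + l))
      (fun l => by simp only [hl]; exact hU (r + l)) p
  have E1 : ∀ t : ℤ_[p], s (t - h) * (κ * gj t ^ 2) * D t =
      κ ^ p * (gj t * W t) ^ 2 * d t * s t := by
    refine hd h _ _ x0 hph ((cs1.mul (continuous_const.mul (cj'.pow 2))).mul cD)
      (((continuous_const.mul ((cj'.mul cW).pow 2)).mul cd').mul cs) fun m => ?_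
    have i1 := it A y0 (p * m + μ) (x0 - h * m) hA (by
      rw [hco]; push_cast; linear_combination hx0)
    have e1 := hsB m
    have e2 := hsB (m + 1)
    rw [hsu, show p * (m + 1) + μ = p * m + μ + p by ring] at e2
    obtain ⟨hB0, hB1⟩ := hB m
    rw [← e1, ← e2] at i1
    rw [← hco] at hB1
    apply mul_right_cancel₀ hB0
    linear_combination d ((x0 - h * m : ℤ_[p]) : ℚ_[p]) * i1 -
      s (x0 - h * m - h) * D (x0 - h * m) * hB1
  have E2 : ∀ t : ℤ_[p], τ (t - h) * (κ * gk t) * D t =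
      κ ^ p * (gj t * W t ^ 2) * d t * τ t := by
    refine hd h _ _ x1 hph ((cτ1.mul (continuous_const.mul ck')).mul cD)
      (((continuous_const.mul (cj'.mul (cW.pow 2))).mul cd').mul cτ) fun m => ?_
    have i1 := it X ((p : ℚ_[p]) * x1) (p * m) (x1 - h * m) hX (by
      rw [hco]; push_cast; ring)
    have e1 := hXe m
    have e2 := hXe (m + 1)
    rw [hsu, show p * (m + 1) = p * m + p by ring] at e2
    obtain ⟨hZ0, hj0, hZ1⟩ := hZ m
    have hY1 := hY m
    have e3 := E1 (x1 - h * m)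
    rw [e1, e2] at i1
    rw [← hco] at hZ1 hY1 hj0
    apply mul_right_cancel₀ hZ0
    apply mul_left_cancel₀ hj0
    linear_combination d ((x1 - h * m : ℤ_[p]) : ℚ_[p]) * i1 -
      s (x1 - h * m - h) * D (x1 - h * m) * hY1 -
      τ (x1 - h * m - h) * D (x1 - h * m) * hZ1 - Y m * e3
  have step : ∀ m : ℕ, (gj ((t0 - h * m : ℤ_[p]) : ℚ_[p]) = 0 ∨ τ (t0 - h * m) = 0) →
      τ (t0 - h * m - h) = 0 := fun m hm => by
    have h1 : κ * gk ((t0 - h * m : ℤ_[p]) : ℚ_[p]) ≠ 0 := by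
      rw [hco]; exact mul_ne_zero hκ (hk m)
    have h2 : D (t0 - h * m) ≠ 0 := by
      rw [hD, hco]; exact prod_ne_zero_iff.2 fun l _ => hd0 m l
    have h0 := (E2 (t0 - h * m)).trans
      (by rcases hm with e | e <;> rw [e] <;> ring : _ = (0 : ℚ_[p]))
    exact (mul_eq_zero.1 ((mul_eq_zero.1 h0).resolve_right h2)).resolve_right h1
  have all : ∀ m : ℕ, τ (t0 - h * m - h) = 0 := fun m => by
    induction m with
    | zero => exact step 0 (Or.inl (by simpa using ht0))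
    | succ m ih => exact step (m + 1) (Or.inr (by rw [hsu]; exact ih))
  refine hd h τ (fun _ => 0) (t0 - h) hph cτ continuous_const fun m => ?_
  rw [← all m]
  congr 1
  ring

end Pool.Agent.MP_54d89f_nt.Dx
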