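import Pool.Agent.MP_54d89f_nt.Dx.St

namespace Pool.Agent.MP_54d89f_nt.Dx

open Finset Pool.Agent.MP_030fd4_nt Pool.Agent.MP_54d89f_nt.Dw

variable {p : Nat} [Fact p.Prime]

theorem pos_RecBx {x : ℚ} (hx : 0 < x) (k : ℕ) : rising x k ≠ 0 :=
  (prod_pos fun i _ => by positivity).ne'

theorem recQ_RecBx : RecB ℚ := by
  intro c m hc
  have e3 : 3 * (m + 1) = 3 * m + 1 + 1 + 1 := by ring
  have e2 : 2 * (m + 1) = 2 * m + 1 + 1 := by ring
  rcases hc with rfl | rfl | rfl | rfl
  · have q0 := pos_RecBx (x := 1 / 2) (by norm_num) (3 * m)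
    have q1 := pos_RecBx (x := 5 / 6) (by norm_num) m
    have q2 := pos_RecBx (x := 1 / 6) (by norm_num) (2 * m)
    simp only [bb, if_true, e3, e2, rising_succ, dd, gu, (by norm_num : 1 < 6)]
    generalize rising (1 / 2 : ℚ) (3 * m) = A at *
    generalize rising (5 / 6 : ℚ) m = B at *
    generalize rising (1 / 6 : ℚ) (2 * m) = C at *
    refine ⟨by positivity, ?_⟩
    push_cast
    field_simp
    ring
  · have q0 := pos_RecBx (x := 3 / 2) (by norm_num) (3 * m)
    have q1 := pos_RecBx (x := 7 / 6) (by norm_num) m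
    have q2 := pos_RecBx (x := 5 / 6) (by norm_num) (2 * m)
    simp only [bb, if_true, e3, e2, rising_succ, dd, gu, (by norm_num : 5 < 6),
      if_neg (by norm_num : ¬ 5 = 1)]
    generalize rising (3 / 2 : ℚ) (3 * m) = A at *
    generalize rising (7 / 6 : ℚ) m = B at *
    generalize rising (5 / 6 : ℚ) (2 * m) = C at *
    refine ⟨by positivity, ?_⟩
    push_cast
    field_simp
    ring
  · have q0 := pos_RecBx (x := 5 / 2) (by norm_num) (3 * m)
    have q1 := pos_RecBx (x := 5 / 6) (by norm_num) m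
    have q2 := pos_RecBx (x := 7 / 6) (by norm_num) (2 * m)
    simp only [bb, if_true, e3, e2, rising_succ, dd, gv, if_neg (by norm_num : ¬ 7 < 6),
      if_neg (by norm_num : ¬ 7 = 1), if_neg (by norm_num : ¬ 7 = 5)]
    generalize rising (5 / 2 : ℚ) (3 * m) = A at *
    generalize rising (5 / 6 : ℚ) m = B at *
    generalize rising (7 / 6 : ℚ) (2 * m) = C at *
    refine ⟨by positivity, ?_⟩
    push_cast
    field_simp
    ring
  · have q0 := pos_RecBx (x := 7 / 2) (by norm_num) (3 * m)
    have q1 := pos_RecBx (x := 7 / 6) (by norm_num) m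
    have q2 := pos_RecBx (x := 11 / 6) (by norm_num) (2 * m)
    simp only [bb, e3, e2, rising_succ, dd, gv, if_neg (by norm_num : ¬ 11 < 6),
      if_neg (by norm_num : ¬ 11 = 1), if_neg (by norm_num : ¬ 11 = 5),
      if_neg (by norm_num : ¬ 11 = 7)]
    generalize rising (7 / 2 : ℚ) (3 * m) = A at *
    generalize rising (7 / 6 : ℚ) m = B at *
    generalize rising (11 / 6 : ℚ) (2 * m) = C at *
    refine ⟨by positivity, ?_⟩
    push_cast
    field_simp
    ring

theorem cast_RecBx (K : Type) [Field K] [CharZero K] (c m : ℕ) :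
    ((bb ℚ c m : ℚ) : K) = bb K c m := by
  unfold bb
  split_ifs <;> simp [rising_cast]

theorem recB (K : Type) [Field K] [CharZero K] : RecB K := by
  intro c m hc
  obtain ⟨h1, h2⟩ := recQ_RecBx c m hc
  refine ⟨by rw [← cast_RecBx]; exact_mod_cast h1, ?_⟩
  have h3 := congrArg (fun q : ℚ => (q : K)) h2
  simp only [Rat.cast_mul, cast_RecBx] at h3
  by_cases h : c < 6
  · simp only [if_pos h, dd, gu] at h3 ⊢
    push_cast at h3
    exact h3
  · simp only [if_neg h, dd, gv] at h3 ⊢
    push_cast at h3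
    exact h3

theorem denseG : DenseG p := by
  intro h φ ψ x hp h1 h2 H t
  have hu : IsUnit (h : ℤ_[p]) := by
    rw [PadicInt.isUnit_iff, PadicInt.norm_def, PadicInt.coe_natCast]
    exact norm_nat_unit hp
  obtain ⟨g, hg⟩ := hu.exists_right_inv
  have : ∀ s : ℤ_[p], φ (x - h * s) = ψ (x - h * s) := fun s =>
    PadicInt.denseRange_natCast.induction_on s
      (p := fun s : ℤ_[p] => φ (x - h * s) = ψ (x - h * s))
      (isClosed_eq (h1.comp (by fun_prop)) (h2.comp (by fun_prop))) H
  have e := this (g * (x - t))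
  rwa [← mul_assoc, hg, one_mul, sub_sub_cancel] at e

theorem linG : LinG p := by
  intro h c c' l0 hl e
  refine ⟨fun t => p * ∏ l ∈ (range p).erase l0, (6 * ((p : ℚ_[p]) * t - h * l) - c),
    ?_, fun t => ?_⟩
  · have hc : Continuous fun t : ℤ_[p] => (t : ℚ_[p]) := continuous_subtype_val
    fun_prop
  have e' : (c : ℚ_[p]) + 6 * h * l0 = p * c' := by exact_mod_cast e
  rw [← mul_prod_erase _ _ (mem_range.2 hl), ← mul_assoc]
  congr 1
  linear_combination -e'

end Pool.Agent.MP_54d89f_nt.Dx
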