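import Pool.Agent.MP_54d89f_nt.Dx.St
import Pool.Agent.MP_54d89f_nt.Dw.Str

/-! The structure theorem for weighted sums of a general deformed series. -/

namespace Pool.Agent.MP_54d89f_nt.Dx

open Finset Pool.Agent.MP_030fd4_nt Pool.Agent.MP_54d89f_nt.Dw

variable {p : ℕ} [Fact p.Prime]

/-- The bracket as a function of the offset. -/
def br_StrGx {A : Type*} [CommRing A] (F : Fm) (z h t i u : A) : A :=
  z * (h + F.a1 * t + (i + u)) * (h + F.a2 * t + (i + u)) * (h + F.a3 * t + (i + u)) -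
    (i + u + F.b1 * t) * (i + u + F.b2 * t) * u

def ca_StrGx {A : Type*} [CommRing A] (F : Fm) (z h t i : A) : A :=
  h * (br_StrGx F z h t i 2 - 2 * br_StrGx F z h t i 1 + br_StrGx F z h t i 0)

def cb_StrGx {A : Type*} [CommRing A] (F : Fm) (z h t i : A) : A :=
  br_StrGx F z h t i 1 - br_StrGx F z h t i 0

def cc_StrGx {A : Type*} [CommRing A] (F : Fm) (z h t i : A) : A := br_StrGx F z h t i 0

/-- The moments. -/
noncomputable def mu_StrGx {K : Type*} [Field K] (F : Fm) (t : K) (N n : ℕ) : K :=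
  ∑ m ∈ range N, fg F t m * ff (m : K) n

theorem tele_StrGx {K : Type*} [Field K] [CharZero K] (F : Fm) (t : K) (i : ℕ) :
    ∀ N : ℕ, GoodG F t N →
    ((F.z : K) - 1) * mu_StrGx F t N (i + 3) +
      ca_StrGx F (F.z : K) (1 / 2) t i * mu_StrGx F t N (i + 2) +
      cb_StrGx F (F.z : K) (1 / 2) t i * mu_StrGx F t N (i + 1) +
      cc_StrGx F (F.z : K) (1 / 2) t i * mu_StrGx F t N i =
      dng F t N * fg F t N * ff ((N : K) - 1) i := by
  intro N
  induction N with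
  | zero => intro _; simp [mu_StrGx, dng]
  | succ N ih =>
    intro h
    have i1 := ih (h.mono (Nat.le_succ N))
    have e3 := fg_succ_mul h
    have e4 : (N : K) * ff ((N : K) - 1) i = ff (N : K) i * (N - i) := by
      rw [← ff_succ', ff_succ]
    unfold mu_StrGx at i1 ⊢
    simp only [sum_range_succ]
    push_cast
    rw [e3, show (N : K) + 1 - 1 = N by ring]
    have a1 := ff_succ (N : K) i
    have a2 := ff_succ (N : K) (i + 1)
    have a3 := ff_succ (N : K) (i + 2)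
    rw [a3, a2, a1]
    simp only [ca_StrGx, cb_StrGx, cc_StrGx, br_StrGx, upg, dng] at i1 ⊢
    push_cast
    linear_combination i1 + fg F t N * ((N : K) + F.b1 * t) * ((N : K) + F.b2 * t) * e4

theorem mu_zero_StrGx {K : Type*} [Field K] [CharZero K] (F : Fm) (t : K) {N n : ℕ}
    (h : N ≤ n) : mu_StrGx F t N n = 0 :=
  sum_eq_zero fun m hm => by
    rw [ff_nat_eq_zero (by have := mem_range.1 hm; omega), mul_zero]

theorem mu0_StrGx {K : Type*} [Field K] (F : Fm) (t : K) (N : ℕ) :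
    Mg F w0 t N = mu_StrGx F t N 0 := by
  simp [mu_StrGx, Mg, ff]

theorem mu2_StrGx {K : Type*} [Field K] (F : Fm) (v : Fin 6 → ℤ) (t : K) (N : ℕ) :
    Mg F v t N = (v 2 * t ^ 2 + v 4 * t + v 5) * mu_StrGx F t N 0 +
      (v 0 + v 1 * t + v 3) * mu_StrGx F t N 1 + v 0 * mu_StrGx F t N 2 := by
  simp only [mu_StrGx, Mg, mul_sum, ← sum_add_distrib]
  refine sum_congr rfl fun m _ => ?_
  simp [ff, wt, prod_range_succ]; ring

theorem newton_StrGx {K : Type*} [Field K] [CharZero K] (F : Fm) (t : K) (N : ℕ) (c : ℕ → K) :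
    ∑ m ∈ range N, fg F t m * c m =
      ∑ n ∈ range N, ((fwdDiff 1)^[n] c 0 / (n.factorial : K)) * mu_StrGx F t N n := by
  have e : ∀ m ∈ range N, fg F t m * c m = ∑ n ∈ range N,
      ((fwdDiff 1)^[n] c 0 / (n.factorial : K)) * (fg F t m * ff (m : K) n) := by
    intro m hm
    have h := shift_eq_sum_fwdDiff_iter (1 : ℕ) c m 0
    simp only [smul_eq_mul, mul_one, zero_add, nsmul_eq_mul] at h
    rw [h, mul_sum]
    rw [← sum_subset (range_subset_range.2 (Nat.succ_le_of_lt (mem_range.1 hm)))]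
    · refine sum_congr rfl fun n _ => ?_
      have h1 : ((n.factorial : K)) ≠ 0 := by exact_mod_cast n.factorial_ne_zero
      rw [ff_nat]; field_simp
    · intro n _ hn
      rw [ff_nat_eq_zero (by simpa using hn)]; simp
  rw [sum_congr rfl e, sum_comm]
  refine sum_congr rfl fun n _ => ?_
  rw [← mul_sum, mu_StrGx]

/-- The reduction of one moment. -/
def Red_StrGx (p : ℕ) [Fact p.Prime] (F : Fm) (n : ℕ) : Prop :=
  ∃ al be ga : ℤ_[p] → ℤ_[p], Continuous al ∧ Continuous be ∧ Continuous ga ∧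
    ∀ (t : ℤ_[p]) (N : ℕ), GoodG F (t : ℚ_[p]) N → ∃ ρ : ℤ_[p], (n < 3 → ρ = 0) ∧
      mu_StrGx F (t : ℚ_[p]) N n = al t * mu_StrGx F (t : ℚ_[p]) N 0 +
        be t * mu_StrGx F (t : ℚ_[p]) N 1 + ga t * mu_StrGx F (t : ℚ_[p]) N 2 +
        dng F (t : ℚ_[p]) N * fg F (t : ℚ_[p]) N * ρ

theorem red_StrGx (hp : 5 ≤ p) (F : Fm) (hz : ‖(F.z : ℚ_[p])‖ = 1)
    (hz1 : ‖(F.z : ℚ_[p]) - 1‖ = 1) (n : ℕ) : Red_StrGx p F n := by
  obtain ⟨hf, h2⟩ := exists_half hp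
  have hh := coe_half h2
  obtain ⟨z, hzz⟩ : ∃ z : ℤ_[p], (z : ℚ_[p]) = F.z := ⟨⟨_, hz.le⟩, rfl⟩
  obtain ⟨th, h3⟩ : ∃ th : ℤ_[p], (th : ℚ_[p]) * ((F.z : ℚ_[p]) - 1) = 1 := by
    have h0 : (F.z : ℚ_[p]) - 1 ≠ 0 := fun h => by rw [h, norm_zero] at hz1; exact zero_ne_one hz1
    exact ⟨⟨((F.z : ℚ_[p]) - 1)⁻¹, by rw [norm_inv, hz1]; simp⟩, inv_mul_cancel₀ h0⟩
  have c2 := coe_nat_Str (p := p) 2
  have key : ∀ n, Red_StrGx p F n ∧ Red_StrGx p F (n + 1) ∧ Red_StrGx p F (n + 2) := by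
    intro n
    induction n with
    | zero =>
      exact ⟨⟨fun _ => 1, fun _ => 0, fun _ => 0, by fun_prop, by fun_prop, by fun_prop,
        fun t N _ => ⟨0, fun _ => rfl, by simp⟩⟩,
        ⟨fun _ => 0, fun _ => 1, fun _ => 0, by fun_prop, by fun_prop, by fun_prop,
        fun t N _ => ⟨0, fun _ => rfl, by simp⟩⟩,
        ⟨fun _ => 0, fun _ => 0, fun _ => 1, by fun_prop, by fun_prop, by fun_prop,
        fun t N _ => ⟨0, fun _ => rfl, by simp⟩⟩⟩
    | succ n ih =>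
      refine ⟨ih.2.1, ih.2.2, ?_⟩
      obtain ⟨⟨a0, b0, g0, x0, y0, z0, r0⟩, ⟨a1, b1, g1, x1, y1, z1, r1⟩,
        ⟨a2, b2, g2, x2, y2, z2, r2⟩⟩ := ih
      have ka : Continuous fun t : ℤ_[p] => ca_StrGx F z hf t n := by
        unfold ca_StrGx br_StrGx; fun_prop
      have kb : Continuous fun t : ℤ_[p] => cb_StrGx F z hf t n := by
        unfold cb_StrGx br_StrGx; fun_prop
      have kc : Continuous fun t : ℤ_[p] => cc_StrGx F z hf t n := by
        unfold cc_StrGx br_StrGx; fun_prop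
      refine ⟨fun t => -(th * (ca_StrGx F z hf t n * a2 t + cb_StrGx F z hf t n * a1 t +
          cc_StrGx F z hf t n * a0 t)),
        fun t => -(th * (ca_StrGx F z hf t n * b2 t + cb_StrGx F z hf t n * b1 t +
          cc_StrGx F z hf t n * b0 t)),
        fun t => -(th * (ca_StrGx F z hf t n * g2 t + cb_StrGx F z hf t n * g1 t +
          cc_StrGx F z hf t n * g0 t)),
        by fun_prop, by fun_prop, by fun_prop, fun t N hN => ?_⟩
      obtain ⟨ρ0, -, e0⟩ := r0 t N hN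
      obtain ⟨ρ1, -, e1⟩ := r1 t N hN
      obtain ⟨ρ2, -, e2⟩ := r2 t N hN
      obtain ⟨w, hw⟩ : ∃ w : ℤ_[p], (w : ℚ_[p]) = ff ((N : ℚ_[p]) - 1) n :=
        ⟨⟨_, norm_ff N n⟩, rfl⟩
      have eq : ∀ u : ℤ_[p], ((br_StrGx F z hf t n u : ℤ_[p]) : ℚ_[p]) =
          br_StrGx F (F.z : ℚ_[p]) (1 / 2) (t : ℚ_[p]) n u := fun u => by
        simp only [br_StrGx]; push_cast [hh, hzz]; rfl
      have ea : ((ca_StrGx F z hf t n : ℤ_[p]) : ℚ_[p]) =
          ca_StrGx F (F.z : ℚ_[p]) (1 / 2) (t : ℚ_[p]) n := by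
        simp only [ca_StrGx]; push_cast [c2, hh, eq]; rfl
      have eb : ((cb_StrGx F z hf t n : ℤ_[p]) : ℚ_[p]) =
          cb_StrGx F (F.z : ℚ_[p]) (1 / 2) (t : ℚ_[p]) n := by
        simp only [cb_StrGx]; push_cast [eq]; rfl
      have ec : ((cc_StrGx F z hf t n : ℤ_[p]) : ℚ_[p]) =
          cc_StrGx F (F.z : ℚ_[p]) (1 / 2) (t : ℚ_[p]) n := by
        simp only [cc_StrGx]; push_cast [eq]; rfl
      refine ⟨th * (w - (ca_StrGx F z hf t n * ρ2 + cb_StrGx F z hf t n * ρ1 +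
        cc_StrGx F z hf t n * ρ0)), fun h => by omega, ?_⟩
      have T := tele_StrGx F (t : ℚ_[p]) n N hN
      rw [← hw, ← ea, ← eb, ← ec] at T
      push_cast
      linear_combination (th : ℚ_[p]) * T - mu_StrGx F (t : ℚ_[p]) N (n + 3) * h3 -
        (th : ℚ_[p]) * (ca_StrGx F z hf t n : ℤ_[p]) * e2 -
        (th : ℚ_[p]) * (cb_StrGx F z hf t n : ℤ_[p]) * e1 -
        (th : ℚ_[p]) * (cc_StrGx F z hf t n : ℤ_[p]) * e0
  exact (key n).1

theorem str0_StrGx (hp : 5 ≤ p) (F : Fm) (hz : ‖(F.z : ℚ_[p])‖ = 1)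
    (hz1 : ‖(F.z : ℚ_[p]) - 1‖ = 1) (c : Fn p) (hc : ∀ E : Eps p, (G2 E).N c 1)
    (cc : ∀ m, Continuous (c m)) :
    ∃ s0 s1 s2 : ℤ_[p] → ℚ_[p], Continuous s0 ∧ Continuous s1 ∧ Continuous s2 ∧
      ∀ (t : ℤ_[p]) (N : ℕ), GoodG F (t : ℚ_[p]) N → ∃ R : ℤ_[p],
        ∑ m ∈ range N, fg F (t : ℚ_[p]) m * c m t =
          s0 t * mu_StrGx F (t : ℚ_[p]) N 0 + s1 t * mu_StrGx F (t : ℚ_[p]) N 1 +
            s2 t * mu_StrGx F (t : ℚ_[p]) N 2 +
            (p : ℚ_[p]) ^ 3 * (dng F (t : ℚ_[p]) N * fg F (t : ℚ_[p]) N) * R := by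
  obtain ⟨E⟩ := Eps.nonempty (p := p)
  choose al be ga h1 h2 h3 hr using red_StrGx (p := p) hp F hz hz1
  have hu := summable_geometric_of_lt_one E.pos.le E.lt
  have hb : ∀ n t (z : ℤ_[p]), ‖g_Str c n t * z‖ ≤ E.e ^ n := fun n t z =>
    (normGauge p).mul1' (g_bound_Str E hp (hc E) n n (fun v hv => by omega) t)
      (PadicInt.norm_le_one z)
  have hs : ∀ t (z : ℕ → ℤ_[p]), Summable fun n => g_Str c n t * z n := fun t z =>
    Summable.of_norm_bounded hu fun n => hb n t _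
  have hcn : ∀ z : ℕ → ℤ_[p] → ℤ_[p], (∀ n, Continuous (z n)) →
      Continuous fun t => ∑' n, g_Str c n t * z n t := fun z hz =>
    continuous_tsum (fun n => (g_cont_Str cc n).mul (cont_coe.comp (hz n))) hu
      fun n t => hb n t _
  refine ⟨_, _, _, hcn al h1, hcn be h2, hcn ga h3, fun t N hN => ?_⟩
  choose ρ hρ e using fun n => hr n t N hN
  obtain ⟨R, hR⟩ := exists_cube E (x := ∑' n, g_Str c n t * ρ n)
    (IsUltrametricDist.norm_tsum_le_of_forall_le fun n => by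
      rcases lt_or_ge n 3 with h | h
      · rw [hρ n h]; simpa using (pow_pos E.pos _).le
      · exact (normGauge p).mul1' (g_bound_Str E hp (hc E) n 13 (fun v hv => by omega) t)
          (PadicInt.norm_le_one _))
  refine ⟨R, ?_⟩
  have s1 : HasSum (fun n => g_Str c n t * mu_StrGx F (t : ℚ_[p]) N n)
      (∑ n ∈ range N, g_Str c n t * mu_StrGx F (t : ℚ_[p]) N n) :=
    hasSum_sum_of_ne_finset_zero fun n hn => by
      rw [mu_zero_StrGx _ _ (by simpa using hn), mul_zero]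
  have s2 := ((((hs t fun n => al n t).hasSum.mul_right (mu_StrGx F (t : ℚ_[p]) N 0)).add
    ((hs t fun n => be n t).hasSum.mul_right (mu_StrGx F (t : ℚ_[p]) N 1))).add
    ((hs t fun n => ga n t).hasSum.mul_right (mu_StrGx F (t : ℚ_[p]) N 2))).add
    ((hs t ρ).hasSum.mul_right (dng F (t : ℚ_[p]) N * fg F (t : ℚ_[p]) N))
  have s3 := s1.unique (s2.congr_fun fun n => by linear_combination g_Str c n t * e n)
  rw [newton_StrGx]
  simp only [← iter_apply]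
  refine s3.trans ?_
  rw [hR]
  ring

theorem strG (hp : 5 ≤ p) : StrG p := by
  intro F v1 v2 hz hz1 h0 h1 h2 n1 n2 c hc cc
  obtain ⟨s0, s1, s2, k0, k1, k2, hs⟩ := str0_StrGx hp F hz hz1 c hc cc
  have d1 : (v1 3 : ℚ_[p]) ≠ 0 := fun h => by rw [h, norm_zero] at n1; exact zero_ne_one n1
  have d2 : (v2 0 : ℚ_[p]) ≠ 0 := fun h => by rw [h, norm_zero] at n2; exact zero_ne_one n2
  have kt : Continuous fun t : ℤ_[p] => (t : ℚ_[p]) := cont_coe
  obtain ⟨τ2, c2, e2⟩ : ∃ τ : ℤ_[p] → ℚ_[p], Continuous τ ∧ ∀ t, s2 t = τ t * v2 0 :=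
    ⟨fun t => s2 t / v2 0, by fun_prop, fun t => by field_simp⟩
  obtain ⟨τ1, c1, e1⟩ : ∃ τ : ℤ_[p] → ℚ_[p], Continuous τ ∧
      ∀ t, s1 t = τ t * v1 3 + τ2 t * (v2 0 + v2 1 * t + v2 3) :=
    ⟨fun t => (s1 t - τ2 t * (v2 0 + v2 1 * t + v2 3)) / v1 3, by fun_prop,
      fun t => by field_simp; ring⟩
  refine ⟨![fun t => s0 t - τ1 t * (v1 4 * t + v1 5) - τ2 t * (v2 2 * t ^ 2 + v2 4 * t + v2 5),
    τ1, τ2], fun j => ?_, fun t N hN => ?_⟩
  · fin_cases j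
    · change Continuous fun t : ℤ_[p] => s0 t - τ1 t * (v1 4 * t + v1 5) -
        τ2 t * (v2 2 * t ^ 2 + v2 4 * t + v2 5)
      fun_prop
    · exact c1
    · exact c2
  obtain ⟨R, hR⟩ := hs t N hN
  refine ⟨R, ?_⟩
  rw [hR, mu0_StrGx, mu2_StrGx F v1, mu2_StrGx F v2, h0, h1, h2, e1, e2]
  simp only [Matrix.cons_val_zero, Matrix.cons_val_one, Matrix.cons_val]
  push_cast
  ring

end Pool.Agent.MP_54d89f_nt.Dx
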