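import Pool.Agent.MP_54d89f_nt.Dx.C8b
import Pool.Agent.MP_54d89f_nt.Dx.StrG
import Pool.Agent.MP_54d89f_nt.Dx.BlkG
import Pool.Agent.MP_54d89f_nt.Dx.MidG
import Pool.Agent.MP_54d89f_nt.Dx.RecB
import Pool.Agent.MP_54d89f_nt.Dx.EvA
import Pool.Agent.MP_54d89f_nt.Dx.EvB
import Pool.Agent.MP_54d89f_nt.Dx.EvC
import Pool.Agent.MP_54d89f_nt.Dx.EvD
import Pool.Agent.MP_54d89f_nt.Dx.EvE
import Pool.Agent.MP_54d89f_nt.Dx.EvF
import Pool.Agent.MP_54d89f_nt.Dx.EvG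
import Pool.Agent.MP_54d89f_nt.Dx.EvH

/-! The constants for the families with step two. -/

namespace Pool.Agent.MP_54d89f_nt.Dx

open Finset Pool.Agent.MP_030fd4_nt Pool.Agent.MP_54d89f_nt.Dw

variable {p : ℕ} [Fact p.Prime]

theorem step8 (hp : 5 ≤ p) {F : Fm} {v1 v2 : Fin 6 → ℤ} {q : ℕ} {ρ θ : ℚ_[p]}
    (hA : Adm p F v1 v2) (hS : Shp F q) (hρ : ρ ≠ 0) (hθ : θ ≠ 0)
    (hI : FamI ℚ_[p] F v1 v2 ρ θ) (hIII : FamIII ℚ_[p] F v1 v2 q (9 / 256 * ρ ^ 6))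
    {φ : ℤ_[p] → ℚ_[p]} (hφ : Continuous φ)
    (hφ1 : ∀ (n : ℕ) (t : ℤ_[p]), 6 * t = -(2 * (n : ℤ_[p]) + 1) →
      φ t * ρ ^ (p / 2 * (2 * n + 1)) = 1)
    (c d : ℕ) (hc : c = 1 ∨ c = 5 ∨ c = 7 ∨ c = 11) (hd1 : d = 1 ∨ d = 7)
    (hμ : p * d % 12 = c) {x : ℤ_[p]} (hx : 12 * x = 1) {α β : ℚ_[p]} (hE : Ev8 p c d α β) :
    ∃ s : ℚ_[p], (if c < 6 then α * (s * φ 0 * (if d < 6 then 1 else θ)) = β * G1 (3 * x)
        else G1 (3 * x) * (s * φ 0 * (if d < 6 then 1 else θ)) = β * θ) ∧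
      Cg (fg F (0 : ℚ_[p])) (Mg F (vb v2 c) 0) (Mg F (vb v2 d) 0) s := by
  obtain ⟨μ, hμ'⟩ : ∃ μ, p * d = c + 12 * μ := ⟨p * d / 12, by omega⟩
  obtain ⟨s, hs, h1, h2⟩ := main8 hp (strG hp) (blkG hp) (midG denseG) denseG linG (recB _)
    hA hS hρ hθ hI hIII hc hd1 hμ' hx
  have hc0 : (if c < 6 then 1 else θ) ≠ 0 := by
    split_ifs
    · exact one_ne_zero
    · exact hθ
  have := hE μ x (fun t => s t * φ t * (if d < 6 then 1 else θ) / (if c < 6 then 1 else θ)) hμ' hx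
    (by fun_prop) (fun m => by
      have e := h1 m
      have e1 := hφ1 (6 * m + d / 2) (-2 * d * x - 2 * m) (by
        rcases hd1 with rfl | rfl <;> push_cast
        · linear_combination -hx
        · linear_combination -7 * hx)
      have e2 : 6 * (p * m + μ) + c / 2 = 6 * m + d / 2 + p / 2 * (2 * (6 * m + d / 2) + 1) := by
        obtain ⟨k, hk⟩ : ∃ k, p = 2 * k + 1 := ⟨p / 2, by have := p_odd hp; omega⟩
        have e3 : p / 2 = k := by omega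
        have e4 : p * m = 2 * (k * m) + m := by rw [hk]; ring
        rw [e3, e4, show k * (2 * (6 * m + d / 2) + 1) = 12 * (k * m) + k * (2 * (d / 2) + 1) by
          ring]
        rcases hd1 with rfl | rfl <;> omega
      simp only [val] at e
      rw [e2, pow_add ρ (6 * m + d / 2)] at e
      have e5 : ρ ^ (6 * m + d / 2) ≠ 0 := pow_ne_zero _ hρ
      rw [div_mul_eq_mul_div, div_eq_iff hc0]
      apply mul_left_cancel₀ e5
      linear_combination φ (-2 * d * x - 2 * m) * e + (if c < 6 then 1 else θ) *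
        ρ ^ (6 * m + d / 2) * bb ℚ_[p] c (p * m + μ) * e1)
  refine ⟨s 0, ?_, h2⟩
  by_cases h : c < 6
  · simpa only [h, if_true, div_one] using this
  · simp only [h, if_false] at this ⊢
    rw [← this]; field_simp

theorem out8 (hp : 5 ≤ p) {F : Fm} {v1 v2 : Fin 6 → ℤ} {q : ℕ} {ρ θ : ℚ_[p]}
    (hA : Adm p F v1 v2) (hS : Shp F q) (hρ : ρ ≠ 0) (hθ : θ ≠ 0)
    (hI : FamI ℚ_[p] F v1 v2 ρ θ) (hIII : FamIII ℚ_[p] F v1 v2 q (9 / 256 * ρ ^ 6))
    {φ : ℤ_[p] → ℚ_[p]} (hφ : Continuous φ) (hφ0 : φ 0 ^ 2 = 1)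
    (hφ1 : ∀ (n : ℕ) (t : ℤ_[p]), 6 * t = -(2 * (n : ℤ_[p]) + 1) →
      φ t * ρ ^ (p / 2 * (2 * n + 1)) = 1) {x : ℤ_[p]} (hx : 12 * x = 1) :
    Out (fg F (0 : ℚ_[p])) (Mg F w0 0) (Mg F v2 0) (φ 0 * G1 (3 * x)) (-16 * θ) (p % 4 = 1) := by
  obtain ⟨m2, m3⟩ := p_mod hp
  have st := fun c d hc hd hμ α β =>
    step8 hp hA hS hρ hθ hI hIII hφ hφ1 c d hc hd hμ hx (α := α) (β := β)
  have hg := gam hp
  have b1 : vb v2 1 = w0 := rfl
  have b5 : vb v2 5 = w0 := rfl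
  have b7 : vb v2 7 = v2 := rfl
  have b11 : vb v2 11 = v2 := rfl
  have n1 : (1 < 6) = True := by simp
  have n5 : (5 < 6) = True := by simp
  have n7 : (7 < 6) = False := by simp
  have n11 : (11 < 6) = False := by simp
  refine ⟨fun h => ⟨?_, ?_⟩, fun h => ⟨?_, ?_⟩⟩
  · obtain ⟨s, h1, h2⟩ : ∃ s, 1 * (s * φ 0 * 1) = 1 * G1 (3 * x) ∧
        Cg (fg F (0 : ℚ_[p])) (Mg F w0 0) (Mg F w0 0) s := by
      rcases (by omega : p % 12 = 1 ∨ p % 12 = 5) with h' | h'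
      · simpa only [b1, n1, if_true] using
          st 1 1 (by omega) (by omega) (by omega) _ _ (ev11 hp hg denseG)
      · simpa only [b1, b5, n1, n5, if_true] using
          st 5 1 (by omega) (by omega) (by omega) _ _ (ev51 hp hg denseG)
    rwa [show φ 0 * G1 (3 * x) = s by linear_combination -φ 0 * h1 + s * hφ0]
  · obtain ⟨s, h1, h2⟩ : ∃ s, G1 (3 * x) * (s * φ 0 * θ) = (p : ℚ_[p]) ^ 2 * θ ∧
        Cg (fg F (0 : ℚ_[p])) (Mg F v2 0) (Mg F v2 0) s := by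
      rcases (by omega : p % 12 = 1 ∨ p % 12 = 5) with h' | h'
      · simpa only [b7, n7, if_false] using
          st 7 7 (by omega) (by omega) (by omega) _ _ (ev77 hp hg denseG)
      · simpa only [b7, b11, n7, n11, if_false] using
          st 11 7 (by omega) (by omega) (by omega) _ _ (evE7 hp hg denseG)
    exact ⟨s, mul_right_cancel₀ hθ (by linear_combination h1), h2⟩
  · obtain ⟨s, h1, h2⟩ : ∃ s, 16 * (s * φ 0 * θ) = (p : ℚ_[p]) ^ 2 * G1 (3 * x) ∧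
        Cg (fg F (0 : ℚ_[p])) (Mg F w0 0) (Mg F v2 0) s := by
      rcases (by omega : p % 12 = 7 ∨ p % 12 = 11) with h' | h'
      · simpa only [b1, b7, n1, n7, if_true, if_false] using
          st 1 7 (by omega) (by omega) (by omega) _ _ (ev17 hp hg denseG)
      · simpa only [b5, b7, n5, n7, if_true, if_false] using
          st 5 7 (by omega) (by omega) (by omega) _ _ (ev57 hp hg denseG)
    exact ⟨s, by linear_combination -φ 0 * h1 + 16 * s * θ * hφ0, h2⟩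
  · obtain ⟨s, h1, h2⟩ : ∃ s, G1 (3 * x) * (s * φ 0 * 1) = 16 * θ ∧
        Cg (fg F (0 : ℚ_[p])) (Mg F v2 0) (Mg F w0 0) s := by
      rcases (by omega : p % 12 = 7 ∨ p % 12 = 11) with h' | h'
      · simpa only [b1, b7, n1, n7, if_true, if_false] using
          st 7 1 (by omega) (by omega) (by omega) _ _ (ev71 hp hg denseG)
      · simpa only [b1, b11, n1, n11, if_true, if_false] using
          st 11 1 (by omega) (by omega) (by omega) _ _ (evE1 hp hg denseG)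
    exact ⟨s, by linear_combination h1, h2⟩

end Pool.Agent.MP_54d89f_nt.Dx
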