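import Pool.Agent.MP_54d89f_nt.Dx.St

namespace Pool.Agent.MP_54d89f_nt.Dx

open Finset Pool.Agent.MP_030fd4_nt Pool.Agent.MP_54d89f_nt.Dw

variable {p : ℕ} [Fact p.Prime]

theorem powSt (hp : 5 ≤ p) : PowSt p := by
  have h2 : ((2 : ℤ) : ZMod p) ≠ 0 := by
    rw [Ne, ZMod.intCast_zmod_eq_zero_iff_dvd]
    intro h
    have := Int.le_of_dvd two_pos h
    omega
  have hs := legendreSym.sq_one p h2
  have hd : (p : ℤ) ∣ legendreSym p 2 * 2 ^ (p / 2) - 1 := by
    rw [← ZMod.intCast_zmod_eq_zero_iff_dvd, Int.cast_sub, Int.cast_mul, Int.cast_pow,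
      ← legendreSym.eq_pow, ← Int.cast_mul, ← sq, hs, sub_self]
  have hr := tendsto_pow_atTop_nhds_zero_iff_norm_lt_one.2
    ((PadicInt.norm_int_lt_one_iff_dvd _).2 hd)
  refine ⟨fun t => (legendreSym p 2 : ℚ_[p]) *
    (PadicInt.addChar_of_value_at_one _ hr (-(6 * t)) : ℤ_[p]), ?_, ?_, fun n t ht => ?_⟩
  · exact continuous_const.mul (continuous_subtype_val.comp
      ((PadicInt.continuous_addChar_of_value_at_one hr).comp (by fun_prop)))
  · simp [jacobiSym.legendreSym.to_jacobiSym]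
  · have e : -(6 * t) = (2 * n + 1) • (1 : ℤ_[p]) := by
      rw [ht, neg_neg, nsmul_eq_mul]
      push_cast
      ring
    have hs' : (legendreSym p 2 : ℚ_[p]) ^ 2 = 1 := by exact_mod_cast hs
    simp only [e, AddChar.map_nsmul_eq_pow, PadicInt.addChar_of_value_at_one_def]
    rw [PadicInt.coe_pow, PadicInt.coe_add, PadicInt.coe_intCast, PadicInt.coe_one, Int.cast_sub,
      Int.cast_one, add_sub_cancel, Int.cast_mul, Int.cast_pow, Int.cast_two]
    rw [mul_pow, ← pow_mul, ← mul_assoc, ← pow_succ', show 2 * n + 1 + 1 = 2 * (n + 1) by ring,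
      pow_mul, hs', one_pow, one_mul]

end Pool.Agent.MP_54d89f_nt.Dx
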