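import Pool.Agent.MP_54d89f_nt.Dx.St

/-! The contiguity relation in the parameter, by telescoping certificates. -/

namespace Pool.Agent.MP_54d89f_nt.Dx

open Finset Pool.Agent.MP_030fd4_nt Pool.Agent.MP_54d89f_nt.Dw

def uph_WZA8x (t k : ℚ) : ℚ :=
  -8 * (k + t - 1 / 2) * (k + 2 * t - 3 / 2) * (k + 3 * t - 5 / 2)

def PN_WZA8x (t k : ℚ) : ℚ :=
  (k + t - 1 / 2) * (k + 2 * t - 3 / 2) * (k + 2 * t - 1 / 2) * (k + 3 * t - 5 / 2) *
    (k + 3 * t - 3 / 2) * (k + 3 * t - 1 / 2)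

def PD_WZA8x (t k : ℚ) : ℚ :=
  (k + 2 * t - 1) * (k + 2 * t) * (k + 4 * t - 3) * (k + 4 * t - 2) * (k + 4 * t - 1) *
    (k + 4 * t)

/-- The base term. -/
def h_WZA8x (t : ℚ) : ℕ → ℚ
  | 0 => 1
  | k + 1 => h_WZA8x t k * (uph_WZA8x t k / dng FA8 t ((k : ℚ) + 1))

theorem dng_WZA8x (t k : ℚ) : dng FA8 t k = k * (k + 2 * t) * (k + 4 * t) := by
  simp [dng, FA8]

theorem upg_WZA8x (t k : ℚ) :
    upg FA8 t k = -8 * (1 / 2 + t + k) * (1 / 2 + 2 * t + k) * (1 / 2 + 3 * t + k) := by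
  simp [upg, FA8]

theorem good_WZA8x {t : ℚ} {N : ℕ} (hG : GoodG FA8 t N) (k : ℕ) (hk : k < N) :
    1 + 2 * t + k ≠ 0 ∧ 1 + 4 * t + k ≠ 0 := by
  simpa [FA8] using hG k hk

theorem dn_ne_WZA8x {t : ℚ} {N k : ℕ} (hG : GoodG FA8 t N) (hk : k < N) :
    dng FA8 t ((k : ℚ) + 1) ≠ 0 := by
  obtain ⟨h1, h2⟩ := good_WZA8x hG k hk
  rw [dng_WZA8x]
  refine mul_ne_zero (mul_ne_zero (natCast_add_one_ne k) ?_) ?_
  · intro h; apply h1; linear_combination h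
  · intro h; apply h2; linear_combination h

theorem dn_ne'_WZA8x {t : ℚ} {N k : ℕ} (ht : t < 0) (hG : GoodG FA8 t N) (hk : k < N) :
    dng FA8 (t - 1) ((k : ℚ) + 1) ≠ 0 := by
  rw [dng_WZA8x]
  refine mul_ne_zero (mul_ne_zero (natCast_add_one_ne k) ?_) ?_
  · intro h
    rcases lt_or_ge k 2 with h2 | h2
    · have : (k : ℚ) ≤ 1 := by exact_mod_cast (by omega : k ≤ 1)
      linarith
    · obtain ⟨j, rfl⟩ := Nat.exists_eq_add_of_le h2
      apply (good_WZA8x hG j (by omega)).1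
      push_cast at h
      linear_combination h
  · intro h
    rcases lt_or_ge k 4 with h2 | h2
    · have : (k : ℚ) ≤ 3 := by exact_mod_cast (by omega : k ≤ 3)
      linarith
    · obtain ⟨j, rfl⟩ := Nat.exists_eq_add_of_le h2
      apply (good_WZA8x hG j (by omega)).2
      push_cast at h
      linear_combination h

theorem fN_WZA8x (t : ℚ) (k : ℕ) : PN_WZA8x t 0 * fg FA8 t k = h_WZA8x t k * PN_WZA8x t k := by
  induction k with
  | zero => simp [fg_zero, h_WZA8x]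
  | succ k ih =>
    have e1 : PN_WZA8x t k * upg FA8 t k = uph_WZA8x t k * PN_WZA8x t ((k : ℚ) + 1) := by
      simp only [PN_WZA8x, upg_WZA8x, uph_WZA8x]; ring
    rw [fg_succ, h_WZA8x, ← mul_assoc, ih]
    push_cast
    rw [div_eq_mul_inv, div_eq_mul_inv]
    linear_combination (h_WZA8x t k * (dng FA8 t ((k : ℚ) + 1))⁻¹) * e1

theorem fD_WZA8x {t : ℚ} {N : ℕ} (ht : t < 0) (hG : GoodG FA8 t N) (k : ℕ) (hk : k ≤ N) :
    PD_WZA8x t 0 * fg FA8 (t - 1) k = h_WZA8x t k * PD_WZA8x t k := by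
  induction k with
  | zero => simp [fg_zero, h_WZA8x]
  | succ k ih =>
    have h1 := dn_ne_WZA8x hG (show k < N by omega)
    have h2 := dn_ne'_WZA8x ht hG (show k < N by omega)
    have e1 : PD_WZA8x t k * dng FA8 t ((k : ℚ) + 1) =
        PD_WZA8x t ((k : ℚ) + 1) * dng FA8 (t - 1) ((k : ℚ) + 1) := by
      simp only [PD_WZA8x, dng_WZA8x]; ring
    have e2 : upg FA8 (t - 1) (k : ℚ) = uph_WZA8x t k := by
      simp only [upg_WZA8x, uph_WZA8x]; ring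
    rw [fg_succ, h_WZA8x, ← mul_assoc, ih (by omega), e2]
    push_cast
    field_simp
    linear_combination (h_WZA8x t k * uph_WZA8x t k) * e1

theorem tele_WZA8x {t : ℚ} {N : ℕ} (hG : GoodG FA8 t N) (R : ℚ → ℚ) (L : ℕ) (hL : L ≤ N) :
    ∑ k ∈ range (L + 1), h_WZA8x t k * (uph_WZA8x t k * R ((k : ℚ) + 1) - dng FA8 t k * R k) =
      uph_WZA8x t L * h_WZA8x t L * R ((L : ℚ) + 1) := by
  induction L with
  | zero => simp [dng_WZA8x]; ring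
  | succ L ih =>
    have h1 := dn_ne_WZA8x hG (show L < N by omega)
    have e1 : dng FA8 t ((L : ℚ) + 1) * h_WZA8x t (L + 1) = uph_WZA8x t L * h_WZA8x t L := by
      rw [h_WZA8x]; field_simp
    rw [sum_range_succ, ih (by omega)]
    push_cast
    linear_combination (-R ((L : ℚ) + 1)) * e1

theorem key_WZA8x {t : ℚ} {N : ℕ} (ht : t < 0) (hG : GoodG FA8 t N)
    (hN : 2 * t - 3 / 2 + N = 0 ∨ 3 * t - 5 / 2 + N = 0) (v v' : Fin 6 → ℤ) (a b : ℚ)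
    (R : ℚ → ℚ)
    (hR : ∀ k : ℚ, a * wt v (t - 1) k * PD_WZA8x t k + b * wt v' t k * PN_WZA8x t k =
      uph_WZA8x t k * R (k + 1) - dng FA8 t k * R k) :
    a * PD_WZA8x t 0 * Mg FA8 v (t - 1) (N + 1) + b * PN_WZA8x t 0 * Mg FA8 v' t (N + 1) = 0 := by
  have hu : uph_WZA8x t N = 0 := by
    unfold uph_WZA8x
    rcases hN with h | h
    · rw [show (N : ℚ) + 2 * t - 3 / 2 = 0 by linear_combination h]; ring
    · rw [show (N : ℚ) + 3 * t - 5 / 2 = 0 by linear_combination h]; ring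
  have h0 := tele_WZA8x hG R N le_rfl
  rw [hu, zero_mul, zero_mul] at h0
  refine Eq.trans ?_ h0
  rw [Mg, Mg, mul_sum, mul_sum, ← sum_add_distrib]
  refine sum_congr rfl fun k hk => ?_
  have h1 := fN_WZA8x t k
  have h2 := fD_WZA8x ht hG k (by have := mem_range.1 hk; omega)
  rw [← hR]
  linear_combination (a * wt v (t - 1) (k : ℚ)) * h2 + (b * wt v' t (k : ℚ)) * h1

def R0_WZA8x (t k : ℚ) : ℚ :=
  (-742 + 8370 * t - 35332 * t ^ 2 + 70824 * t ^ 3 - 67984 * t ^ 4 + 25152 * t ^ 5) +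
    (3801 - 32556 * t + 98052 * t ^ 2 - 124704 * t ^ 3 + 57024 * t ^ 4) * k +
    (-7249 + 43710 * t - 83164 * t ^ 2 + 50376 * t ^ 3) * k ^ 2 +
    (6339 - 24060 * t + 21756 * t ^ 2) * k ^ 3 +
    (-2560 + 4608 * t) * k ^ 4 +
    (384) * k ^ 5

def R1_WZA8x (t k : ℚ) : ℚ :=
  (79 - 586 * t + 1564 * t ^ 2 - 1784 * t ^ 3 + 736 * t ^ 4) +
    (-257 + 1340 * t - 2260 * t ^ 2 + 1232 * t ^ 3) * k +
    (284 - 944 * t + 764 * t ^ 2) * k ^ 2 +
    (-130 + 208 * t) * k ^ 3 +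
    (21) * k ^ 4

def R2_WZA8x (t k : ℚ) : ℚ :=
  (-78 + 1066 * t - 4116 * t ^ 2 + 6728 * t ^ 3 - 4944 * t ^ 4 + 1344 * t ^ 5) +
    (-55 - 344 * t + 1564 * t ^ 2 - 1760 * t ^ 3 + 576 * t ^ 4) * k +
    (281 - 982 * t + 1340 * t ^ 2 - 696 * t ^ 3) * k ^ 2 +
    (-221 + 656 * t - 516 * t ^ 2) * k ^ 3 +
    (64 - 108 * t) * k ^ 4 +
    (-6) * k ^ 5

theorem wzA8 : WZA8 := by
  intro t N ht hG hN
  have c1 : 2 * t - 1 ≠ 0 := by linarith
  have c2 : 4 * t - 1 ≠ 0 := by linarith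
  have c3 : 4 * t - 3 ≠ 0 := by linarith
  have c4 : 6 * t - 1 ≠ 0 := by linarith
  have c5 : 6 * t - 5 ≠ 0 := by linarith
  have hC : (2 * t - 1) ^ 2 * (4 * t - 1) * (4 * t - 3) ≠ 0 :=
    mul_ne_zero (mul_ne_zero (pow_ne_zero 2 c1) c2) c3
  have hD : PD_WZA8x t 0 = (2 * t - 1) ^ 2 * (4 * t - 1) * (4 * t - 3) * (16 * t ^ 2) := by
    unfold PD_WZA8x; ring
  have hP : PN_WZA8x t 0 =
      (2 * t - 1) ^ 2 * (4 * t - 1) * (4 * t - 3) * (3 / 64 * ((6 * t - 5) * (6 * t - 1))) := by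
    unfold PN_WZA8x; ring
  refine ⟨?_, ?_, ?_⟩
  · have h := key_WZA8x ht hG hN w0 wA8 ((6 * t - 1) * (6 * t - 5)) (-192) (R0_WZA8x t)
      (fun k => by
        simp only [wt_w0, wt_wA8, PD_WZA8x, PN_WZA8x, uph_WZA8x, dng_WZA8x, R0_WZA8x]; ring)
    rw [hD, hP] at h
    apply mul_left_cancel₀ (mul_ne_zero hC (mul_ne_zero c4 c5))
    linear_combination h
  · have h := key_WZA8x ht hG hN wA1 wA1 1 (-64) (R1_WZA8x t) (fun k => by
      simp only [wt_wA1, PD_WZA8x, PN_WZA8x, uph_WZA8x, dng_WZA8x, R1_WZA8x]; ring)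
    rw [hD, hP] at h
    rw [gu]
    apply mul_left_cancel₀ hC
    linear_combination h
  · have h := key_WZA8x ht hG hN wA8 w0 3 (-64 * ((6 * t - 1) * (6 * t - 5))) (R2_WZA8x t)
      (fun k => by
        simp only [wt_w0, wt_wA8, PD_WZA8x, PN_WZA8x, uph_WZA8x, dng_WZA8x, R2_WZA8x]; ring)
    rw [hD, hP] at h
    rw [gu]
    apply mul_left_cancel₀ hC
    linear_combination 1 / 3 * h

end Pool.Agent.MP_54d89f_nt.Dx
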