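import Pool.Agent.MP_54d89f_nt.Dx.St

/-! The contiguity relation in the parameter for z = 1/4, by telescoping certificates. -/

namespace Pool.Agent.MP_54d89f_nt.Dx

open Finset Pool.Agent.MP_030fd4_nt Pool.Agent.MP_54d89f_nt.Dw

def uph_WZB4x (t k : ℚ) : ℚ := 1 / 4 * (k + 1 / 2 - t) * (k + t - 1 / 2) * (k + 3 * t - 5 / 2)

def PN_WZB4x (t k : ℚ) : ℚ :=
  (k + t - 1 / 2) * (k + 3 * t - 5 / 2) * (k + 3 * t - 3 / 2) * (k + 3 * t - 1 / 2)

def PD_WZB4x (t k : ℚ) : ℚ := (k + 1 / 2 - t) * (k + t) * (k + 2 * t - 1) * (k + 2 * t)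

theorem dng_WZB4x (t k : ℚ) : dng FB4 t k = k * (k + t) * (k + 2 * t) := by
  simp [dng, FB4]

theorem upg_WZB4x (t k : ℚ) :
    upg FB4 t k = 1 / 4 * (1 / 2 - t + k) * (1 / 2 + t + k) * (1 / 2 + 3 * t + k) := by
  simp only [upg, FB4]
  push_cast
  ring

theorem good_WZB4x {t : ℚ} {N k : ℕ} (hG : GoodG FB4 t N) (hk : k < N) :
    1 + t + k ≠ 0 ∧ 1 + 2 * t + k ≠ 0 := by
  simpa [FB4] using hG k hk

/-- The base term. -/
def h_WZB4x (t : ℚ) : ℕ → ℚ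
  | 0 => 1
  | k + 1 => h_WZB4x t k * (uph_WZB4x t k / dng FB4 t ((k : ℚ) + 1))

theorem dn_ne_WZB4x {t : ℚ} {N k : ℕ} (hG : GoodG FB4 t N) (hk : k < N) :
    dng FB4 t ((k : ℚ) + 1) ≠ 0 := by
  obtain ⟨h1, h2⟩ := good_WZB4x hG hk
  rw [dng_WZB4x]
  refine mul_ne_zero (mul_ne_zero (natCast_add_one_ne k) ?_) ?_
  · intro h; apply h1; linear_combination h
  · intro h; apply h2; linear_combination h

theorem dn_ne'_WZB4x {t : ℚ} {N k : ℕ} (ht : t < 0) (hG : GoodG FB4 t N) (hk : k < N) :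
    dng FB4 (t - 1) ((k : ℚ) + 1) ≠ 0 := by
  rw [dng_WZB4x]
  refine mul_ne_zero (mul_ne_zero (natCast_add_one_ne k) ?_) ?_
  · intro h
    rcases lt_or_ge k 1 with h2 | h2
    · have : (k : ℚ) ≤ 0 := by exact_mod_cast (by omega : k ≤ 0)
      linarith
    · obtain ⟨j, rfl⟩ := Nat.exists_eq_add_of_le h2
      apply (good_WZB4x hG (show j < N by omega)).1
      push_cast at h
      linear_combination h
  · intro h
    rcases lt_or_ge k 2 with h2 | h2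
    · have : (k : ℚ) ≤ 1 := by exact_mod_cast (by omega : k ≤ 1)
      linarith
    · obtain ⟨j, rfl⟩ := Nat.exists_eq_add_of_le h2
      apply (good_WZB4x hG (show j < N by omega)).2
      push_cast at h
      linear_combination h

theorem fN_WZB4x (t : ℚ) (k : ℕ) :
    PN_WZB4x t 0 * fg FB4 t k = h_WZB4x t k * PN_WZB4x t k := by
  induction k with
  | zero => simp [fg_zero, h_WZB4x]
  | succ k ih =>
    have e1 : PN_WZB4x t k * upg FB4 t k = uph_WZB4x t k * PN_WZB4x t ((k : ℚ) + 1) := by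
      simp only [PN_WZB4x, upg_WZB4x, uph_WZB4x]; ring
    rw [fg_succ, h_WZB4x, ← mul_assoc, ih]
    push_cast
    rw [div_eq_mul_inv, div_eq_mul_inv]
    linear_combination (h_WZB4x t k * (dng FB4 t ((k : ℚ) + 1))⁻¹) * e1

theorem fD_WZB4x {t : ℚ} {N : ℕ} (ht : t < 0) (hG : GoodG FB4 t N) (k : ℕ) (hk : k ≤ N) :
    PD_WZB4x t 0 * fg FB4 (t - 1) k = h_WZB4x t k * PD_WZB4x t k := by
  induction k with
  | zero => simp [fg_zero, h_WZB4x]
  | succ k ih =>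
    have h1 := dn_ne_WZB4x hG (show k < N by omega)
    have h2 := dn_ne'_WZB4x ht hG (show k < N by omega)
    have e1 : PD_WZB4x t k * upg FB4 (t - 1) k * dng FB4 t ((k : ℚ) + 1) =
        uph_WZB4x t k * PD_WZB4x t ((k : ℚ) + 1) * dng FB4 (t - 1) ((k : ℚ) + 1) := by
      simp only [PD_WZB4x, dng_WZB4x, upg_WZB4x, uph_WZB4x]; ring
    rw [fg_succ, h_WZB4x, ← mul_assoc, ih (by omega)]
    push_cast
    field_simp
    linear_combination (h_WZB4x t k) * e1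

theorem tele_WZB4x {t : ℚ} {N : ℕ} (hG : GoodG FB4 t N) (R : ℚ → ℚ) (L : ℕ) (hL : L ≤ N) :
    ∑ k ∈ range (L + 1), h_WZB4x t k * (uph_WZB4x t k * R ((k : ℚ) + 1) - dng FB4 t k * R k) =
      uph_WZB4x t L * h_WZB4x t L * R ((L : ℚ) + 1) := by
  induction L with
  | zero => simp [dng]; ring
  | succ L ih =>
    have h1 := dn_ne_WZB4x hG (show L < N by omega)
    have e1 : dng FB4 t ((L : ℚ) + 1) * h_WZB4x t (L + 1) = uph_WZB4x t L * h_WZB4x t L := by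
      rw [h_WZB4x]; field_simp
    rw [sum_range_succ, ih (by omega)]
    push_cast
    linear_combination (-R ((L : ℚ) + 1)) * e1

theorem key_WZB4x {t : ℚ} {N : ℕ} (ht : t < 0) (hG : GoodG FB4 t N)
    (hN : t - 1 / 2 + N = 0 ∨ 3 * t - 5 / 2 + N = 0) (v : Fin 6 → ℤ) (a b : ℚ) (R : ℚ → ℚ)
    (hR : ∀ k : ℚ, a * wt v (t - 1) k * PD_WZB4x t k + b * wt v t k * PN_WZB4x t k =
      uph_WZB4x t k * R (k + 1) - dng FB4 t k * R k) :
    a * PD_WZB4x t 0 * Mg FB4 v (t - 1) (N + 1) + b * PN_WZB4x t 0 * Mg FB4 v t (N + 1) = 0 := by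
  have hu : uph_WZB4x t N = 0 := by
    unfold uph_WZB4x
    rcases hN with h | h
    · rw [show (N : ℚ) + t - 1 / 2 = 0 by linear_combination h]; ring
    · rw [show (N : ℚ) + 3 * t - 5 / 2 = 0 by linear_combination h]; ring
  have h0 := tele_WZB4x hG R N le_rfl
  rw [hu, zero_mul, zero_mul] at h0
  refine Eq.trans ?_ h0
  rw [Mg, Mg, mul_sum, mul_sum, ← sum_add_distrib]
  refine sum_congr rfl fun k hk => ?_
  have h1 := fN_WZB4x t k
  have h2 := fD_WZB4x ht hG k (by have := mem_range.1 hk; omega)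
  rw [← hR]
  linear_combination (a * wt v (t - 1) k) * h2 + (b * wt v t k) * h1

def R0_WZB4x (t k : ℚ) : ℚ := (-34 + 112 * t - 88 * t ^ 2) + (28 - 40 * t) * k

def R1_WZB4x (t k : ℚ) : ℚ := (-42 + 128 * t - 88 * t ^ 2) + (88 - 128 * t) * k - 40 * k ^ 2

def R2_WZB4x (t k : ℚ) : ℚ :=
  (-574 + 4048 * t - 9712 * t ^ 2 + 9408 * t ^ 3 - 3168 * t ^ 4) +
    (1780 - 9640 * t + 15792 * t ^ 2 - 7776 * t ^ 3) * k +
    (-1608 + 6816 * t - 6048 * t ^ 2) * k ^ 2 + (432 - 1440 * t) * k ^ 3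

theorem wzB4 : WZB4 := by
  intro t N ht hG hN
  have c1 : 2 * t - 1 ≠ 0 := by linarith
  have c4 : 6 * t - 1 ≠ 0 := by linarith
  have c5 : 6 * t - 5 ≠ 0 := by linarith
  have hC : (2 * t - 1) ^ 2 ≠ 0 := pow_ne_zero 2 c1
  have hD : PD_WZB4x t 0 = (2 * t - 1) ^ 2 * (-t ^ 2) := by
    unfold PD_WZB4x; ring
  have hP : PN_WZB4x t 0 = (2 * t - 1) ^ 2 * (3 / 16 * ((6 * t - 5) * (6 * t - 1))) := by
    unfold PN_WZB4x; ring
  refine ⟨?_, ?_, ?_⟩
  · have h := key_WZB4x ht hG hN w0 (4 * (6 * t - 5)) (6 * t - 1) (R0_WZB4x t) (fun k => by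
      simp only [wt_w0, PD_WZB4x, PN_WZB4x, uph_WZB4x, dng_WZB4x, R0_WZB4x]; ring)
    rw [hD, hP] at h
    apply mul_left_cancel₀ (mul_ne_zero hC c5)
    linear_combination (-16) * h
  · have h := key_WZB4x ht hG hN wB1 4 1 (R1_WZB4x t) (fun k => by
      simp only [wt_wB1, PD_WZB4x, PN_WZB4x, uph_WZB4x, dng_WZB4x, R1_WZB4x]; ring)
    rw [hD, hP] at h
    apply mul_left_cancel₀ hC
    linear_combination (-16) * h
  · have h := key_WZB4x ht hG hN wB4 (4 * (6 * t - 1)) (6 * t - 5) (R2_WZB4x t) (fun k => by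
      simp only [wt_wB4, PD_WZB4x, PN_WZB4x, uph_WZB4x, dng_WZB4x, R2_WZB4x]; ring)
    rw [hD, hP] at h
    apply mul_left_cancel₀ (mul_ne_zero hC c4)
    linear_combination (-16) * h

end Pool.Agent.MP_54d89f_nt.Dx
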