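import Pool.Agent.MP_54d89f_nt.Dx.St

/-! The contiguity relation for the second family at z = -1/8, by telescoping certificates. -/

namespace Pool.Agent.MP_54d89f_nt.Dx

open Finset Pool.Agent.MP_030fd4_nt Pool.Agent.MP_54d89f_nt.Dw

variable {p : Nat} [Fact p.Prime]

def uph_WZB8x (t k : ℚ) : ℚ := -1 / 8 * (k + 1 / 2 - t) * (k + t - 1 / 2) * (k + 3 * t - 5 / 2)

def PN_WZB8x (t k : ℚ) : ℚ :=
  (k + t - 1 / 2) * (k + 3 * t - 5 / 2) * (k + 3 * t - 3 / 2) * (k + 3 * t - 1 / 2)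

def PD_WZB8x (t k : ℚ) : ℚ := (k + 1 / 2 - t) * (k + t) * (k + 2 * t - 1) * (k + 2 * t)

theorem up_WZB8x (t k : ℚ) :
    upg FB8 t k = -1 / 8 * (1 / 2 - t + k) * (1 / 2 + t + k) * (1 / 2 + 3 * t + k) := by
  simp only [upg, FB8]; push_cast; ring

theorem dn_WZB8x (t k : ℚ) : dng FB8 t k = k * (k + t) * (k + 2 * t) := by
  simp only [dng, FB8]; push_cast; ring

theorem good_WZB8x {t : ℚ} {N k : ℕ} (hG : GoodG FB8 t N) (hk : k < N) :
    1 + t + k ≠ 0 ∧ 1 + 2 * t + k ≠ 0 := by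
  obtain ⟨h1, h2⟩ := hG k hk
  simp only [FB8] at h1 h2
  push_cast at h1 h2
  exact ⟨fun h => h1 (by linear_combination h), fun h => h2 (by linear_combination h)⟩

/-- The base term. -/
def h_WZB8x (t : ℚ) : ℕ → ℚ
  | 0 => 1
  | k + 1 => h_WZB8x t k * (uph_WZB8x t k / dng FB8 t ((k : ℚ) + 1))

theorem dn_ne_WZB8x {t : ℚ} {N k : ℕ} (hG : GoodG FB8 t N) (hk : k < N) :
    dng FB8 t ((k : ℚ) + 1) ≠ 0 := by
  obtain ⟨h1, h2⟩ := good_WZB8x hG hk
  rw [dn_WZB8x]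
  refine mul_ne_zero (mul_ne_zero (natCast_add_one_ne k) ?_) ?_
  · intro h; apply h1; linear_combination h
  · intro h; apply h2; linear_combination h

theorem dn_ne'_WZB8x {t : ℚ} {N k : ℕ} (ht : t < 0) (hG : GoodG FB8 t N) (hk : k < N) :
    dng FB8 (t - 1) ((k : ℚ) + 1) ≠ 0 := by
  rw [dn_WZB8x]
  refine mul_ne_zero (mul_ne_zero (natCast_add_one_ne k) ?_) ?_
  · intro h
    rcases lt_or_ge k 1 with h2 | h2
    · have : (k : ℚ) ≤ 0 := by exact_mod_cast (by omega : k ≤ 0)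
      linarith
    · obtain ⟨j, rfl⟩ := Nat.exists_eq_add_of_le h2
      apply (good_WZB8x hG (show j < N by omega)).1
      push_cast at h
      linear_combination h
  · intro h
    rcases lt_or_ge k 2 with h2 | h2
    · have : (k : ℚ) ≤ 1 := by exact_mod_cast (by omega : k ≤ 1)
      linarith
    · obtain ⟨j, rfl⟩ := Nat.exists_eq_add_of_le h2
      apply (good_WZB8x hG (show j < N by omega)).2
      push_cast at h
      linear_combination h

theorem fN_WZB8x (t : ℚ) (k : ℕ) : PN_WZB8x t 0 * fg FB8 t k = h_WZB8x t k * PN_WZB8x t k := by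
  induction k with
  | zero => simp [fg_zero, h_WZB8x]
  | succ k ih =>
    have e1 : PN_WZB8x t k * upg FB8 t k = uph_WZB8x t k * PN_WZB8x t ((k : ℚ) + 1) := by
      simp only [PN_WZB8x, up_WZB8x, uph_WZB8x]; ring
    rw [fg_succ, h_WZB8x, ← mul_assoc, ih]
    push_cast
    rw [div_eq_mul_inv, div_eq_mul_inv]
    linear_combination (h_WZB8x t k * (dng FB8 t ((k : ℚ) + 1))⁻¹) * e1

theorem fD_WZB8x {t : ℚ} {N : ℕ} (ht : t < 0) (hG : GoodG FB8 t N) (k : ℕ) (hk : k ≤ N) :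
    PD_WZB8x t 0 * fg FB8 (t - 1) k = h_WZB8x t k * PD_WZB8x t k := by
  induction k with
  | zero => simp [fg_zero, h_WZB8x]
  | succ k ih =>
    have h1 := dn_ne_WZB8x hG (show k < N by omega)
    have h2 := dn_ne'_WZB8x ht hG (show k < N by omega)
    have e1 : PD_WZB8x t k * upg FB8 (t - 1) k * dng FB8 t ((k : ℚ) + 1) =
        uph_WZB8x t k * PD_WZB8x t ((k : ℚ) + 1) * dng FB8 (t - 1) ((k : ℚ) + 1) := by
      simp only [PD_WZB8x, dn_WZB8x, up_WZB8x, uph_WZB8x]; ring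
    rw [fg_succ, h_WZB8x, ← mul_assoc, ih (by omega)]
    push_cast
    field_simp
    linear_combination (h_WZB8x t k) * e1

theorem tele_WZB8x {t : ℚ} {N : ℕ} (hG : GoodG FB8 t N) (R : ℚ → ℚ) (L : ℕ) (hL : L ≤ N) :
    ∑ k ∈ range (L + 1), h_WZB8x t k * (uph_WZB8x t k * R ((k : ℚ) + 1) - dng FB8 t k * R k) =
      uph_WZB8x t L * h_WZB8x t L * R ((L : ℚ) + 1) := by
  induction L with
  | zero => simp [dn_WZB8x]; ring
  | succ L ih =>
    have h1 := dn_ne_WZB8x hG (show L < N by omega)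
    have e1 : dng FB8 t ((L : ℚ) + 1) * h_WZB8x t (L + 1) = uph_WZB8x t L * h_WZB8x t L := by
      rw [h_WZB8x]; field_simp
    rw [sum_range_succ, ih (by omega)]
    push_cast
    linear_combination (-R ((L : ℚ) + 1)) * e1

theorem key_WZB8x {t : ℚ} {N : ℕ} (ht : t < 0) (hG : GoodG FB8 t N)
    (hN : t - 1 / 2 + N = 0 ∨ 3 * t - 5 / 2 + N = 0) (v v' : Fin 6 → ℤ) (a b : ℚ) (R : ℚ → ℚ)
    (hR : ∀ k : ℚ, a * wt v (t - 1) k * PD_WZB8x t k + b * wt v' t k * PN_WZB8x t k =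
      uph_WZB8x t k * R (k + 1) - dng FB8 t k * R k) :
    a * PD_WZB8x t 0 * Mg FB8 v (t - 1) (N + 1) + b * PN_WZB8x t 0 * Mg FB8 v' t (N + 1) = 0 := by
  have hu : uph_WZB8x t N = 0 := by
    unfold uph_WZB8x
    rcases hN with h | h
    · rw [show (N : ℚ) + t - 1 / 2 = 0 by linear_combination h]; ring
    · rw [show (N : ℚ) + 3 * t - 5 / 2 = 0 by linear_combination h]; ring
  have h0 := tele_WZB8x hG R N le_rfl
  rw [hu, zero_mul, zero_mul] at h0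
  refine Eq.trans ?_ h0
  rw [Mg, Mg, mul_sum, mul_sum, ← sum_add_distrib]
  refine sum_congr rfl fun k hk => ?_
  have h1 := fN_WZB8x t k
  have h2 := fD_WZB8x ht hG k (by have := mem_range.1 hk; omega)
  rw [← hR]
  linear_combination (a * wt v (t - 1) k) * h2 + (b * wt v' t k) * h1

def R0_WZB8x (t k : ℚ) : ℚ :=
  (356 - 2568 * t + 5488 * t ^ 2 - 3552 * t ^ 3) + (-760 + 3360 * t - 3168 * t ^ 2) * k +
    (464 - 864 * t) * k ^ 2 - 96 * k ^ 3

def R1_WZB8x (t k : ℚ) : ℚ :=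
  (-44 + 128 * t - 80 * t ^ 2) + (80 - 128 * t) * k - 48 * k ^ 2

def R2_WZB8x (t k : ℚ) : ℚ :=
  (-212 + 1144 * t - 1968 * t ^ 2 + 1056 * t ^ 3) + (-360 + 800 * t - 288 * t ^ 2) * k +
    (896 - 1152 * t) * k ^ 2 - 384 * k ^ 3

theorem wzB8 : WZB8 := by
  intro t N ht hG hN
  have c1 : 2 * t - 1 ≠ 0 := by linarith
  have c4 : 6 * t - 1 ≠ 0 := by linarith
  have c5 : 6 * t - 5 ≠ 0 := by linarith
  have hC : (2 * t - 1) ^ 2 ≠ 0 := pow_ne_zero 2 c1
  have hD : PD_WZB8x t 0 = (2 * t - 1) ^ 2 * (-t ^ 2) := by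
    unfold PD_WZB8x; ring
  have hP : PN_WZB8x t 0 = (2 * t - 1) ^ 2 * (3 / 16 * ((6 * t - 1) * (6 * t - 5))) := by
    unfold PN_WZB8x; ring
  unfold gu
  refine ⟨?_, ?_, ?_⟩
  · have h := key_WZB8x ht hG hN w0 wB8 (16 * ((6 * t - 1) * (6 * t - 5))) 3 (R0_WZB8x t)
      (fun k => by
        simp only [wt_w0, wt_wB8, PD_WZB8x, PN_WZB8x, uph_WZB8x, dn_WZB8x, R0_WZB8x]; ring)
    rw [hD, hP] at h
    apply mul_left_cancel₀ (mul_ne_zero hC (mul_ne_zero c4 c5))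
    linear_combination (-16) * h
  · have h := key_WZB8x ht hG hN wB1 wB1 8 1 (R1_WZB8x t) (fun k => by
      simp only [wt_wB1, PD_WZB8x, PN_WZB8x, uph_WZB8x, dn_WZB8x, R1_WZB8x]; ring)
    rw [hD, hP] at h
    apply mul_left_cancel₀ hC
    linear_combination (-16) * h
  · have h := key_WZB8x ht hG hN wB8 w0 12 ((6 * t - 1) * (6 * t - 5)) (R2_WZB8x t) (fun k => by
      simp only [wt_w0, wt_wB8, PD_WZB8x, PN_WZB8x, uph_WZB8x, dn_WZB8x, R2_WZB8x]; ring)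
    rw [hD, hP] at h
    apply mul_left_cancel₀ hC
    linear_combination (-16 / 3) * h

end Pool.Agent.MP_54d89f_nt.Dx
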