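import Pool.Agent.MP_54d89f_nt.Dx.C4
import Pool.Agent.MP_54d89f_nt.Dx.Out8
import Pool.Agent.MP_54d89f_nt.Dx.WZB4
import Pool.Agent.MP_54d89f_nt.Dx.WZA8
import Pool.Agent.MP_54d89f_nt.Dx.WZB8
import Pool.Agent.MP_54d89f_nt.Dx.FamB4
import Pool.Agent.MP_54d89f_nt.Dx.FamIA
import Pool.Agent.MP_54d89f_nt.Dx.FamIB
import Pool.Agent.MP_54d89f_nt.Dx.Fam3
import Pool.Agent.MP_54d89f_nt.Dx.Pow

/-! The four arguments. -/

namespace Pool.Agent.MP_54d89f_nt.Dx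

open Finset Pool.Agent.MP_030fd4_nt Pool.Agent.MP_54d89f_nt.Dw

variable {p : ℕ} [Fact p.Prime]

theorem nu (hp : 5 ≤ p) {y : ℚ_[p]} (a b c : ℕ) (h : y ^ 2 * 2 ^ c = 2 ^ a * 3 ^ b) : ‖y‖ = 1 := by
  have n2 : ‖(2 : ℚ_[p])‖ = 1 := by
    simpa using norm_nat_unit (p := p) (n := 2) (not_dvd_of_lt (by omega) (by omega))
  have n3 : ‖(3 : ℚ_[p])‖ = 1 := by
    simpa using norm_nat_unit (p := p) (n := 3) (not_dvd_of_lt (by omega) (by omega))
  have h1 := congrArg norm h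
  simp only [norm_mul, norm_pow, n2, n3, one_pow, mul_one] at h1
  exact (pow_eq_one_iff_of_nonneg (norm_nonneg _) (by omega)).1 h1

theorem adm4 (hp : 5 ≤ p) : Adm p FB4 wB1 wB4 :=
  ⟨nu hp 0 0 4 (by simp [FB4]; norm_num), nu hp 0 2 4 (by simp [FB4]; norm_num), rfl, rfl, rfl,
    nu hp 2 2 0 (by simp [wB1]; norm_num), nu hp 4 4 0 (by simp [wB4]; norm_num)⟩

theorem admA (hp : 5 ≤ p) : Adm p FA8 wA1 wA8 :=
  ⟨nu hp 6 0 0 (by simp [FA8]; norm_num), nu hp 0 4 0 (by simp [FA8]; norm_num), rfl, rfl, rfl,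
    nu hp 0 2 0 (by simp [wA1]), nu hp 2 4 0 (by simp [wA8]; norm_num)⟩

theorem admB (hp : 5 ≤ p) : Adm p FB8 wB1 wB8 :=
  ⟨nu hp 0 0 6 (by simp [FB8]; norm_num), nu hp 0 4 6 (by simp [FB8]; norm_num), rfl, rfl, rfl,
    nu hp 2 2 0 (by simp [wB1]; norm_num), nu hp 4 4 0 (by simp [wB8]; norm_num)⟩

theorem outA (hp : 5 ≤ p) {x : ℤ_[p]} (hx : 12 * x = 1) :
    Out (fg FA8 (0 : ℚ_[p])) (Mg FA8 w0 0) (Mg FA8 wA8 0) (G1 (3 * x)) (-16) (p % 4 = 1) := by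
  simpa using out8 hp (admA hp) (q := 4) (by simp [Shp, FA8]) one_ne_zero one_ne_zero
    (famIA wzA8 _ (recB _)) (by simpa using fam3A wzA8 ℚ_[p]) (φ := fun _ => 1) continuous_const
    (by simp) (by simp) hx

theorem outB (hp : 5 ≤ p) {x : ℤ_[p]} (hx : 12 * x = 1) :
    Out (fg FB8 (0 : ℚ_[p])) (Mg FB8 w0 0) (Mg FB8 wB8 0) ((jacobiSym 2 p : ℚ_[p]) * G1 (3 * x))
      (-32) (p % 4 = 1) := by
  obtain ⟨φ, h1, h2, h3⟩ := powSt hp
  have := out8 hp (admB hp) (q := 2) (by simp [Shp, FB8]) (ρ := 1 / 2) (θ := 2) (by norm_num)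
    (by norm_num) (famIB wzB8 _ (recB _))
    (by rw [show (9 / 256 * (1 / 2) ^ 6 : ℚ_[p]) = 9 / 16384 by norm_num]; exact fam3B wzB8 _) h1
    (by
      rw [h2]
      have : jacobiSym 2 p ^ 2 = 1 := jacobiSym.sq_one (by
        have := (p_mod hp).1
        rw [show (2 : ℤ) = ((2 : ℕ) : ℤ) from rfl, Int.gcd_natCast_natCast]
        exact (Nat.coprime_two_left).2 (Nat.odd_iff.2 this))
      exact_mod_cast this)
    (fun n t h => by rw [h3 n t h, ← mul_pow]; norm_num) hx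
  rwa [h2, show (-16 * 2 : ℚ_[p]) = -32 by norm_num] at this

theorem out4 (hp : 5 ≤ p) {x : ℤ_[p]} (hx : 6 * x = 1) :
    Out (fg FB4 (0 : ℚ_[p])) (Mg FB4 w0 0) (Mg FB4 wB4 0) ((-1) ^ (p / 2) * GG x) 72
      (p % 3 = 1) := by
  obtain ⟨m2, m3⟩ := p_mod hp
  have st := fun c d μ hc hd hμ => main4 hp (strG hp) (blkG hp) (midG denseG) denseG linG
    (adm4 hp) (famB4 wzB4 _) (c := c) (d := d) (μ := μ) hc hd hμ hx
  have hg := gam hp
  have b1 : vb4 1 = w0 := rfl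
  have b5 : vb4 5 = wB4 := rfl
  have n5 : (5 = 1) = False := by simp
  have sg : ∀ m : ℕ, (-1 : ℚ_[p]) ^ (p * m) = (-1) ^ m := fun m => by
    rw [pow_mul, (Nat.odd_iff.2 m2).neg_one_pow]
  have sq : ∀ m : ℕ, ((-1 : ℚ_[p]) ^ m) ^ 2 = 1 := fun m => by
    rw [← pow_mul, mul_comm, pow_mul]; simp
  have se : (-1 : ℚ_[p]) ^ (p / 2) = (-1) ^ (p / 6) := by
    obtain ⟨k, hk⟩ : ∃ k, p / 2 = p / 6 + 2 * k := ⟨(p / 2 - p / 6) / 2, by omega⟩
    rw [hk, pow_add, pow_mul]; simp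
  have s5 : ∀ m : ℕ, (-1 : ℚ_[p]) ^ (5 * m) = (-1) ^ m := fun m => by
    rw [pow_mul]; norm_num
  rw [se]
  refine ⟨fun h => ⟨?_, ?_⟩, fun h => ⟨?_, ?_⟩⟩
  · obtain ⟨s, h0, h1, h2⟩ := st 1 1 (p / 6) (by omega) (by omega) (by omega)
    have := ev00 hp hg (p / 6) x (fun t => (-1) ^ (p / 6) * s t) (by omega) hx (by fun_prop)
      (fun m => by
        have e := h1 m
        simp only [val4, if_true, pow_add, sg, Nat.cast_one, neg_mul, one_mul] at e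
        linear_combination (-1) ^ m * (-1) ^ (p / 6) * e -
          (-1) ^ (p / 6) * s (-x - m) * a0 ℚ_[p] m * sq m +
          a0 ℚ_[p] (p * m + p / 6) * (sq m * ((-1) ^ (p / 6)) ^ 2 + sq (p / 6)))
    rwa [show (-1) ^ (p / 6) * GG x = s 0 by
      linear_combination -(-1) ^ (p / 6) * this + s 0 * sq (p / 6)]
  · obtain ⟨s, h0, h1, h2⟩ := st 5 5 (5 * (p / 6)) (by omega) (by omega) (by omega)
    have := ev22 hp hg (p / 6) x (fun t => (-1) ^ (p / 6) * s t) (by omega) hx (by fun_prop)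
      (fun m => by
        have e := h1 m
        simp only [val4, n5, if_false, pow_add, sg, s5, Nat.cast_ofNat] at e
        linear_combination (1 / 4) * (-1) ^ m * (-1) ^ (p / 6) * e -
          (-1) ^ (p / 6) * s (-5 * x - m) * a2 ℚ_[p] m * sq m +
          a2 ℚ_[p] (p * m + 5 * (p / 6)) * (sq m * ((-1) ^ (p / 6)) ^ 2 + sq (p / 6)))
    exact ⟨s 0, by linear_combination this, h2⟩
  · obtain ⟨s, h0, h1, h2⟩ := st 1 5 (5 * (p / 6) + 4) (by omega) (by omega) (by omega)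
    have := ev02 hp hg (p / 6) x (fun t => 4 * (-1) ^ (p / 6) * s t) (by omega) hx (by fun_prop)
      (fun m => by
        have e := h1 m
        simp only [val4, n5, if_true, if_false, pow_add, sg, s5, Nat.cast_ofNat] at e
        linear_combination (-1) ^ m * (-1) ^ (p / 6) * e -
          4 * (-1) ^ (p / 6) * s (-5 * x - m) * a2 ℚ_[p] m * sq m +
          a0 ℚ_[p] (p * m + (5 * (p / 6) + 4)) * (sq m * ((-1) ^ (p / 6)) ^ 2 + sq (p / 6)))
    exact ⟨s 0, by linear_combination (-1) ^ (p / 6) * this - 72 * s 0 * sq (p / 6), h2⟩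
  · obtain ⟨s, h0, h1, h2⟩ := st 5 1 (p / 6) (by omega) (by omega) (by omega)
    have := ev20 hp hg (p / 6) x (fun t => 1 / 4 * (-1) ^ (p / 6) * s t) (by omega) hx
      (by fun_prop) (fun m => by
        have e := h1 m
        simp only [val4, n5, if_true, if_false, pow_add, sg, Nat.cast_one, neg_mul, one_mul] at e
        linear_combination (1 / 4) * (-1) ^ m * (-1) ^ (p / 6) * e -
          1 / 4 * (-1) ^ (p / 6) * s (-x - m) * a0 ℚ_[p] m * sq m +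
          a2 ℚ_[p] (p * m + p / 6) * (sq m * ((-1) ^ (p / 6)) ^ 2 + sq (p / 6)))
    exact ⟨s 0, by linear_combination 4 * this, h2⟩

theorem out1 (hp : 5 ≤ p) {x : ℤ_[p]} (hx : 6 * x = 1) :
    Out (f (0 : ℚ_[p])) (M 0 0) (M 2 0) (GG x) 18 (p % 3 = 1) := by
  obtain ⟨m2, m3⟩ := p_mod hp
  have h0 : GG x ≠ 0 := by
    obtain ⟨u, h1, h2, -⟩ := exists_unit hp x
    rw [← h2]
    exact fun h => h1.ne_zero (Subtype.ext h)
  refine ⟨fun h => ⟨fun N => (split_case hp (μ := p / 6) (by omega) hx N).1, (p : ℚ_[p]) ^ 2 / GG x,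
    by field_simp, fun N => ?_⟩, fun h => ⟨⟨-((p : ℚ_[p]) ^ 2 * GG x) / 18, by field_simp,
    fun N => ?_⟩, -18 / GG x, by field_simp, fun N => ?_⟩⟩
  · obtain ⟨s, R, h1, h2⟩ := (split_case hp (μ := p / 6) (by omega) hx N).2
    exact ⟨R, by rw [h2, ← h1]; field_simp⟩
  · obtain ⟨s, R, h1, h2⟩ := (inert_case hp (μ := p / 6) (by omega) hx N).1
    exact ⟨R, by rw [h2, ← h1]; field_simp⟩
  · obtain ⟨s, R, h1, h2⟩ := (inert_case hp (μ := p / 6) (by omega) hx N).2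
    exact ⟨R, by rw [h2, ← h1]; field_simp⟩

end Pool.Agent.MP_54d89f_nt.Dx
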