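import Pool.Agent.MP_54d89f_nt.Dx.St
import Pool.Agent.MP_54d89f_nt.Dw.Tail

/-! One row of the Frobenius matrix for a general family, the tail, and the shape of the output. -/

namespace Pool.Agent.MP_54d89f_nt.Dx

open Finset Pool.Agent.MP_030fd4_nt Pool.Agent.MP_54d89f_nt.Dw

variable {p : ℕ} [Fact p.Prime]

/-- The unit conditions used by the structure step. -/
def Adm (p : ℕ) [Fact p.Prime] (F : Fm) (v1 v2 : Fin 6 → ℤ) : Prop :=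
  ‖(F.z : ℚ_[p])‖ = 1 ∧ ‖(F.z : ℚ_[p]) - 1‖ = 1 ∧ v1 0 = 0 ∧ v1 1 = 0 ∧ v1 2 = 0 ∧
    ‖(v1 3 : ℚ_[p])‖ = 1 ∧ ‖(v2 0 : ℚ_[p])‖ = 1

theorem rowG (hs : StrG p) (hb : BlkG p) {F : Fm} {v1 v2 : Fin 6 → ℤ} (hA : Adm p F v1 v2)
    (v : Fin 6 → ℤ) :
    ∃ σ : Fin 3 → ℤ_[p] → ℚ_[p], (∀ j, Continuous (σ j)) ∧
      (∀ N : ℕ, ∃ R : ℤ_[p], Mg F v (0 : ℚ_[p]) (p * N) =
        σ 0 0 * Mg F w0 (0 : ℚ_[p]) N + σ 1 0 * Mg F v1 (0 : ℚ_[p]) N +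
          σ 2 0 * Mg F v2 (0 : ℚ_[p]) N +
          (p : ℚ_[p]) ^ 3 * (N : ℚ_[p]) ^ 3 * fg F (0 : ℚ_[p]) N * R) ∧
      ∀ (t : ℤ_[p]) (y : ℚ_[p]) (n : ℕ), (t : ℚ_[p]) = y → GoodG F y (n + 1) → upg F y n = 0 →
        Mg F v ((p : ℚ_[p]) * y) (p * (n + 1)) =
          σ 0 t * Mg F w0 y (n + 1) + σ 1 t * Mg F v1 y (n + 1) + σ 2 t * Mg F v2 y (n + 1) := by
  obtain ⟨a1, a2, a3, a4, a5, a6, a7⟩ := hA
  obtain ⟨c, hc1, hc2, hc3⟩ := hb F v a1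
  obtain ⟨σ, hσ, h⟩ := hs F v1 v2 a1 a2 a3 a4 a5 a6 a7 c hc1 hc2
  refine ⟨σ, hσ, fun N => ?_, fun t y n ht hG hu => ?_⟩
  · obtain ⟨R, hR⟩ := h 0 N (by
      intro k _
      have := natCast_add_one_ne (K := ℚ_[p]) k
      simp only [PadicInt.coe_zero, mul_zero, add_zero]
      exact ⟨by rwa [add_comm], by rwa [add_comm]⟩)
    rw [← hc3] at hR
    simp only [PadicInt.coe_zero, mul_zero] at hR
    refine ⟨R, ?_⟩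
    rw [hR, dng]; ring
  · subst ht
    obtain ⟨R, hR⟩ := h t (n + 1) hG
    rw [← hc3, fg_eq_zero hu (Nat.lt_succ_self n)] at hR
    rw [hR]; ring

theorem fg_at_zero (F : Fm) {m : ℚ_[p]} (hm : (F.z : ℚ_[p]) * m = 64) (k : ℕ) :
    fg F (0 : ℚ_[p]) k = (((2 * k).choose k : ℕ) : ℚ_[p]) ^ 3 / m ^ k := by
  have h0 := f_at_zero (p := p) k
  have hm0 : m ≠ 0 := by rintro rfl; norm_num at hm
  have hz : (F.z : ℚ_[p]) = 4 * (16 / m) := by field_simp; linear_combination hm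
  have h1 : fg F (0 : ℚ_[p]) k = f (0 : ℚ_[p]) k * (16 / m) ^ k := by
    simp only [fg, f, mul_zero, hz, mul_pow]; ring
  rw [h1, h0, div_pow]
  have : (16 : ℚ_[p]) ^ k ≠ 0 := pow_ne_zero _ (by norm_num)
  field_simp

theorem tailG (hp : 5 ≤ p) {a e T : ℕ → ℚ_[p]} (ha : ∀ k, ‖a k‖ = ‖f (0 : ℚ_[p]) k‖)
    (he : ∀ k, ‖e k‖ ≤ 1) (hT : ∀ N, T N = ∑ k ∈ range N, e k * a k) (n j : ℕ) (hj : 2 * j < p) :
    ∃ R : ℤ_[p], T (p * n - j) = T (p * n) + (p : ℚ_[p]) ^ 3 * (n : ℚ_[p]) ^ 3 * a n * R := by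
  rcases Nat.eq_zero_or_pos n with rfl | hn
  · exact ⟨0, by simp⟩
  have hpn : p ≤ p * n := Nat.le_mul_of_pos_right p hn
  have key : ‖T (p * n - j) - T (p * n)‖ ≤ ‖(p : ℚ_[p]) ^ 3 * (n : ℚ_[p]) ^ 3 * a n‖ := by
    induction j with
    | zero => simp only [Nat.sub_zero, sub_self, norm_zero]; exact norm_nonneg _
    | succ j ih =>
      have e2 : T (p * n - (j + 1)) - T (p * n) =
          (T (p * n - j) - T (p * n)) - a (p * n - (j + 1)) * e (p * n - (j + 1)) := by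
        rw [show p * n - j = p * n - (j + 1) + 1 by omega, hT (_ + 1), sum_range_succ, ← hT]
        ring
      rw [e2]
      refine (normGauge p).sub (ih (by omega)) ((normGauge p).mul1' ?_ (he _))
      have := term_small hp n hn j hj
      rw [norm_mul, ← ha, ← ha, ← norm_mul] at this
      exact this
  obtain ⟨R, hR⟩ := exists_quot key
  exact ⟨R, by linear_combination hR⟩

/-- T (p N) is s times U N up to p^3 N^3 a N. -/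
def Cg (a T U : ℕ → ℚ_[p]) (s : ℚ_[p]) : Prop :=
  ∀ N : ℕ, ∃ R : ℤ_[p], T (p * N) = s * U N + (p : ℚ_[p]) ^ 3 * (N : ℚ_[p]) ^ 3 * a N * R

def Out (a S Q : ℕ → ℚ_[p]) (u κ : ℚ_[p]) (sp : Prop) : Prop :=
  (sp → Cg a S S u ∧ ∃ s, u * s = (p : ℚ_[p]) ^ 2 ∧ Cg a Q Q s) ∧
  (¬ sp → (∃ s, κ * s = -((p : ℚ_[p]) ^ 2 * u) ∧ Cg a S Q s) ∧ ∃ s, u * s = -κ ∧ Cg a Q S s)

theorem finish (hp : 5 ≤ p) {a e S Q : ℕ → ℚ_[p]} (ha : ∀ k, ‖a k‖ = ‖f (0 : ℚ_[p]) k‖)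
    (he : ∀ k, ‖e k‖ ≤ 1) (hS : ∀ N, S N = ∑ k ∈ range N, a k)
    (hQ : ∀ N, Q N = ∑ k ∈ range N, e k * a k) {u : ℤ_[p]} {κ : ℤ} {sp : Prop}
    (h : Out a S Q u κ sp) :
    (sp → ∀ n j : ℕ, 2 * j < p → ∃ R R' : ℤ_[p],
        S (p * n - j) - (u : ℚ_[p]) * S n =
          (p : ℚ_[p]) ^ 3 * (n : ℚ_[p]) ^ 3 * a n * (R : ℚ_[p]) ∧
        (u : ℚ_[p]) * Q (p * n - j) - (p : ℚ_[p]) ^ 2 * Q n =
          (p : ℚ_[p]) ^ 3 * (n : ℚ_[p]) ^ 3 * a n * (R' : ℚ_[p])) ∧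
    (¬ sp → ∀ n j : ℕ, 2 * j < p → ∃ R R' : ℤ_[p],
        (κ : ℚ_[p]) * S (p * n - j) + (p : ℚ_[p]) ^ 2 * (u : ℚ_[p]) * Q n =
          (p : ℚ_[p]) ^ 3 * (n : ℚ_[p]) ^ 3 * a n * (R : ℚ_[p]) ∧
        (u : ℚ_[p]) * Q (p * n - j) + (κ : ℚ_[p]) * S n =
          (p : ℚ_[p]) ^ 3 * (n : ℚ_[p]) ^ 3 * a n * (R' : ℚ_[p])) := by
  have tS := tailG hp (e := fun _ => 1) (T := S) ha (by simp) (by simpa using hS)
  have tQ := tailG hp ha he hQ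
  refine ⟨fun hs n j hj => ?_, fun hs n j hj => ?_⟩
  · obtain ⟨h1, s, hs, h2⟩ := h.1 hs
    obtain ⟨R, hR⟩ := h1 n
    obtain ⟨R', hR'⟩ := h2 n
    obtain ⟨T, hT⟩ := tS n j hj
    obtain ⟨T', hT'⟩ := tQ n j hj
    refine ⟨R + T, u * (R' + T'), ?_, ?_⟩
    · rw [hT, hR, PadicInt.coe_add]; ring
    · rw [hT', hR', PadicInt.coe_mul, PadicInt.coe_add, ← hs]; ring
  · obtain ⟨⟨s, hs, h1⟩, s', hs', h2⟩ := h.2 hs
    obtain ⟨R, hR⟩ := h1 n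
    obtain ⟨R', hR'⟩ := h2 n
    obtain ⟨T, hT⟩ := tS n j hj
    obtain ⟨T', hT'⟩ := tQ n j hj
    refine ⟨κ * (R + T), u * (R' + T'), ?_, ?_⟩
    · rw [hT, hR, PadicInt.coe_mul, PadicInt.coe_add, PadicInt.coe_intCast]
      linear_combination Q n * hs
    · rw [hT', hR', PadicInt.coe_mul, PadicInt.coe_add]
      linear_combination S n * hs'

end Pool.Agent.MP_54d89f_nt.Dx
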