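import Pool.Agent.MP_54d89f_nt.Dw.Gk

/-! General families and the statements of the steps for z = 1/4, -8, -1/8. -/

namespace Pool.Agent.MP_54d89f_nt.Dx

open Finset Pool.Agent.MP_030fd4_nt Pool.Agent.MP_54d89f_nt.Dw

/-- Slopes of the upper and lower parameters and the argument. -/
structure Fm where
  a1 : ℤ
  a2 : ℤ
  a3 : ℤ
  b1 : ℤ
  b2 : ℤ
  z : ℚ

def FA8 : Fm := ⟨1, 2, 3, 2, 4, -8⟩
def FB4 : Fm := ⟨-1, 1, 3, 1, 2, 1 / 4⟩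
def FB8 : Fm := ⟨-1, 1, 3, 1, 2, -1 / 8⟩

def w0 : Fin 6 → ℤ := ![0, 0, 0, 0, 0, 1]
def wA1 : Fin 6 → ℤ := ![0, 0, 0, 3, 6, 1]
def wB1 : Fin 6 → ℤ := ![0, 0, 0, 6, 6, 1]
def wB4 : Fin 6 → ℤ := ![36, 72, 36, 0, 0, -1]
def wA8 : Fin 6 → ℤ := ![18, 72, 60, 14, 28, 3]
def wB8 : Fin 6 → ℤ := ![36, 72, 12, 8, 8, 1]

section

variable {K : Type*} [Field K]

noncomputable def fg (F : Fm) (t : K) (k : ℕ) : K :=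
  rising (1 / 2 + F.a1 * t) k * rising (1 / 2 + F.a2 * t) k * rising (1 / 2 + F.a3 * t) k *
    (F.z : K) ^ k / ((k.factorial : K) * rising (1 + F.b1 * t) k * rising (1 + F.b2 * t) k)

def upg (F : Fm) (t k : K) : K :=
  (F.z : K) * (1 / 2 + F.a1 * t + k) * (1 / 2 + F.a2 * t + k) * (1 / 2 + F.a3 * t + k)

def dng (F : Fm) (t k : K) : K := k * (k + F.b1 * t) * (k + F.b2 * t)

def GoodG (F : Fm) (t : K) (N : ℕ) : Prop :=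
  ∀ k < N, 1 + F.b1 * t + k ≠ 0 ∧ 1 + F.b2 * t + k ≠ 0

def wt (v : Fin 6 → ℤ) (t k : K) : K :=
  v 0 * k ^ 2 + v 1 * k * t + v 2 * t ^ 2 + v 3 * k + v 4 * t + v 5

noncomputable def Mg (F : Fm) (v : Fin 6 → ℤ) (t : K) (N : ℕ) : K :=
  ∑ k ∈ range N, fg F t k * wt v t k

@[simp] theorem wt_w0 (t k : K) : wt w0 t k = 1 := by simp [wt, w0]
@[simp] theorem wt_wA1 (t k : K) : wt wA1 t k = 3 * k + 6 * t + 1 := by simp [wt, wA1]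
@[simp] theorem wt_wB1 (t k : K) : wt wB1 t k = 6 * k + 6 * t + 1 := by simp [wt, wB1]
@[simp] theorem wt_wB4 (t k : K) : wt wB4 t k = 36 * k ^ 2 + 72 * k * t + 36 * t ^ 2 - 1 := by
  simp [wt, wB4]; ring
@[simp] theorem wt_wA8 (t k : K) :
    wt wA8 t k = 18 * k ^ 2 + 72 * k * t + 60 * t ^ 2 + 14 * k + 28 * t + 3 := by simp [wt, wA8]
@[simp] theorem wt_wB8 (t k : K) :
    wt wB8 t k = 36 * k ^ 2 + 72 * k * t + 12 * t ^ 2 + 8 * k + 8 * t + 1 := by simp [wt, wB8]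

theorem fg_zero (F : Fm) (t : K) : fg F t 0 = 1 := by simp [fg, rising]

theorem fg_succ (F : Fm) (t : K) (k : ℕ) :
    fg F t (k + 1) = fg F t k * (upg F t k / dng F t ((k : K) + 1)) := by
  simp only [fg, rising, prod_range_succ, Nat.factorial_succ, upg, dng, div_mul_div_comm]
  push_cast
  congr 1 <;> ring

theorem GoodG.mono {F : Fm} {t : K} {N N' : ℕ} (h : GoodG F t N) (hN : N' ≤ N) : GoodG F t N' :=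
  fun k hk => h k (by omega)

theorem fg_succ_mul [CharZero K] {F : Fm} {t : K} {k : ℕ} (h : GoodG F t (k + 1)) :
    dng F t ((k : K) + 1) * fg F t (k + 1) = upg F t k * fg F t k := by
  have h0 : dng F t ((k : K) + 1) ≠ 0 := by
    obtain ⟨h1, h2⟩ := h k (by omega)
    refine mul_ne_zero (mul_ne_zero (natCast_add_one_ne k) ?_) ?_
    · intro h; apply h1; linear_combination h
    · intro h; apply h2; linear_combination h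
  rw [fg_succ]; field_simp

theorem fg_eq_zero {F : Fm} {t : K} {n k : ℕ} (h : upg F t n = 0) (hk : n < k) :
    fg F t k = 0 := by
  induction k, hk using Nat.le_induction with
  | base => rw [fg_succ, h]; simp
  | succ k _ ih => rw [fg_succ, ih, zero_mul]

theorem Mg_stable {F : Fm} {t : K} {n N : ℕ} (v : Fin 6 → ℤ) (h : upg F t n = 0) (hN : n < N) :
    Mg F v t N = Mg F v t (n + 1) := by
  induction N, hN using Nat.le_induction with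
  | base => rfl
  | succ N hN ih =>
    rw [← ih]; simp only [Mg, sum_range_succ]; rw [fg_eq_zero h hN]; simp

theorem fg_cast [CharZero K] (F : Fm) (t : ℚ) (k : ℕ) :
    ((fg F t k : ℚ) : K) = fg F (t : K) k := by
  simp [fg, rising_cast]

theorem Mg_cast [CharZero K] (F : Fm) (v : Fin 6 → ℤ) (t : ℚ) (N : ℕ) :
    ((Mg F v t N : ℚ) : K) = Mg F v (t : K) N := by
  simp [Mg, fg_cast, wt]

theorem goodG_cast [CharZero K] {F : Fm} {t : ℚ} {N : ℕ} (h : GoodG F t N) :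
    GoodG F (t : K) N := by
  intro k hk
  obtain ⟨h1, h2⟩ := h k hk
  exact ⟨by exact_mod_cast h1, by exact_mod_cast h2⟩

end

/-- Closed forms on t = -c/6 - 2m for z = -8. -/
noncomputable def bb (K : Type*) [Field K] (c m : ℕ) : K :=
  if c = 1 then (rising (1 / 2) (3 * m) / (rising (5 / 6) m * rising (1 / 6) (2 * m))) ^ 2
  else if c = 5 then (3 * rising (3 / 2) (3 * m) / (rising (7 / 6) m * rising (5 / 6) (2 * m))) ^ 2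
  else if c = 7 then (18 * rising (5 / 2) (3 * m) / (rising (5 / 6) m * rising (7 / 6) (2 * m))) ^ 2
  else (54 * rising (7 / 2) (3 * m) / (rising (7 / 6) m * rising (11 / 6) (2 * m))) ^ 2

def gu {K : Type*} [Field K] (t : K) : K := (6 * t - 1) * (6 * t - 5)
def gv {K : Type*} [Field K] (t : K) : K := (6 * t - 7) * (6 * t - 11)
def dd {K : Type*} [Field K] (t : K) : K := t ^ 2 * (t - 1) ^ 2

/-- The constant for the field Q(i); w is 1/4. -/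
noncomputable def G1 {p : ℕ} [Fact p.Prime] (w : ℤ_[p]) : ℚ_[p] :=
  (-1) ^ ((p + 1) / 2) * (gammaP p w : ℚ_[p]) ^ 4

def StrG (p : ℕ) [Fact p.Prime] : Prop :=
  ∀ (F : Fm) (v1 v2 : Fin 6 → ℤ), ‖(F.z : ℚ_[p])‖ = 1 → ‖(F.z : ℚ_[p]) - 1‖ = 1 →
    v1 0 = 0 → v1 1 = 0 → v1 2 = 0 → ‖(v1 3 : ℚ_[p])‖ = 1 → ‖(v2 0 : ℚ_[p])‖ = 1 →
  ∀ c : Fn p, (∀ E : Eps p, (G2 E).N c 1) → (∀ m, Continuous (c m)) →
    ∃ σ : Fin 3 → ℤ_[p] → ℚ_[p], (∀ j, Continuous (σ j)) ∧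
      ∀ (t : ℤ_[p]) (N : ℕ), GoodG F (t : ℚ_[p]) N → ∃ R : ℤ_[p],
        ∑ m ∈ range N, fg F (t : ℚ_[p]) m * c m t =
          σ 0 t * Mg F w0 (t : ℚ_[p]) N + σ 1 t * Mg F v1 (t : ℚ_[p]) N +
            σ 2 t * Mg F v2 (t : ℚ_[p]) N +
            (p : ℚ_[p]) ^ 3 * (dng F (t : ℚ_[p]) N * fg F (t : ℚ_[p]) N) * R

def BlkG (p : ℕ) [Fact p.Prime] : Prop :=
  ∀ (F : Fm) (v : Fin 6 → ℤ), ‖(F.z : ℚ_[p])‖ = 1 →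
    ∃ c : Fn p, (∀ E : Eps p, (G2 E).N c 1) ∧ (∀ m, Continuous (c m)) ∧
      ∀ (t : ℤ_[p]) (N : ℕ),
        Mg F v ((p : ℚ_[p]) * t) (p * N) = ∑ m ∈ range N, fg F (t : ℚ_[p]) m * c m t

def WZB4 : Prop :=
  ∀ (t : ℚ) (N : ℕ), t < 0 → GoodG FB4 t N → (t - 1 / 2 + N = 0 ∨ 3 * t - 5 / 2 + N = 0) →
    64 * t ^ 2 * Mg FB4 w0 (t - 1) (N + 1) = 3 * (6 * t - 1) ^ 2 * Mg FB4 w0 t (N + 1) ∧
    64 * t ^ 2 * Mg FB4 wB1 (t - 1) (N + 1) =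
      3 * ((6 * t - 1) * (6 * t - 5)) * Mg FB4 wB1 t (N + 1) ∧
    64 * t ^ 2 * Mg FB4 wB4 (t - 1) (N + 1) = 3 * (6 * t - 5) ^ 2 * Mg FB4 wB4 t (N + 1)

def WZA8 : Prop :=
  ∀ (t : ℚ) (N : ℕ), t < 0 → GoodG FA8 t N → (2 * t - 3 / 2 + N = 0 ∨ 3 * t - 5 / 2 + N = 0) →
    16 * t ^ 2 * Mg FA8 w0 (t - 1) (N + 1) = 9 * Mg FA8 wA8 t (N + 1) ∧
    16 * t ^ 2 * Mg FA8 wA1 (t - 1) (N + 1) = 3 * gu t * Mg FA8 wA1 t (N + 1) ∧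
    16 * t ^ 2 * Mg FA8 wA8 (t - 1) (N + 1) = gu t ^ 2 * Mg FA8 w0 t (N + 1)

def WZB8 : Prop :=
  ∀ (t : ℚ) (N : ℕ), t < 0 → GoodG FB8 t N → (t - 1 / 2 + N = 0 ∨ 3 * t - 5 / 2 + N = 0) →
    256 * t ^ 2 * Mg FB8 w0 (t - 1) (N + 1) = 9 * Mg FB8 wB8 t (N + 1) ∧
    128 * t ^ 2 * Mg FB8 wB1 (t - 1) (N + 1) = 3 * gu t * Mg FB8 wB1 t (N + 1) ∧
    64 * t ^ 2 * Mg FB8 wB8 (t - 1) (N + 1) = gu t ^ 2 * Mg FB8 w0 t (N + 1)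

def FamB4 (K : Type) [Field K] : Prop :=
  (∀ m N : ℕ, 3 * m < N → Mg FB4 w0 (-1 / 6 - (m : K)) N = (-1) ^ m * a0 K m ∧
    Mg FB4 wB1 (-1 / 6 - (m : K)) N = 0 ∧ Mg FB4 wB4 (-1 / 6 - (m : K)) N = 0) ∧
  (∀ m N : ℕ, 3 * m + 2 < N → Mg FB4 w0 (-5 / 6 - (m : K)) N = 0 ∧
    Mg FB4 wB1 (-5 / 6 - (m : K)) N = 0 ∧
    Mg FB4 wB4 (-5 / 6 - (m : K)) N = 4 * (-1) ^ m * a2 K m) ∧
  ∀ n : ℕ, 1 ≤ n →
    (-1 / 2 - (n : K)) ^ 2 * Mg FB4 w0 (-1 / 2 - ((n + 1 : ℕ) : K)) (n + 1 + 1) =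
      3 / 64 * (6 * (-1 / 2 - (n : K)) - 1) ^ 2 * Mg FB4 w0 (-1 / 2 - (n : K)) (n + 1) ∧
    (-1 / 2 - (n : K)) ^ 2 * Mg FB4 wB1 (-1 / 2 - ((n + 1 : ℕ) : K)) (n + 1 + 1) =
      3 / 64 * ((6 * (-1 / 2 - (n : K)) - 1) * (6 * (-1 / 2 - (n : K)) - 5)) *
        Mg FB4 wB1 (-1 / 2 - (n : K)) (n + 1) ∧
    (-1 / 2 - (n : K)) ^ 2 * Mg FB4 wB4 (-1 / 2 - ((n + 1 : ℕ) : K)) (n + 1 + 1) =
      3 / 64 * (6 * (-1 / 2 - (n : K)) - 5) ^ 2 * Mg FB4 wB4 (-1 / 2 - (n : K)) (n + 1) ∧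
    Mg FB4 wB1 (-1 / 2 - (n : K)) (n + 1) ≠ 0

def RecB (K : Type) [Field K] : Prop :=
  ∀ c m : ℕ, (c = 1 ∨ c = 5 ∨ c = 7 ∨ c = 11) → bb K c m ≠ 0 ∧
    dd (-(c : K) / 6 - 2 * m) * bb K c (m + 1) =
      9 / 256 * (if c < 6 then gu (-(c : K) / 6 - 2 * m) else gv (-(c : K) / 6 - 2 * m)) ^ 2 *
        bb K c m

/-- Values on the four symmetric families; ρ = 1, θ = 1 for z = -8 and ρ = 1/2, θ = 2 for -1/8. -/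
def FamI (K : Type) [Field K] (F : Fm) (v1 v2 : Fin 6 → ℤ) (ρ θ : K) : Prop :=
  ∀ c m N : ℕ, (c = 1 ∨ c = 5 ∨ c = 7 ∨ c = 11) → 6 * m + c / 2 < N →
    Mg F w0 (-(c : K) / 6 - 2 * m) N = (if c < 6 then ρ ^ (6 * m + c / 2) * bb K c m else 0) ∧
    Mg F v1 (-(c : K) / 6 - 2 * m) N = 0 ∧
    Mg F v2 (-(c : K) / 6 - 2 * m) N = (if c < 6 then 0 else θ * ρ ^ (6 * m + c / 2) * bb K c m)

/-- Two-step recurrences on the third family t = -(2n+1)/q; q = 4 for z = -8, q = 2 for -1/8. -/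
def FamIII (K : Type) [Field K] (F : Fm) (v1 v2 : Fin 6 → ℤ) (q : ℕ) (κ : K) : Prop :=
  ∀ n : ℕ, 2 ≤ n →
    dd (-(2 * (n : K) + 1) / q) * Mg F w0 (-(2 * ((n + q : ℕ) : K) + 1) / q) (n + q + 1) =
      κ * gu (-(2 * (n : K) + 1) / q) ^ 2 * Mg F w0 (-(2 * (n : K) + 1) / q) (n + 1) ∧
    dd (-(2 * (n : K) + 1) / q) * Mg F v1 (-(2 * ((n + q : ℕ) : K) + 1) / q) (n + q + 1) =
      κ * (gu (-(2 * (n : K) + 1) / q) * gv (-(2 * (n : K) + 1) / q)) *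
        Mg F v1 (-(2 * (n : K) + 1) / q) (n + 1) ∧
    dd (-(2 * (n : K) + 1) / q) * Mg F v2 (-(2 * ((n + q : ℕ) : K) + 1) / q) (n + q + 1) =
      κ * gv (-(2 * (n : K) + 1) / q) ^ 2 * Mg F v2 (-(2 * (n : K) + 1) / q) (n + 1) ∧
    Mg F v1 (-(2 * (n : K) + 1) / q) (n + 1) ≠ 0

def DenseG (p : ℕ) [Fact p.Prime] : Prop :=
  ∀ (h : ℕ) (φ ψ : ℤ_[p] → ℚ_[p]) (x : ℤ_[p]), ¬ p ∣ h → Continuous φ → Continuous ψ →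
    (∀ m : ℕ, φ (x - h * m) = ψ (x - h * m)) → ∀ t, φ t = ψ t

def LinG (p : ℕ) [Fact p.Prime] : Prop :=
  ∀ h c c' l0 : ℕ, l0 < p → c + 6 * h * l0 = p * c' → ∃ W : ℤ_[p] → ℚ_[p], Continuous W ∧
    ∀ t : ℤ_[p], ∏ l ∈ range p, (6 * ((p : ℚ_[p]) * t - h * l) - c) = (6 * (t : ℚ_[p]) - c') * W t

def MidG (p : ℕ) [Fact p.Prime] : Prop :=
  ∀ (h μ : ℕ) (κ y0 : ℚ_[p]) (gi gj gk d : ℚ_[p] → ℚ_[p]) (W s τ : ℤ_[p] → ℚ_[p])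
    (x0 x1 t0 : ℤ_[p]) (A B X Y Z : ℕ → ℚ_[p]),
    ¬ p ∣ h → κ ≠ 0 → Continuous gi → Continuous gj → Continuous gk → Continuous d →
    Continuous W → Continuous s → Continuous τ →
    (∀ t : ℤ_[p], ∏ l ∈ range p, gi ((p : ℚ_[p]) * t - h * l) = gj t * W t) →
    (p : ℚ_[p]) * x0 = y0 - h * μ →
    (∀ r : ℕ, d (y0 - h * r) * A (r + 1) = κ * gi (y0 - h * r) ^ 2 * A r) →
    (∀ m : ℕ, B m ≠ 0 ∧
      d ((x0 : ℚ_[p]) - h * m) * B (m + 1) = κ * gj ((x0 : ℚ_[p]) - h * m) ^ 2 * B m) →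
    (∀ m : ℕ, s (x0 - h * m) * B m = A (p * m + μ)) →
    (∀ r : ℕ, d ((p : ℚ_[p]) * x1 - h * r) * X (r + 1) =
      κ * gi ((p : ℚ_[p]) * x1 - h * r) ^ 2 * X r) →
    (∀ m : ℕ, d ((x1 : ℚ_[p]) - h * m) * Y (m + 1) = κ * gj ((x1 : ℚ_[p]) - h * m) ^ 2 * Y m) →
    (∀ m : ℕ, Z m ≠ 0 ∧ gj ((x1 : ℚ_[p]) - h * m) ≠ 0 ∧ d ((x1 : ℚ_[p]) - h * m) * Z (m + 1) =
      κ * (gj ((x1 : ℚ_[p]) - h * m) * gk ((x1 : ℚ_[p]) - h * m)) * Z m) →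
    (∀ m : ℕ, X (p * m) = s (x1 - h * m) * Y m + τ (x1 - h * m) * Z m) →
    gj t0 = 0 → (∀ m : ℕ, gk ((t0 : ℚ_[p]) - h * m) ≠ 0) →
    (∀ m l : ℕ, d ((p : ℚ_[p]) * ((t0 : ℚ_[p]) - h * m) - h * l) ≠ 0) →
    ∀ t, τ t = 0

/-- The limit of the ratios of closed forms; x is 1/12 and p d = c + 12 μ. -/
def Ev8 (p : ℕ) [Fact p.Prime] (c d : ℕ) (α β : ℚ_[p]) : Prop :=
  ∀ (μ : ℕ) (x : ℤ_[p]) (s : ℤ_[p] → ℚ_[p]), p * d = c + 12 * μ → 12 * x = 1 → Continuous s →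
    (∀ m : ℕ, s (-2 * d * x - 2 * m) * bb ℚ_[p] d m = bb ℚ_[p] c (p * m + μ)) →
      (if c < 6 then α * s 0 = β * G1 (3 * x) else G1 (3 * x) * s 0 = β)

def PowSt (p : ℕ) [Fact p.Prime] : Prop :=
  ∃ φ : ℤ_[p] → ℚ_[p], Continuous φ ∧ φ 0 = (jacobiSym 2 p : ℚ_[p]) ∧
    ∀ (n : ℕ) (t : ℤ_[p]), 6 * t = -(2 * (n : ℤ_[p]) + 1) → φ t = 2 ^ (p / 2 * (2 * n + 1))

def Bnd4 (p : ℕ) [Fact p.Prime] : Prop :=
  ∀ (E : Eps p) (n : ℕ), ‖lam p n‖ * E.e ^ (4 * (n / p)) ≤ 1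

noncomputable def Jac4 {p : ℕ} [Fact p.Prime] (τ : ZMod p →*₀ ℤ_[p]) (μ : ℕ) : ℚ_[p] :=
  ∑ y : ZMod p, (τ y : ℚ_[p]) ^ (3 * μ) * (τ (1 - y) : ℚ_[p]) ^ (2 * μ)

def Gau4 (p : ℕ) [Fact p.Prime] : Prop :=
  ∀ (μ : ℕ) (w : ℤ_[p]) (τ : ZMod p →*₀ ℤ_[p]), p = 4 * μ + 1 → 4 * w = 1 →
    (∀ y, PadicInt.toZMod (τ y) = y) →
      Jac4 τ μ * (gammaP p (3 * w) : ℚ_[p]) =
        -((gammaP p w : ℚ_[p]) * (gammaP p (2 * w) : ℚ_[p]))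

def JacI4 (p : ℕ) [Fact p.Prime] : Prop :=
  ∀ (μ : ℕ) (τ : ZMod p →*₀ ℤ_[p]), p = 4 * μ + 1 → (∀ y, PadicInt.toZMod (τ y) = y) →
    ∃ a b : ℤ, a ^ 2 + 4 * b ^ 2 = p ∧ Jac4 τ μ ^ 2 - 2 * a * Jac4 τ μ + p = 0

def Root4 (p : ℕ) [Fact p.Prime] : Prop :=
  ∀ (μ : ℕ) (w : ℤ_[p]) (a b : ℤ), p = 4 * μ + 1 → 4 * w = 1 → a ^ 2 + 4 * b ^ 2 = p →
    G1 w ^ 2 - (4 * (a : ℚ_[p]) ^ 2 - 2 * p) * G1 w + (p : ℚ_[p]) ^ 2 = 0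

end Pool.Agent.MP_54d89f_nt.Dx
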